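import Pool.Agent.W_4b1b5d_h3.Lines
import Pool.Agent.W_4b1b5d_h3.Liou
import Pool.Agent.W_4b1b5d_h3.BetaA

/-!
# The final step: `μ` is invariant along `e`
-/

set_option autoImplicit false

open scoped ContDiff

namespace Pool.W4b1b5d.H34

open Pool.W4b1b5d.H3

theorem D_mul (v : V2) {f g : V2 → ℝ} (hf : ContDiff ℝ (⊤ : ℕ∞) f) (hg : ContDiff ℝ (⊤ : ℕ∞) g)
    (x : V2) : Lines_D v (fun y => f y * g y) x = Lines_D v f x * g x + f x * Lines_D v g x := by
  have h := ((Lines_diff hf) x).hasFDerivAt.mul ((Lines_diff hg) x).hasFDerivAt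
  unfold Lines_D
  rw [show (fun y => f y * g y) = f * g from rfl, h.fderiv]
  simp
  ring

theorem D_zero_of_open (v : V2) {f : V2 → ℝ} {S : Set V2} (hS : IsOpen S)
    (h : ∀ x ∈ S, f x = 0) : ∀ x ∈ S, Lines_D v f x = 0 := by
  intro x hx
  have h1 : f =ᶠ[nhds x] fun _ => 0 := by
    filter_upwards [hS.mem_nhds hx] with y hy
    exact h y hy
  unfold Lines_D
  rw [h1.fderiv_eq]
  simp

theorem D_of_const (v : V2) {f : V2 → ℝ} (hf : ContDiff ℝ (⊤ : ℕ∞) f) (x : V2)
    (h : ∀ t : ℝ, f (x + t • v) = f x) : Lines_D v f x = 0 := by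
  have h1 := Lines_line v x hf 0
  have h2 : (fun s : ℝ => f (x + s • v)) = fun _ => f x := funext h
  rw [h2, zero_smul, add_zero] at h1
  exact (h1.unique (hasDerivAt_const 0 (f x)))

theorem const_of_D (v : V2) {f : V2 → ℝ} (hf : ContDiff ℝ (⊤ : ℕ∞) f) (x : V2)
    (h : ∀ y, Lines_D v f y = 0) (t : ℝ) : f (x + t • v) = f x := by
  have h1 : ∀ s, HasDerivAt (fun s : ℝ => f (x + s • v)) 0 s := by
    intro s
    have := Lines_line v x hf s
    rwa [h] at this
  have h2 := is_const_of_deriv_eq_zero (f := fun s : ℝ => f (x + s • v))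
    (fun s => (h1 s).differentiableAt) (fun s => (h1 s).deriv) t 0
  simpa using h2

theorem per_bdd {f : V2 → ℝ} (hf : Continuous f) (hper : Per f) : ∃ B : ℝ, ∀ x, |f x| ≤ B := by
  have h1 := Liou_bdd (fun x => (f x : ℂ)) (Complex.continuous_ofReal.comp hf)
    (fun x k => by
      show ((f _ : ℝ) : ℂ) = _
      rw [hper x k])
  obtain ⟨B, hB⟩ := h1.exists_norm_le
  refine ⟨B, fun x => ?_⟩
  have := hB _ ⟨x, rfl⟩
  simpa using this

/-- The wave argument. -/
theorem wave_real (e f : V2) (hspan : ∀ v : V2, ∃ s t : ℝ, v = s • e + t • f) (c d : ℝ)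
    (hcd : c ≠ 0 ∨ d ≠ 0) (mu U : V2 → ℝ) (hmu0 : ∀ x, 0 < mu x)
    (hmu : ContDiff ℝ (⊤ : ℕ∞) mu) (hmuper : Per mu) (hU : ContDiff ℝ (⊤ : ℕ∞) U) (hUper : Per U)
    (heU : ∀ x (t : ℝ), U (x + t • e) = U x)
    (hemu : ∀ x, fderiv ℝ U x ≠ 0 → ∀ t : ℝ, mu (x + t • e) = mu x)
    (x0 : V2) (hx0 : fderiv ℝ U x0 ≠ 0) (ρ : V2 → ℝ) (hρd : ρ = fun y => (mu y)⁻¹)
    (h1 : ∀ x, d * (Lines_D e (Lines_D e ρ) x - Lines_D f (Lines_D f ρ) x) +
      2 * c * Lines_D e (Lines_D f ρ) x = 0)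
    (h2 : ∀ x, d * (Lines_D e (Lines_D e (fun y => ρ y * U y)) x -
      Lines_D f (Lines_D f (fun y => ρ y * U y)) x) +
      2 * c * Lines_D e (Lines_D f (fun y => ρ y * U y)) x = 0) :
    ∀ x, fderiv ℝ mu x e = 0 := by
  have hρ : ContDiff ℝ (⊤ : ℕ∞) ρ := by
    rw [hρd]
    exact hmu.inv fun x => (hmu0 x).ne'
  have hρ0 : ∀ x, 0 < ρ x := fun x => by
    rw [hρd]
    exact inv_pos.2 (hmu0 x)
  have hρper : Per ρ := by
    intro x k
    rw [hρd]
    show (mu _)⁻¹ = (mu x)⁻¹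
    rw [hmuper x k]
  -- the open set
  have hDo : IsOpen {x : V2 | fderiv ℝ U x ≠ 0} :=
    isOpen_ne_fun (hU.continuous_fderiv (by simp)) continuous_const
  have heU0 : ∀ x, Lines_D e U x = 0 := fun x => D_of_const e hU x (heU x)
  have heρ0 : ∀ x ∈ {x : V2 | fderiv ℝ U x ≠ 0}, Lines_D e ρ x = 0 := by
    intro x hx
    apply D_of_const e hρ x
    intro t
    rw [hρd]
    show (mu _)⁻¹ = (mu x)⁻¹
    rw [hemu x hx t]
  have hinv : ∀ x, fderiv ℝ U x ≠ 0 → ∀ s : ℝ, fderiv ℝ U (x + s • e) ≠ 0 := by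
    intro x hx s
    have h1 : (fun y => U (y + s • e)) = U := funext fun y => heU y s
    have h2 : fderiv ℝ (fun y => U (y + s • e)) x = fderiv ℝ U (x + s • e) :=
      fderiv_comp_add_right _
    rw [h1] at h2
    rw [← h2]
    exact hx
  by_cases hd : d = 0
  · have hc : c ≠ 0 := by
      rcases hcd with hc | hd'
      · exact hc
      · exact absurd hd hd'
    -- `D_f D_e ρ = 0`
    have h3 : ∀ x, Lines_D f (Lines_D e ρ) x = 0 := by
      intro x
      have h4 := h1 x
      rw [hd, zero_mul, zero_add, Lines_D_comm e f hρ] at h4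
      rcases mul_eq_zero.1 h4 with h5 | h5
      · exact absurd h5 (mul_ne_zero two_ne_zero hc)
      · exact h5
    have h4 : ∀ x, Lines_D e ρ x = 0 := by
      intro x
      obtain ⟨s, t, hst⟩ := hspan (x - x0)
      have h5 : x = (x0 + s • e) + t • f := by
        rw [add_assoc, ← hst]
        abel
      rw [h5, const_of_D f (Lines_D_smooth e hρ) _ h3]
      exact heρ0 _ (hinv x0 hx0 s)
    intro x
    have h5 : (fun y => ρ y * mu y) = fun _ => (1 : ℝ) := by
      funext y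
      rw [hρd]
      exact inv_mul_cancel₀ (hmu0 y).ne'
    have h6 := D_mul e hρ hmu x
    rw [h5, h4, zero_mul, zero_add] at h6
    have h7 : Lines_D e (fun _ : V2 => (1 : ℝ)) x = 0 := by
      unfold Lines_D
      simp
    rw [h7] at h6
    exact (mul_eq_zero.1 h6.symm).resolve_left (hρ0 x).ne'
  · exfalso
    have hρU : ContDiff ℝ (⊤ : ℕ∞) (fun y => ρ y * U y) := hρ.mul hU
    have hfρ : ContDiff ℝ (⊤ : ℕ∞) (Lines_D f ρ) := Lines_D_smooth f hρ
    have hfU : ContDiff ℝ (⊤ : ℕ∞) (Lines_D f U) := Lines_D_smooth f hU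
    have heρU0 : ∀ x ∈ {x : V2 | fderiv ℝ U x ≠ 0}, Lines_D e (fun y => ρ y * U y) x = 0 := by
      intro x hx
      rw [D_mul e hρ hU, heρ0 x hx, heU0]
      ring
    have g1 : ∀ x ∈ {x : V2 | fderiv ℝ U x ≠ 0}, Lines_D f (Lines_D f ρ) x = 0 := by
      intro x hx
      have h3 := h1 x
      rw [D_zero_of_open e hDo heρ0 x hx, Lines_D_comm e f hρ,
        D_zero_of_open f hDo heρ0 x hx] at h3
      have h4 : d * Lines_D f (Lines_D f ρ) x = 0 := by linear_combination -h3
      exact (mul_eq_zero.1 h4).resolve_left hd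
    have g2 : ∀ x ∈ {x : V2 | fderiv ℝ U x ≠ 0},
        Lines_D f (Lines_D f (fun y => ρ y * U y)) x = 0 := by
      intro x hx
      have h3 := h2 x
      rw [D_zero_of_open e hDo heρU0 x hx, Lines_D_comm e f hρU,
        D_zero_of_open f hDo heρU0 x hx] at h3
      have h4 : d * Lines_D f (Lines_D f (fun y => ρ y * U y)) x = 0 := by
        linear_combination -h3
      exact (mul_eq_zero.1 h4).resolve_left hd
    have g3 : ∀ x, Lines_D f (Lines_D f (fun y => ρ y * U y)) x =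
        Lines_D f (Lines_D f ρ) x * U x + 2 * (Lines_D f ρ x * Lines_D f U x) +
        ρ x * Lines_D f (Lines_D f U) x := by
      intro x
      have h3 : Lines_D f (fun y => ρ y * U y) =
          fun y => 1 * (Lines_D f ρ y * U y) + 1 * (ρ y * Lines_D f U y) := by
        funext y
        rw [D_mul f hρ hU]
        ring
      rw [h3, Lines_D_comb f 1 1 (hfρ.mul hU) (hρ.mul hfU), D_mul f hfρ hU, D_mul f hρ hfU]
      ring
    -- the function `W = ρ² D_f U`
    obtain ⟨W, hWd⟩ : ∃ W : V2 → ℝ, W = fun y => ρ y * (ρ y * Lines_D f U y) := ⟨_, rfl⟩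
    have hW : ContDiff ℝ (⊤ : ℕ∞) W := by
      rw [hWd]
      exact hρ.mul (hρ.mul hfU)
    have g4 : ∀ x, W x * Lines_D f W x = 0 := by
      intro x
      by_cases hx : fderiv ℝ U x = 0
      · have : Lines_D f U x = 0 := by
          unfold Lines_D
          rw [hx]
          simp
        rw [hWd]
        simp only [this]
        ring
      · have h3 : Lines_D f W x = ρ x * (2 * (Lines_D f ρ x * Lines_D f U x) +
            ρ x * Lines_D f (Lines_D f U) x) := by
          rw [hWd, D_mul f hρ (hρ.mul hfU), D_mul f hρ hfU]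
          ring
        have h4 := g2 x hx
        rw [g3, g1 x hx, zero_mul, zero_add] at h4
        rw [h3, h4]
        ring
    have g5 : ∀ x, Lines_D f (fun y => W y * W y) x = 0 := by
      intro x
      rw [D_mul f hW hW]
      linear_combination 2 * g4 x
    have g6 : ∀ t : ℝ, W (x0 + t • f) * W (x0 + t • f) = W x0 * W x0 := fun t =>
      const_of_D f (hW.mul hW) x0 g5 t
    have g7 : W x0 ≠ 0 := by
      intro h3
      apply hx0
      have h4 : Lines_D f U x0 = 0 := by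
        rw [hWd] at h3
        rcases mul_eq_zero.1 h3 with h5 | h5
        · exact absurd h5 (hρ0 x0).ne'
        · exact (mul_eq_zero.1 h5).resolve_left (hρ0 x0).ne'
      have h5 : ∀ v, fderiv ℝ U x0 v = 0 := by
        intro v
        obtain ⟨s, t, hst⟩ := hspan v
        rw [hst, map_add, map_smul, map_smul]
        have h6 : fderiv ℝ U x0 e = 0 := heU0 x0
        have h7 : fderiv ℝ U x0 f = 0 := h4
        rw [h6, h7]
        simp
      ext v
      rw [h5]
      rfl
    obtain ⟨B, hB⟩ := per_bdd hU.continuous hUper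
    obtain ⟨M, hM⟩ := per_bdd hρ.continuous hρper
    have hM0 : 0 < M := lt_of_lt_of_le (hρ0 x0) ((le_abs_self _).trans (hM x0))
    obtain ⟨w, hwd⟩ : ∃ w : ℝ, w = |W x0| := ⟨_, rfl⟩
    have hw0 : 0 < w := by
      rw [hwd]
      exact abs_pos.2 g7
    have g8 : ∀ t : ℝ, w / M ^ 2 ≤ |Lines_D f U (x0 + t • f)| := by
      intro t
      have h3 : |W (x0 + t • f)| = w := by
        rw [hwd, ← Real.sqrt_mul_self_eq_abs, ← Real.sqrt_mul_self_eq_abs, g6]
      have h4 : |W (x0 + t • f)| = ρ (x0 + t • f) ^ 2 * |Lines_D f U (x0 + t • f)| := by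
        rw [hWd]
        simp only
        rw [abs_mul, abs_mul, abs_of_pos (hρ0 _)]
        ring
      rw [div_le_iff₀ (by positivity), ← h3, h4, mul_comm]
      apply mul_le_mul_of_nonneg_left _ (abs_nonneg _)
      have h5 := hM (x0 + t • f)
      rw [abs_of_pos (hρ0 _)] at h5
      exact pow_le_pow_left₀ (hρ0 _).le h5 2
    obtain ⟨N, hN⟩ := exists_nat_gt ((2 * B) / (w / M ^ 2))
    have hδ : 0 < w / M ^ 2 := by positivity
    rw [div_lt_iff₀ hδ] at hN
    have hN0 : (0 : ℝ) < N := by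
      by_contra h3
      have h4 : (N : ℝ) = 0 := le_antisymm (not_lt.1 h3) (Nat.cast_nonneg N)
      rw [h4, zero_mul] at hN
      have h5 := (abs_nonneg _).trans (hB x0)
      linarith
    obtain ⟨s, -, hs⟩ := exists_hasDerivAt_eq_slope (fun s : ℝ => U (x0 + s • f))
      (fun s => Lines_D f U (x0 + s • f)) hN0
      (fun s _ => (Lines_line f x0 hU s).continuousAt.continuousWithinAt)
      (fun s _ => Lines_line f x0 hU s)
    have h3 := g8 s
    rw [hs, abs_div, sub_zero, abs_of_pos hN0, le_div_iff₀ hN0] at h3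
    have h4 := abs_sub (U (x0 + (N : ℝ) • f)) (U (x0 + (0 : ℝ) • f))
    have h5 := hB (x0 + (N : ℝ) • f)
    have h6 := hB (x0 + (0 : ℝ) • f)
    linarith

end Pool.W4b1b5d.H34
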