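import Mathlib

/-!
# Painlevé's theorem for the real axis

A continuous function on an open set which is complex differentiable off the real axis is complex
differentiable.
-/

set_option autoImplicit false

open Complex MeasureTheory Set Metric Topology
open scoped Interval

namespace Pool.W4b1b5d.H34

theorem painleve_bd {f : ℂ → ℂ} {z w : ℂ} (hc : ContinuousOn f (Rectangle z w))
    (hd : ∀ u ∈ Ioo (min z.re w.re) (max z.re w.re) ×ℂ Ioo (min z.im w.im) (max z.im w.im),
      u.im ≠ 0 → DifferentiableAt ℂ f u) :
    (∫ x : ℝ in z.re..w.re, f (x + z.im * I)) -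
      (∫ x : ℝ in z.re..w.re, f (x + w.im * I)) +
      I • (∫ y : ℝ in z.im..w.im, f (w.re + y * I)) -
      I • (∫ y : ℝ in z.im..w.im, f (z.re + y * I)) = 0 := by
  by_cases h0 : (0 : ℝ) ∈ Ioo (min z.im w.im) (max z.im w.im)
  · have h0' : (0 : ℝ) ∈ [[z.im, w.im]] := by
      rw [← Icc_min_max]
      exact ⟨h0.1.le, h0.2.le⟩
    -- the two halves
    have hA := integral_boundary_rect_eq_zero_of_continuousOn_of_differentiableOn f z (w.re : ℂ)
      (hc.mono (by
        intro u hu
        simp only [Rectangle, mem_reProdIm, ofReal_re, ofReal_im] at hu ⊢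
        exact ⟨hu.1, uIcc_subset_uIcc_left h0' hu.2⟩))
      (by
        intro u hu
        simp only [mem_reProdIm, ofReal_re, ofReal_im, mem_Ioo] at hu
        refine (hd u ?_ ?_).differentiableWithinAt
        · simp only [mem_reProdIm, mem_Ioo]
          refine ⟨hu.1, lt_of_le_of_lt ?_ hu.2.1, lt_of_lt_of_le hu.2.2 ?_⟩
          · exact le_min (min_le_left _ _) h0.1.le
          · exact max_le (le_max_left _ _) h0.2.le
        · intro h
          rw [h] at hu
          rcases le_total z.im 0 with h1 | h1
          · rw [max_eq_right h1] at hu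
            exact lt_irrefl _ hu.2.2
          · rw [min_eq_right h1] at hu
            exact lt_irrefl _ hu.2.1)
    have hB := integral_boundary_rect_eq_zero_of_continuousOn_of_differentiableOn f (z.re : ℂ) w
      (hc.mono (by
        intro u hu
        simp only [Rectangle, mem_reProdIm, ofReal_re, ofReal_im] at hu ⊢
        exact ⟨hu.1, uIcc_subset_uIcc_right h0' hu.2⟩))
      (by
        intro u hu
        simp only [mem_reProdIm, ofReal_re, ofReal_im, mem_Ioo] at hu
        refine (hd u ?_ ?_).differentiableWithinAt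
        · simp only [mem_reProdIm, mem_Ioo]
          refine ⟨hu.1, lt_of_le_of_lt ?_ hu.2.1, lt_of_lt_of_le hu.2.2 ?_⟩
          · exact le_min h0.1.le (min_le_right _ _)
          · exact max_le h0.2.le (le_max_right _ _)
        · intro h
          rw [h] at hu
          rcases le_total w.im 0 with h1 | h1
          · rw [max_eq_left h1] at hu
            exact lt_irrefl _ hu.2.2
          · rw [min_eq_left h1] at hu
            exact lt_irrefl _ hu.2.1)
    simp only [ofReal_re, ofReal_im] at hA hB
    have hint : ∀ (a : ℝ), a ∈ [[z.re, w.re]] → ∀ b c : ℝ, b ∈ [[z.im, w.im]] → c ∈ [[z.im, w.im]] →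
        IntervalIntegrable (fun y : ℝ => f (a + y * I)) volume b c := by
      intro a ha b c hb hc'
      refine ContinuousOn.intervalIntegrable (hc.comp (by fun_prop) ?_)
      intro y hy
      simp only [Rectangle, mem_reProdIm, add_re, ofReal_re, mul_re, I_re, mul_zero, ofReal_im,
        I_im, mul_one, sub_self, add_zero, add_im, mul_im, zero_add]
      exact ⟨ha, uIcc_subset_uIcc hb hc' hy⟩
    have e1 : (∫ y : ℝ in z.im..w.im, f (w.re + y * I)) =
        (∫ y : ℝ in z.im..0, f (w.re + y * I)) + ∫ y : ℝ in (0 : ℝ)..w.im, f (w.re + y * I) :=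
      (intervalIntegral.integral_add_adjacent_intervals
        (hint _ right_mem_uIcc _ _ left_mem_uIcc h0')
        (hint _ right_mem_uIcc _ _ h0' right_mem_uIcc)).symm
    have e2 : (∫ y : ℝ in z.im..w.im, f (z.re + y * I)) =
        (∫ y : ℝ in z.im..0, f (z.re + y * I)) + ∫ y : ℝ in (0 : ℝ)..w.im, f (z.re + y * I) :=
      (intervalIntegral.integral_add_adjacent_intervals
        (hint _ left_mem_uIcc _ _ left_mem_uIcc h0')
        (hint _ left_mem_uIcc _ _ h0' right_mem_uIcc)).symm
    rw [e1, e2, smul_add, smul_add]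
    linear_combination hA + hB
  · refine integral_boundary_rect_eq_zero_of_continuousOn_of_differentiableOn f z w hc ?_
    intro u hu
    refine (hd u hu ?_).differentiableWithinAt
    intro h
    apply h0
    have := (mem_reProdIm.1 hu).2
    rwa [h] at this

theorem painleve {U : Set ℂ} (hU : IsOpen U) {f : ℂ → ℂ} (hc : ContinuousOn f U)
    (hd : ∀ z ∈ U, z.im ≠ 0 → DifferentiableAt ℂ f z) : DifferentiableOn ℂ f U := by
  refine (isConservativeOn_and_continuousOn_iff_isDifferentiableOn hU).1 ⟨?_, hc⟩
  intro z w hzw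
  rw [← add_eq_zero_iff_eq_neg, wedgeIntegral_add_wedgeIntegral_eq]
  refine painleve_bd (hc.mono hzw) fun u hu hne => hd u (hzw ?_) hne
  simp only [Rectangle, mem_reProdIm] at hu ⊢
  rw [← Icc_min_max, ← Icc_min_max]
  exact ⟨Ioo_subset_Icc_self hu.1, Ioo_subset_Icc_self hu.2⟩

end Pool.W4b1b5d.H34
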