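import Pool.Agent.W_4b1b5d_h34.Form

/-!
# The pairing `∫ a ∧ b = mn a ∧ mn b` for continuous periodic closed forms

No mollification: `t ↦ ∫ p_0(x) Q(x + t e_1) dx = - ∫ P(x - t e_1) q_0(x) dx` is differentiated in `t`.
-/

set_option autoImplicit false

open MeasureTheory Set Filter Topology
open Pool.W4b1b5d.H3

namespace Pool.W4b1b5d.H34

theorem cell_ae : (ZSpan.fundamentalDomain (Pi.basisFun ℝ (Fin 2)) : Set V2) =ᵐ[volume] cell := by
  rw [ZSpan.fundamentalDomain_pi_basisFun]
  exact Measure.univ_pi_Ico_ae_eq_Icc

theorem lattice_int {g : V2} (hg : g ∈ Submodule.span ℤ (Set.range (Pi.basisFun ℝ (Fin 2)))) :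
    ∃ k : Fin 2 → ℤ, g = fun i => ((k i : ℤ) : ℝ) := by
  have h := (Module.Basis.mem_span_iff_repr_mem (R := ℤ) (Pi.basisFun ℝ (Fin 2)) g).1 hg
  choose k hk using h
  refine ⟨k, funext fun i => ?_⟩
  have := hk i
  simpa using this.symm

/-- Integrals over the cell of periodic functions are translation invariant. -/
theorem cell_shift {f : V2 → ℂ} (hper : Per f) (v : V2) :
    ∫ x in cell, f (x + v) = ∫ x in cell, f x := by
  have hF := ZSpan.isAddFundamentalDomain' (Pi.basisFun ℝ (Fin 2)) (volume : Measure V2)
  have hF2 := hF.vadd_of_comm v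
  have hinv : ∀ (g : (Submodule.span ℤ (Set.range (Pi.basisFun ℝ (Fin 2)))).toAddSubgroup) (x : V2),
      f (g +ᵥ x) = f x := by
    intro g x
    obtain ⟨k, hk⟩ := lattice_int g.2
    have : g +ᵥ x = x + fun i => ((k i : ℤ) : ℝ) := by
      rw [← hk]
      change (g : V2) + x = _
      rw [add_comm]
    rw [this, hper]
  have : Countable (Submodule.span ℤ (Set.range (Pi.basisFun ℝ (Fin 2)))).toAddSubgroup :=
    inferInstanceAs (Countable (Submodule.span ℤ (Set.range (Pi.basisFun ℝ (Fin 2)))))
  have h1 := hF.setIntegral_eq hF2 hinv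
  rw [← setIntegral_congr_set cell_ae, ← setIntegral_congr_set cell_ae, h1]
  have h2 := (measurePreserving_add_left (volume : Measure V2) v).setIntegral_image_emb
    (measurableEmbedding_addLeft v) f (ZSpan.fundamentalDomain (Pi.basisFun ℝ (Fin 2)))
  simp only [add_comm v] at h2
  rw [← h2, ← Set.image_vadd]
  congr 2
  exact Set.image_congr fun a _ => add_comm a v

/-- Differentiation under the integral sign. -/
theorem deriv_int {g Q : V2 → ℂ} {q : V2 → Fin 2 → ℂ} (hg : Continuous g) (hq : Continuous q)
    (hqper : Per q) (hQ : ∀ x, HasFDerivAt Q (cl (q x)) x) (v : V2) :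
    HasDerivAt (fun t : ℝ => ∫ x in cell, g x * Q (x + t • v)) (∫ x in cell, g x * cl (q x) v) 0 := by
  have hQc : Continuous Q := continuous_iff_continuousAt.2 fun x => (hQ x).continuousAt
  obtain ⟨G, hG⟩ := cell_compact.exists_bound_of_continuousOn hg.continuousOn
  have hbd : ∃ C, ∀ x, ‖cl (q x) v‖ ≤ C := by
    refine Grow_per_bdd ?_ ?_
    · exact (cl_cont.comp hq).clm_apply continuous_const
    · intro x k
      simp only [hqper x k]
  obtain ⟨C, hC⟩ := hbd
  have hcv : Continuous fun x => cl (q x) v := (cl_cont.comp hq).clm_apply continuous_const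
  have hd : ∀ (x : V2) (t : ℝ), HasDerivAt (fun t : ℝ => g x * Q (x + t • v))
      (g x * cl (q (x + t • v)) v) t := by
    intro x t
    have h1 : HasDerivAt (fun t : ℝ => x + t • v) v t := by
      simpa using ((hasDerivAt_id t).smul_const v).const_add x
    exact ((hQ (x + t • v)).comp_hasDerivAt t h1).const_mul (g x)
  have := hasDerivAt_integral_of_dominated_loc_of_deriv_le (μ := volume.restrict cell)
    (F := fun (t : ℝ) x => g x * Q (x + t • v)) (F' := fun (t : ℝ) x => g x * cl (q (x + t • v)) v)
    (x₀ := 0) (s := univ) (bound := fun _ => |G| * |C|) univ_mem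
    (Eventually.of_forall fun t => (hg.mul (hQc.comp (by fun_prop))).aestronglyMeasurable)
    (by
      have : Continuous fun x => g x * Q (x + (0 : ℝ) • v) := hg.mul (hQc.comp (by fun_prop))
      exact cont_intCell this)
    (by
      have : Continuous fun x => g x * cl (q (x + (0 : ℝ) • v)) v :=
        hg.mul (hcv.comp (by fun_prop))
      exact this.aestronglyMeasurable)
    (by
      rw [ae_restrict_iff' cell_meas]
      refine Eventually.of_forall fun x hx t _ => ?_
      rw [norm_mul]
      exact mul_le_mul ((hG x hx).trans (le_abs_self _)) ((hC _).trans (le_abs_self _))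
        (norm_nonneg _) (abs_nonneg _))
    (cont_intCell (f := fun _ => |G| * |C|) continuous_const)
    (Eventually.of_forall fun x t _ => hd x t)
  simpa using this.2

/-- Pairing of exact periodic forms. -/
theorem pair_exact {P Q : V2 → ℂ} {p q : V2 → Fin 2 → ℂ} (hp : Continuous p) (hq : Continuous q)
    (hpper : Per p) (hqper : Per q) (hPper : Per P) (hQper : Per Q)
    (hP : ∀ x, HasFDerivAt P (cl (p x)) x) (hQ : ∀ x, HasFDerivAt Q (cl (q x)) x) :
    ∫ x in cell, p x 0 * q x 1 = ∫ x in cell, p x 1 * q x 0 := by
  have hPc : Continuous P := continuous_iff_continuousAt.2 fun x => (hP x).continuousAt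
  have hQc : Continuous Q := continuous_iff_continuousAt.2 fun x => (hQ x).continuousAt
  have hP1 : ContDiff ℝ 1 P := contDiff_of_prim hp hP
  have hQ1 : ContDiff ℝ 1 Q := contDiff_of_prim hq hQ
  have d1 := deriv_int (g := fun x => p x 0) ((continuous_pi_iff.1 hp) 0) hq hqper hQ
    (Pi.single 1 1)
  have d2 := deriv_int (g := fun x => q x 0) ((continuous_pi_iff.1 hq) 0) hp hpper hP
    (-Pi.single 1 1)
  -- the two functions of `t` add up to zero
  have key : ∀ t : ℝ, (∫ x in cell, p x 0 * Q (x + t • Pi.single 1 1)) =
      - ∫ x in cell, q x 0 * P (x + t • (-Pi.single 1 1)) := by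
    intro t
    set v : V2 := t • Pi.single 1 1 with hv
    have hv' : t • (-Pi.single 1 1 : V2) = -v := by rw [hv, smul_neg]
    rw [hv']
    -- integration by parts
    have hQs : ∀ x, HasFDerivAt (fun y => Q (y + v)) (cl (q (x + v))) x := fun x =>
      shift_fderiv v (hQ (x + v))
    have hQs1 : ContDiff ℝ 1 fun y => Q (y + v) := hQ1.comp (contDiff_id.add contDiff_const)
    have hperQ : Per fun y => Q (y + v) := by
      intro x k
      have : x + (fun i => ((k i : ℤ) : ℝ)) + v = (x + v) + fun i => ((k i : ℤ) : ℝ) := by abel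
      simp only [this, hQper (x + v) k]
    have h1 := IBP_x (fun y => P y * Q (y + v)) (hP1.mul hQs1)
      (by intro x k; simp only [hPper x k]; exact congrArg (P x * ·) (hperQ x k)) 0
      (Pi.single 0 1)
    rw [cell_eq] at h1
    have h2 : ∀ x, fderiv ℝ (fun y => P y * Q (y + v)) x (Pi.single 0 1) =
        p x 0 * Q (x + v) + P x * q (x + v) 0 := by
      intro x
      have h3 := ((hP x).mul (hQs x)).fderiv
      change fderiv ℝ (fun y => P y * Q (y + v)) x = _ at h3
      rw [h3]
      simp [cl_e0]
      ring
    simp only [h2] at h1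
    have c1 : Continuous fun x => p x 0 * Q (x + v) :=
      ((continuous_pi_iff.1 hp) 0).mul (hQc.comp (by fun_prop))
    have c2 : Continuous fun x => P x * q (x + v) 0 :=
      hPc.mul (((continuous_pi_iff.1 hq) 0).comp (continuous_id.add continuous_const))
    rw [integral_add (cont_intCell c1) (cont_intCell c2)] at h1
    have h3 : ∫ x in cell, P x * q (x + v) 0 = ∫ x in cell, q x 0 * P (x + -v) := by
      have h4 : Per fun x => q x 0 * P (x + -v) := by
        intro x k
        have : x + (fun i => ((k i : ℤ) : ℝ)) + -v = (x + -v) + fun i => ((k i : ℤ) : ℝ) := by abel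
        simp only [this, hPper (x + -v) k, hqper x k]
      rw [← cell_shift h4 v]
      refine setIntegral_congr_fun cell_meas fun x _ => ?_
      simp only [add_neg_cancel_right]
      ring
    rw [h3] at h1
    exact eq_neg_of_add_eq_zero_left h1
  have d3 : HasDerivAt (fun t : ℝ => ∫ x in cell, p x 0 * Q (x + t • Pi.single 1 1))
      (-∫ x in cell, q x 0 * cl (p x) (-Pi.single 1 1)) 0 := by
    have : (fun t : ℝ => ∫ x in cell, p x 0 * Q (x + t • Pi.single 1 1)) =
        fun t : ℝ => - ∫ x in cell, q x 0 * P (x + t • (-Pi.single 1 1)) := funext key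
    rw [this]
    exact d2.neg
  have h5 := d1.unique d3
  rw [← integral_neg] at h5
  simp only [cl_e1, map_neg, mul_neg, neg_neg] at h5
  rw [h5]
  exact setIntegral_congr_fun cell_meas fun x _ => mul_comm _ _

/-- **Pairing**: `∫ a ∧ b = mn a ∧ mn b`. -/
theorem pairing {a b : V2 → Fin 2 → ℂ} (ha : CForm a) (hb : CForm b) :
    ∫ x in cell, (a x 0 * b x 1 - a x 1 * b x 0) = mn a 0 * mn b 1 - mn a 1 * mn b 0 := by
  obtain ⟨P, hPper, hPc, hP⟩ := ha.exists_per
  obtain ⟨Q, hQper, hQc, hQ⟩ := hb.exists_per
  have hp : Continuous fun x => a x - mn a := ha.cont.sub continuous_const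
  have hq : Continuous fun x => b x - mn b := hb.cont.sub continuous_const
  have hpper : Per fun x => a x - mn a := fun x k => by simp only [ha.per x k]
  have hqper : Per fun x => b x - mn b := fun x k => by simp only [hb.per x k]
  have h1 := pair_exact hp hq hpper hqper hPper hQper hP hQ
  have ca : ∀ i, Continuous fun x => a x i := fun i => (continuous_pi_iff.1 ha.cont) i
  have cb : ∀ i, Continuous fun x => b x i := fun i => (continuous_pi_iff.1 hb.cont) i
  have hcst : ∀ c : ℂ, ∫ _ in cell, c = c := by
    intro c
    rw [integral_const, measureReal_restrict_apply_univ, cell_vol, one_smul]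
  have expand : ∀ i j : Fin 2, ∫ x in cell, (a x - mn a) i * (b x - mn b) j =
      (∫ x in cell, a x i * b x j) - mn a i * mn b j := by
    intro i j
    have e : ∀ x, (a x - mn a) i * (b x - mn b) j =
        a x i * b x j - (a x i * mn b j + mn a i * b x j - mn a i * mn b j) := by
      intro x
      simp only [Pi.sub_apply]
      ring
    simp only [e]
    have i1 : Integrable (fun x => a x i * b x j) (volume.restrict cell) :=
      cont_intCell ((ca i).mul (cb j))
    have i2 : Integrable (fun x => a x i * mn b j) (volume.restrict cell) :=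
      cont_intCell ((ca i).mul continuous_const)
    have i3 : Integrable (fun x => mn a i * b x j) (volume.restrict cell) :=
      cont_intCell (continuous_const.mul (cb j))
    have i4 : Integrable (fun _ : V2 => mn a i * mn b j) (volume.restrict cell) :=
      cont_intCell continuous_const
    have i5 : Integrable (fun x => a x i * mn b j + mn a i * b x j) (volume.restrict cell) :=
      i2.add i3
    have i6 : Integrable (fun x => a x i * mn b j + mn a i * b x j - mn a i * mn b j)
      (volume.restrict cell) := i5.sub i4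
    rw [integral_sub i1 i6, integral_sub i5 i4, integral_add i2 i3, hcst,
      integral_mul_const, integral_const_mul]
    change _ - (mn a i * mn b j + mn a i * mn b j - mn a i * mn b j) = _
    ring
  rw [expand, expand] at h1
  have j1 : Integrable (fun x => a x 0 * b x 1) (volume.restrict cell) :=
    cont_intCell ((ca 0).mul (cb 1))
  have j2 : Integrable (fun x => a x 1 * b x 0) (volume.restrict cell) :=
    cont_intCell ((ca 1).mul (cb 0))
  rw [integral_sub j1 j2]
  linear_combination h1

end Pool.W4b1b5d.H34
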