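import Pool.Agent.W_4b1b5d_h34.Nrl
import Pool.Agent.W_4b1b5d_h66.SHGlueF
import Pool.Agent.W_4b1b5d_h33.Last

/-!
# Nonreal labels for the sheets, both signs; the momentum forms; part (ii) and `S04593`
-/

set_option autoImplicit false

open MeasureTheory Set Filter Topology
open Pool.W4b1b5d.H3 Pool.W4b1b5d.SH Pool.W4b1b5d.H33
open scoped ComplexConjugate

namespace Pool.W4b1b5d.H34

/-- Equality on `S` for real values near `w`. -/
theorem eq_on_S2 {D : PD} (p : PS D) {s s' τ : ℝ} (hs : s = 1 ∨ s = -1) (hss : s' = -s)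
    (hτ : 0 < τ) (hH' : Ks s' τ ⊆ D.H) (S : Sh D 2 s τ) (T : Sh D 2 s' τ) (j : Fin S.n) (w : ℝ)
    (him : (p.lab S j w).im ≠ 0) (hder : p.g.derivative.eval (p.lab S j w) ≠ 0) :
    ∃ i : Fin T.n, ∀ᶠ u : ℝ in 𝓝 w, (p.lab S j u).im ≠ 0 ∧ (p.lab T i u).im ≠ 0 ∧
      ∀ x ∈ p.S, S.P j x u = T.P i x u := by
  have hwU := real_Us s hτ w
  obtain ⟨x0, hx0⟩ := p.Sne
  have hoff := off_circle p S j hwU hx0 him
  have hY0 : S.P j x0 w ^ 2 ≠ 0 := pow_ne_zero 2 (P_ne S j x0 hwU)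
  have hR1 : D.R 1 x0 (S.P j x0 w ^ 2) ≠ 0 := by
    rw [PS_R1 p hx0 hY0]
    refine mul_ne_zero ?_ (kap_deriv_ne p.hk (D.lpos x0) hoff)
    rw [p.lab_all S j hwU hx0]
    exact hder
  obtain ⟨i, hi, -⟩ := Sh.glue2 (by norm_num) hs hss hτ hH' S T j x0 w
    (by rw [← norm_pow]; exact hoff) hR1
  refine ⟨i, ?_⟩
  have h1 : ∀ᶠ u : ℝ in 𝓝 w, S.P j x0 u = T.P i x0 u := by
    have hc : Continuous fun u : ℝ => (x0, u) := Continuous.prodMk_right x0
    exact (hc.tendsto w).eventually hi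
  have h2 : ∀ᶠ u : ℝ in 𝓝 w, (p.lab S j u).im ≠ 0 := by
    have hc : Continuous fun u : ℝ => p.lab S j u :=
      (p.lab_cont S j).comp_continuous Complex.continuous_ofReal fun u => real_Us s hτ u
    have hc2 : Continuous fun u : ℝ => (p.lab S j u).im := Complex.continuous_im.comp hc
    exact hc2.continuousAt.eventually_ne him
  filter_upwards [h1, h2] with u hu1 hu2
  have huU := real_Us s hτ u
  have huU' := real_Us s' hτ u
  have hlab : p.lab T i u = p.lab S j u := by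
    rw [← p.lab_all S j huU hx0, ← p.lab_all T i huU' hx0, hu1]
  have himT : (p.lab T i u).im ≠ 0 := by rw [hlab]; exact hu2
  refine ⟨hu2, himT, ?_⟩
  have cS : Continuous fun x => S.P j x u :=
    (S.cont j).comp_continuous (Continuous.prodMk_left (u : ℂ)) fun x => ⟨mem_univ _, huU⟩
  have cT : Continuous fun x => T.P i x u :=
    (T.cont i).comp_continuous (Continuous.prodMk_left (u : ℂ)) fun x => ⟨mem_univ _, huU'⟩
  have hsq : EqOn ((fun x => S.P j x u) ^ 2) ((fun x => T.P i x u) ^ 2) p.S := by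
    intro x hx
    change S.P j x u ^ 2 = T.P i x u ^ 2
    refine kap_inj p.hk (D.lpos x) (off_circle p S j huU hx hu2).le
      (off_circle p T i huU' hx himT) (c := p.w x) ?_
    rw [p.lab_all S j huU hx, p.lab_all T i huU' hx, hlab]
  exact p.Sp.eq_of_sq_eq cS.continuousOn cT.continuousOn hsq
    (fun {x} _ => P_ne T i x huU') hx0 hu1

/-- The sign condition along the line. -/
theorem line_sign2 {D : PD} (p : PS D) {s τ : ℝ} (S : Sh D 2 s τ) (j : Fin S.n) {u : ℂ}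
    (hu : u ∈ Us s τ) (him : (p.lab S j u).im ≠ 0) {g : V2} {c σ : ℝ} (hc : c ≠ 0)
    (hσ : σ = 1 ∨ σ = -1)
    (hg : ∀ (P : ℂ) (l : ℝ), P ≠ 0 → (cl (cov D.al P (l / P)) g) ^ 2 =
      (c : ℂ) ^ 2 * (σ * (p.k * P ^ 2 + (starRingEnd ℂ) p.k * (l : ℂ) ^ 2 / P ^ 2) + 2 * l) / 4)
    {x : V2} (hx : x ∈ p.S) :
    0 < (σ * (p.lab S j u).im) * ((cl (H34.mom S j u x) g) ^ 2).im := by
  have hP := P_ne S j x hu
  have h1 : (cl (H34.mom S j u x) g) ^ 2 = ((c ^ 2 * σ / 4 : ℝ) : ℂ) * (p.lab S j u) +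
      ((c ^ 2 * (2 * D.l x - σ * p.w x) / 4 : ℝ) : ℂ) := by
    unfold H34.mom sf
    rw [hg _ _ hP, ← p.lab_all S j hu hx]
    unfold kap
    push_cast
    ring
  have h2 : ((cl (H34.mom S j u x) g) ^ 2).im = c ^ 2 * σ / 4 * (p.lab S j u).im := by
    rw [h1]
    simp only [Complex.add_im, Complex.ofReal_im, add_zero, Complex.im_ofReal_mul]
  rw [h2]
  have h3 : 0 < c ^ 2 := by positivity
  have h4 : 0 < (p.lab S j u).im ^ 2 := by positivity
  have h5 : σ * σ = 1 := by rcases hσ with rfl | rfl <;> norm_num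
  have h6 : σ * (p.lab S j u).im * (c ^ 2 * σ / 4 * (p.lab S j u).im) =
      c ^ 2 / 4 * (p.lab S j u).im ^ 2 := by
    calc _ = (σ * σ) * (c ^ 2 / 4 * (p.lab S j u).im ^ 2) := by ring
      _ = _ := by rw [h5, one_mul]
  rw [h6]
  positivity

/-- `nonreal` for two sheets. -/
theorem nrl_core {D : PD} (p : PS D) (hdic : Dic p) {τ : ℝ} (hτ : 0 < τ) (hH : Ks 1 τ ⊆ D.H)
    (hH' : Ks (-1) τ ⊆ D.H) (S : Sh D 2 1 τ) (T : Sh D 2 (-1) τ) (j : Fin S.n) (i : Fin T.n) (w : ℝ)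
    (hi : ∀ᶠ u : ℝ in 𝓝 w, (p.lab S j u).im ≠ 0 ∧ ∀ x ∈ p.S, S.P j x u = T.P i x u) :
    ∀ᶠ w' : ℝ in 𝓝 w, ∀ x, S.P j x w' = T.P i x w' := by
  obtain ⟨ε, hε, hball⟩ := Metric.eventually_nhds_iff_ball.1 hi
  filter_upwards [Metric.ball_mem_nhds w (half_pos hε)] with w' hw' x
  rw [Metric.mem_ball, Real.dist_eq] at hw'
  set δ : ℝ := min (ε / 2) (τ / 2) with hδdef
  have hδ : 0 < δ := lt_min (by positivity) (by positivity)
  have hδτ : δ < τ := (min_le_right _ _).trans_lt (by linarith)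
  have hδε : δ ≤ ε / 2 := min_le_left _ _
  have hnear : ∀ u : ℝ, |u - w'| < δ → u ∈ Metric.ball w ε := by
    intro u hu
    rw [Metric.mem_ball, Real.dist_eq]
    have h1 : |u - w| ≤ |u - w'| + |w' - w| := abs_sub_le _ _ _
    linarith
  obtain ⟨c1, hc1, hU⟩ := sh_fam (Or.inl rfl) hH S j (w0 := w') hδ hδτ
  obtain ⟨c2, hc2, hL⟩ := sh_fam (Or.inr rfl) hH' T i (w0 := w') hδ hδτ
  have hfix1 : ∀ u : ℝ, |u - w'| < δ → cB 1 w' δ (u : ℂ) = u := fun u hu =>
    cB_fix (Or.inl rfl) ⟨by simpa using hu.le, by simp, by simpa using hδ.le⟩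
  have hfix2 : ∀ u : ℝ, |u - w'| < δ → cB (-1) w' δ (u : ℂ) = u := fun u hu =>
    cB_fix (Or.inr rfl) ⟨by simpa using hu.le, by simp, by simpa using hδ.le⟩
  have hw'0 : |w' - w'| < δ := by simpa using hδ
  have key := nonreal (c := min c1 c2) D.hal D.lsm.continuous D.lper D.lpos hδ (lt_min hc1 hc2)
    (hU.mono (min_le_left _ _)) (hL.mono (min_le_right _ _)) p.So p.Sp
    (fun x hx u hu => by
      rw [hfix1 u hu, hfix2 u hu]
      exact (hball u (hnear u hu)).2 x hx)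
    (by
      rcases hdic with hd | ⟨m, c, σ, hm, hc, hσ, hom, ⟨y0, hy0, hline⟩, hd⟩
      · left
        intro d hdb
        have h1 := hd (d : V2 →ₗ[ℝ] ℝ) hdb
        ext v
        exact congrFun (congrArg DFunLike.coe h1) v
      · right
        refine ⟨m, hm, fun d hdb => hd (d : V2 →ₗ[ℝ] ℝ) hdb, fun u hu => ?_⟩
        refine ⟨σ * (p.lab S j u).im, y0, fun r _ => ?_⟩
        have h1 := line_sign2 p S j (real_Us 1 hτ u) (hball u (hnear u hu)).1 hc hσ hom (hline r)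
        have h2 : (fun x => S.P j x (cB 1 w' δ (u : ℂ))) = fun x => S.P j x u := by
          rw [hfix1 u hu]
        rw [h2]
        exact h1) x
  rw [hfix1 w' hw'0, hfix2 w' hw'0] at key
  exact key

theorem nrlAll : NrlAll := by
  intro D p hdic s s' τ hs hss hτ hH hH' S T j w him hder
  obtain ⟨i, hi⟩ := eq_on_S2 p hs hss hτ hH' S T j w him hder
  refine ⟨i, ?_⟩
  rcases hs with rfl | rfl
  · subst hss
    exact nrl_core p hdic hτ hH hH' S T j i w (hi.mono fun u hu => ⟨hu.1, hu.2.2⟩)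
  · rw [neg_neg] at hss
    subst hss
    have h1 := nrl_core p hdic hτ hH' hH T S i j w
      (hi.mono fun u hu => ⟨hu.2.1, fun x hx => (hu.2.2 x hx).symm⟩)
    exact h1.mono fun u hu x => (hu x).symm

theorem momAll : MomAll := by
  intro D s τ hs hτ hH S j w
  exact mom_cform hs hH S j (real_Us s hτ w)

end Pool.W4b1b5d.H34
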