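import Pool.Agent.W_4b1b5d_h76.Reduction

/-!
# Odd and even parts of integrals, products of integrals
-/

set_option autoImplicit false

open MvPolynomial Matrix
open scoped ContDiff

namespace Pool.Agent.U4b

theorem PB_of (H B : (Fin 2 → ℝ) → (Fin 2 → ℝ) → ℝ) (x p : Fin 2 → ℝ)
    {L : (Fin 2 → ℝ) × (Fin 2 → ℝ) →L[ℝ] ℝ}
    (h : HasFDerivAt (fun z : (Fin 2 → ℝ) × (Fin 2 → ℝ) => B z.1 z.2) L (x, p)) :
    PB H B x p = ∑ i : Fin 2, (dP H x p i * L (Pi.single i 1, 0) -
      dX H x p i * L (0, Pi.single i 1)) := by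
  unfold PB
  simp only [dP_eq h, dX_eq h]

theorem IsInt.hasFDerivAt {H : (Fin 2 → ℝ) → (Fin 2 → ℝ) → ℝ}
    {F : (Fin 2 → ℝ) → MvPolynomial (Fin 2) ℝ} (hF : IsInt H F) (x p : Fin 2 → ℝ) :
    ∃ L : (Fin 2 → ℝ) × (Fin 2 → ℝ) →L[ℝ] ℝ,
      HasFDerivAt (fun z : (Fin 2 → ℝ) × (Fin 2 → ℝ) => MvPolynomial.eval z.2 (F z.1)) L (x, p) ∧
      ∑ i : Fin 2, (dP H x p i * L (Pi.single i 1, 0) - dX H x p i * L (0, Pi.single i 1)) = 0 := by
  obtain ⟨h1, h2, ⟨N, hN⟩, h4⟩ := hF
  have hd : Differentiable ℝ (fun z : (Fin 2 → ℝ) × (Fin 2 → ℝ) =>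
      MvPolynomial.eval z.2 (F z.1)) := (contDiff_eval h1 hN).differentiable (by simp)
  refine ⟨_, (hd (x, p)).hasFDerivAt, ?_⟩
  have h5 := PB_of H (fun x p => MvPolynomial.eval p (F x)) x p (hd (x, p)).hasFDerivAt
  rw [← h5]
  exact h4 x p

theorem IsInt.mul {H : (Fin 2 → ℝ) → (Fin 2 → ℝ) → ℝ}
    {F G : (Fin 2 → ℝ) → MvPolynomial (Fin 2) ℝ} (hF : IsInt H F) (hG : IsInt H G) :
    IsInt H (fun x => F x * G x) := by
  have hF' := hF.hasFDerivAt
  have hG' := hG.hasFDerivAt
  obtain ⟨h1, h2, ⟨N, hN⟩, h4⟩ := hF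
  obtain ⟨g1, g2, ⟨M, hM⟩, g4⟩ := hG
  refine ⟨CoefSm.mul h1 g1, fun x k => by
    show F _ * G _ = _
    rw [h2, g2], ⟨N + M, fun x =>
    (MvPolynomial.totalDegree_mul _ _).trans (add_le_add (hN x) (hM x))⟩, fun x p => ?_⟩
  obtain ⟨L, hL, hL0⟩ := hF' x p
  obtain ⟨K, hK, hK0⟩ := hG' x p
  have h5 := hL.mul hK
  have h6 : ((fun z : (Fin 2 → ℝ) × (Fin 2 → ℝ) => MvPolynomial.eval z.2 (F z.1)) *
      fun z => MvPolynomial.eval z.2 (G z.1)) =
      fun z => MvPolynomial.eval z.2 (F z.1 * G z.1) := by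
    funext z
    simp
  rw [h6] at h5
  have h7 := PB_of H (fun x p => MvPolynomial.eval p (F x * G x)) x p h5
  change PB H (fun x p => MvPolynomial.eval p (F x * G x)) x p = 0
  rw [h7]
  simp only [Fin.sum_univ_two] at hL0 hK0 ⊢
  simp only [_root_.add_apply, _root_.smul_apply, smul_eq_mul]
  linear_combination (MvPolynomial.eval p (F x)) * hK0 + (MvPolynomial.eval p (G x)) * hL0

theorem IsInt.comb {H : (Fin 2 → ℝ) → (Fin 2 → ℝ) → ℝ}
    {F G : (Fin 2 → ℝ) → MvPolynomial (Fin 2) ℝ} (hF : IsInt H F) (hG : IsInt H G) (a b : ℝ) :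
    IsInt H (fun x => C a * F x + C b * G x) := by
  have hF' := hF.hasFDerivAt
  have hG' := hG.hasFDerivAt
  obtain ⟨h1, h2, ⟨N, hN⟩, h4⟩ := hF
  obtain ⟨g1, g2, ⟨M, hM⟩, g4⟩ := hG
  refine ⟨?_, fun x k => by
    show C a * F _ + C b * G _ = _
    rw [h2, g2], ⟨N + M, fun x => ?_⟩, fun x p => ?_⟩
  · intro m
    simp only [MvPolynomial.coeff_add, MvPolynomial.coeff_C_mul]
    exact (contDiff_const.mul (h1 m)).add (contDiff_const.mul (g1 m))
  · refine (MvPolynomial.totalDegree_add _ _).trans (max_le ?_ ?_)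
    · refine (MvPolynomial.totalDegree_mul _ _).trans ?_
      rw [MvPolynomial.totalDegree_C, zero_add]
      exact (hN x).trans (Nat.le_add_right _ _)
    · refine (MvPolynomial.totalDegree_mul _ _).trans ?_
      rw [MvPolynomial.totalDegree_C, zero_add]
      exact (hM x).trans (Nat.le_add_left _ _)
  · obtain ⟨L, hL, hL0⟩ := hF' x p
    obtain ⟨K, hK, hK0⟩ := hG' x p
    have h5 := (hL.const_mul a).add (hK.const_mul b)
    have h6 : ((fun z : (Fin 2 → ℝ) × (Fin 2 → ℝ) => a * MvPolynomial.eval z.2 (F z.1)) +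
        fun z => b * MvPolynomial.eval z.2 (G z.1)) =
        fun z => MvPolynomial.eval z.2 (C a * F z.1 + C b * G z.1) := by
      funext z
      simp
    rw [h6] at h5
    have h7 := PB_of H (fun x p => MvPolynomial.eval p (C a * F x + C b * G x)) x p h5
    change PB H (fun x p => MvPolynomial.eval p (C a * F x + C b * G x)) x p = 0
    rw [h7]
    simp only [Fin.sum_univ_two] at hL0 hK0 ⊢
    simp only [_root_.add_apply, _root_.smul_apply, smul_eq_mul]
    linear_combination a * hL0 + b * hK0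

/-- The substitution `p ↦ -p`. -/
noncomputable def ng (P : MvPolynomial (Fin 2) ℝ) : MvPolynomial (Fin 2) ℝ := lsub (-1) P

theorem eval_ng (P : MvPolynomial (Fin 2) ℝ) (q : Fin 2 → ℝ) :
    MvPolynomial.eval q (ng P) = MvPolynomial.eval (-q) P := by
  rw [ng, eval_lsub, Matrix.vecMul_neg, Matrix.vecMul_one]

theorem ng_monomial (m : Fin 2 →₀ ℕ) (c : ℝ) :
    ng (monomial m c) = monomial m ((-1) ^ (m 0 + m 1) * c) := by
  apply MvPolynomial.funext
  intro q
  rw [eval_ng, MvPolynomial.eval_monomial, MvPolynomial.eval_monomial, Finsupp.prod_fintype,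
    Finsupp.prod_fintype, Fin.prod_univ_two, Fin.prod_univ_two]
  · simp only [Pi.neg_apply]
    rw [neg_pow (q 0), neg_pow (q 1), pow_add]
    ring
  · intro i; simp
  · intro i; simp

theorem ng_add (P Q : MvPolynomial (Fin 2) ℝ) : ng (P + Q) = ng P + ng Q := by
  apply MvPolynomial.funext
  intro q
  rw [eval_ng, map_add, map_add, eval_ng, eval_ng]

theorem coeff_ng (P : MvPolynomial (Fin 2) ℝ) (m : Fin 2 →₀ ℕ) :
    (ng P).coeff m = (-1) ^ (m 0 + m 1) * P.coeff m := by
  induction P using MvPolynomial.induction_on' with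
  | monomial u a =>
    rw [ng_monomial, MvPolynomial.coeff_monomial, MvPolynomial.coeff_monomial]
    split_ifs with h
    · rw [h]
    · simp
  | add p q hp hq => rw [ng_add, MvPolynomial.coeff_add, MvPolynomial.coeff_add, hp, hq]; ring

theorem dP_neg (A : (Fin 2 → ℝ) → (Fin 2 → ℝ) → ℝ) (x p : Fin 2 → ℝ) (i : Fin 2) :
    dP (fun x p => A x (-p)) x p i = - dP A x (-p) i := by
  unfold dP
  have h1 : (fun t => A x (-Function.update p i t)) =
      fun t => (fun s => A x (Function.update (-p) i s)) (-t) := by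
    funext t
    congr 1
    ext j
    by_cases h : j = i
    · subst h
      simp
    · simp [h]
  rw [h1]
  exact deriv_comp_neg (fun s => A x (Function.update (-p) i s)) (p i)

theorem IsInt.ng {H : (Fin 2 → ℝ) → (Fin 2 → ℝ) → ℝ} (hH : ∀ x p, H x (-p) = H x p)
    {F : (Fin 2 → ℝ) → MvPolynomial (Fin 2) ℝ} (hF : IsInt H F) :
    IsInt H (fun x => ng (F x)) := by
  obtain ⟨h1, h2, ⟨N, hN⟩, h4⟩ := hF
  refine ⟨?_, fun x k => by
    show U4b.ng (F _) = _
    rw [h2], ⟨N, fun x => (totalDegree_lsub_le _ _).trans (hN x)⟩, fun x p => ?_⟩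
  · intro m
    simp only [coeff_ng]
    exact contDiff_const.mul (h1 m)
  · have h5 : PB H (fun x p => MvPolynomial.eval p (F x)) x (-p) = 0 := h4 x (-p)
    have hH' : (fun x p => H x (-p)) = H := by
      funext x p
      exact hH x p
    have h6 : ∀ i, dP H x p i = - dP H x (-p) i := by
      intro i
      have := dP_neg H x p i
      rwa [hH'] at this
    have h7 : ∀ i, dX H x (-p) i = dX H x p i := by
      intro i
      unfold dX
      simp only [hH]
    have h8 : (fun (x p : Fin 2 → ℝ) => MvPolynomial.eval p (U4b.ng (F x))) =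
        fun x p => (fun x p => MvPolynomial.eval p (F x)) x (-p) := by
      funext x p
      exact eval_ng _ _
    change PB H (fun x p => MvPolynomial.eval p (U4b.ng (F x))) x p = 0
    rw [h8]
    unfold PB at h5 ⊢
    simp only [h6]
    simp only [h7] at h5
    simp only [Fin.sum_univ_two] at h5 ⊢
    have h9 : ∀ i, dX (fun x p => MvPolynomial.eval (-p) (F x)) x p i =
        dX (fun x p => MvPolynomial.eval p (F x)) x (-p) i := fun i => rfl
    have h10 : ∀ i, dP (fun x p => MvPolynomial.eval (-p) (F x)) x p i =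
        - dP (fun x p => MvPolynomial.eval p (F x)) x (-p) i := fun i =>
      dP_neg (fun x p => MvPolynomial.eval p (F x)) x p i
    rw [h9, h9, h10, h10]
    linear_combination -h5

/-- The odd part. -/
noncomputable def opt (P : MvPolynomial (Fin 2) ℝ) : MvPolynomial (Fin 2) ℝ :=
  C (1 / 2) * P + C (-(1 / 2)) * ng P

theorem coeff_opt (P : MvPolynomial (Fin 2) ℝ) (m : Fin 2 →₀ ℕ) :
    (opt P).coeff m = if Odd (m 0 + m 1) then P.coeff m else 0 := by
  unfold opt
  rw [MvPolynomial.coeff_add, MvPolynomial.coeff_C_mul, MvPolynomial.coeff_C_mul, coeff_ng]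
  split_ifs with h
  · rw [h.neg_one_pow]
    ring
  · rw [Nat.not_odd_iff_even] at h
    rw [h.neg_one_pow]
    ring

theorem IsInt.opt {H : (Fin 2 → ℝ) → (Fin 2 → ℝ) → ℝ} (hH : ∀ x p, H x (-p) = H x p)
    {F : (Fin 2 → ℝ) → MvPolynomial (Fin 2) ℝ} (hF : IsInt H F) :
    IsInt H (fun x => opt (F x)) := hF.comb (hF.ng hH) _ _

theorem eval_opt_zero (P : MvPolynomial (Fin 2) ℝ) : MvPolynomial.eval 0 (opt P) = 0 := by
  unfold opt
  rw [map_add, map_mul, map_mul, eval_ng, neg_zero]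
  simp

theorem totalDegree_opt_le (P : MvPolynomial (Fin 2) ℝ) :
    (opt P).totalDegree ≤ P.totalDegree := by
  refine (MvPolynomial.totalDegree_add _ _).trans (max_le ?_ ?_)
  · refine (MvPolynomial.totalDegree_mul _ _).trans ?_
    rw [MvPolynomial.totalDegree_C, zero_add]
  · refine (MvPolynomial.totalDegree_mul _ _).trans ?_
    rw [MvPolynomial.totalDegree_C, zero_add]
    exact totalDegree_lsub_le _ _

theorem sum_eq_add (m : Fin 2 →₀ ℕ) : (m.sum fun _ e => e) = m 0 + m 1 := by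
  rw [Finsupp.sum_fintype _ _ (fun _ => rfl), Fin.sum_univ_two]

theorem totalDegree_opt {P : MvPolynomial (Fin 2) ℝ} {n : ℕ} (hP : P.totalDegree = n)
    (hn : Odd n) : (opt P).totalDegree = n := by
  apply le_antisymm
  · rw [← hP]
    exact totalDegree_opt_le P
  · have hne : P.support.Nonempty := by
      rw [Finset.nonempty_iff_ne_empty]
      intro h
      rw [MvPolynomial.support_eq_empty] at h
      rw [h, MvPolynomial.totalDegree_zero] at hP
      rw [← hP] at hn
      exact absurd hn (by decide)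
    obtain ⟨m, hm, hm2⟩ := Finset.exists_mem_eq_sup P.support hne
      (fun s => s.sum fun _ e => e)
    have h1 : m 0 + m 1 = n := by
      rw [← hP, MvPolynomial.totalDegree, hm2, sum_eq_add]
    have h2 : m ∈ (opt P).support := by
      rw [MvPolynomial.mem_support_iff, coeff_opt, h1, if_pos hn]
      exact MvPolynomial.mem_support_iff.1 hm
    have h3 := MvPolynomial.le_totalDegree h2
    rw [sum_eq_add, h1] at h3
    exact h3

/-- **From an integral of odd degree to an integral of even degree which is not a polynomial in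
`H`.** -/
theorem even_of_odd {H : (Fin 2 → ℝ) → (Fin 2 → ℝ) → ℝ} (hH : ∀ x p, H x (-p) = H x p)
    (hinf : Set.Infinite (Set.range fun x => H x 0))
    {F : (Fin 2 → ℝ) → MvPolynomial (Fin 2) ℝ} {n : ℕ} (hF : IsInt H F) (hn : Odd n)
    (hle : ∀ x, (F x).totalDegree ≤ n) (hat : ∃ x, (F x).totalDegree = n) :
    ∃ (F : (Fin 2 → ℝ) → MvPolynomial (Fin 2) ℝ) (n : ℕ), IsInt H F ∧ Even n ∧
      (∀ x, (F x).totalDegree ≤ n) ∧ (∃ x, (F x).totalDegree = n) ∧
      ¬ ∃ q : Polynomial ℝ, ∀ x p, MvPolynomial.eval p (F x) = q.eval (H x p) := by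
  obtain ⟨x0, hx0⟩ := hat
  have h0 : (opt (F x0)).totalDegree = n := totalDegree_opt hx0 hn
  have hne : opt (F x0) ≠ 0 := by
    intro h
    rw [h, MvPolynomial.totalDegree_zero] at h0
    rw [← h0] at hn
    exact absurd hn (by decide)
  refine ⟨fun x => opt (F x) * opt (F x), n + n, (hF.opt hH).mul (hF.opt hH), ⟨n, rfl⟩,
    fun x => (MvPolynomial.totalDegree_mul _ _).trans
      (add_le_add ((totalDegree_opt_le _).trans (hle x)) ((totalDegree_opt_le _).trans (hle x))),
    ⟨x0, ?_⟩, ?_⟩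
  · show (opt (F x0) * opt (F x0)).totalDegree = n + n
    rw [MvPolynomial.totalDegree_mul_of_isDomain hne hne, h0]
  · rintro ⟨q, hq⟩
    have hq0 : q = 0 := by
      refine Polynomial.eq_zero_of_infinite_isRoot q (hinf.mono ?_)
      rintro _ ⟨x, rfl⟩
      have := hq x 0
      rw [map_mul, eval_opt_zero, mul_zero] at this
      exact this.symm
    apply hne
    have h1 : opt (F x0) * opt (F x0) = 0 := by
      apply MvPolynomial.funext
      intro p
      have h2 := hq x0 p
      rw [hq0, Polynomial.eval_zero] at h2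
      rw [h2, map_zero]
    exact mul_self_eq_zero.1 h1

end Pool.Agent.U4b
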