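import Pool.Agent.W_4b1b5d_h3.IBP
import Pool.Agent.W_4b1b5d_h3.Grow

/-!
# Closed periodic 1-forms on the plane with continuous coefficients

`CForm a`: the form `a 0 dx_0 + a 1 dx_1` is continuous, `ℤ²`-periodic and has a `C¹` primitive on the
plane.  `mn a`: its mean over the unit cell.  `pairing`: `∫ a ∧ b = mn a ∧ mn b`.
-/

set_option autoImplicit false

open MeasureTheory Set Filter Topology
open Pool.W4b1b5d.H3

namespace Pool.W4b1b5d.H34

/-- The linear form with coefficients `c`. -/
noncomputable def cl (c : Fin 2 → ℂ) : V2 →L[ℝ] ℂ :=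
  ∑ i, (ContinuousLinearMap.proj (R := ℝ) (φ := fun _ : Fin 2 => ℝ) i).smulRight (c i)

theorem cl_apply (c : Fin 2 → ℂ) (v : V2) : cl c v = (v 0 : ℂ) * c 0 + (v 1 : ℂ) * c 1 := by
  simp [cl, Fin.sum_univ_two]

theorem cl_e0 (c : Fin 2 → ℂ) : cl c (Pi.single 0 1) = c 0 := by
  simp [cl_apply]

theorem cl_e1 (c : Fin 2 → ℂ) : cl c (Pi.single 1 1) = c 1 := by
  simp [cl_apply]

theorem cl_single (c : Fin 2 → ℂ) (i : Fin 2) : cl c (Pi.single i 1) = c i := by
  fin_cases i
  · exact cl_e0 c
  · exact cl_e1 c

theorem cl_sub (c d : Fin 2 → ℂ) : cl (c - d) = cl c - cl d := by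
  ext v
  simp [cl_apply]
  ring

theorem cl_cont : Continuous cl := by
  unfold cl
  refine continuous_finsetSum _ fun i _ => ?_
  have : Continuous fun c : Fin 2 → ℂ =>
      (ContinuousLinearMap.smulRightL ℝ V2 ℂ
        (ContinuousLinearMap.proj (R := ℝ) (φ := fun _ : Fin 2 => ℝ) i)) (c i) := by
    fun_prop
  exact this

/-- Every linear form is some `cl`. -/
theorem cl_of (L : V2 →L[ℝ] ℂ) : cl (fun i => L (Pi.single i 1)) = L := by
  ext v
  have h : v = v 0 • (Pi.single 0 1 : V2) + v 1 • Pi.single 1 1 := by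
    funext i
    fin_cases i <;> simp
  conv_rhs => rw [h]
  rw [cl_apply]
  simp

/-- A continuous periodic 1-form with a primitive on the plane. -/
structure CForm (a : V2 → Fin 2 → ℂ) : Prop where
  cont : Continuous a
  per : Per a
  prim : ∃ psi : V2 → ℂ, ∀ x, HasFDerivAt psi (cl (a x)) x

/-- The unit cell. -/
def cell : Set V2 := Icc 0 1

theorem cell_eq : (Icc (0 : V2) (fun i => (0 : V2) i + 1)) = cell := by
  unfold cell
  congr 1
  funext i
  simp

theorem cell_meas : MeasurableSet cell := measurableSet_Icc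

theorem cell_compact : IsCompact cell := isCompact_Icc

theorem cell_vol : volume.real cell = 1 := by
  unfold cell
  rw [Measure.real, Real.volume_Icc_pi]
  simp

theorem cont_intCell {E : Type*} [NormedAddCommGroup E] {f : V2 → E} (hf : Continuous f) :
    IntegrableOn f cell :=
  hf.continuousOn.integrableOn_compact cell_compact

/-- The mean of a form. -/
noncomputable def mn (a : V2 → Fin 2 → ℂ) : Fin 2 → ℂ := fun i => ∫ x in cell, a x i

/-- Periodicity from the two generators. -/
theorem per_of_gens {E : Type*} {f : V2 → E} (h0 : ∀ x, f (x + Pi.single 0 1) = f x)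
    (h1 : ∀ x, f (x + Pi.single 1 1) = f x) : Per f := by
  have key : ∀ (v : V2), (∀ x, f (x + v) = f x) → ∀ (n : ℤ) x, f (x + (n : ℝ) • v) = f x := by
    intro v hv n
    induction n using Int.induction_on with
    | zero => simp
    | succ k ih =>
      intro x
      have : x + (((k : ℤ) + 1 : ℤ) : ℝ) • v = (x + ((k : ℤ) : ℝ) • v) + v := by
        push_cast
        rw [add_smul, one_smul, add_assoc]
      rw [this, hv, ih]
    | pred k ih =>
      intro x
      have : x + ((-(k : ℤ) : ℤ) : ℝ) • v = (x + ((-(k : ℤ) - 1 : ℤ) : ℝ) • v) + v := by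
        push_cast
        rw [sub_smul, one_smul]
        abel
      rw [← hv, ← this, ih]
  intro x k
  have h : (fun i => ((k i : ℤ) : ℝ)) =
      ((k 0 : ℤ) : ℝ) • (Pi.single 0 1 : V2) + ((k 1 : ℤ) : ℝ) • Pi.single 1 1 := by
    funext i
    fin_cases i <;> simp
  rw [h, ← add_assoc, key _ h1, key _ h0]

theorem contDiff_of_prim {a : V2 → Fin 2 → ℂ} (hc : Continuous a) {psi : V2 → ℂ}
    (h : ∀ x, HasFDerivAt psi (cl (a x)) x) : ContDiff ℝ 1 psi := by
  rw [contDiff_one_iff_fderiv]
  refine ⟨fun x => (h x).differentiableAt, ?_⟩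
  have : fderiv ℝ psi = fun x => cl (a x) := funext fun x => (h x).fderiv
  rw [this]
  exact cl_cont.comp hc

theorem shift_fderiv {psi : V2 → ℂ} {L : V2 →L[ℝ] ℂ} {x : V2} (v : V2)
    (h : HasFDerivAt psi L (x + v)) : HasFDerivAt (fun y => psi (y + v)) L x := by
  have h1 := h.comp x ((hasFDerivAt_id x).add_const v)
  rw [ContinuousLinearMap.comp_id] at h1
  exact h1

/-- The periodic part of the primitive. -/
theorem CForm.exists_per {a : V2 → Fin 2 → ℂ} (h : CForm a) :
    ∃ P : V2 → ℂ, Per P ∧ Continuous P ∧ ∀ x, HasFDerivAt P (cl (a x - mn a)) x := by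
  obtain ⟨psi, hpsi⟩ := h.prim
  -- differences of psi are constant
  have hconst : ∀ i : Fin 2, ∃ c : ℂ, ∀ x, psi (x + Pi.single i 1) - psi x = c := by
    intro i
    have hd : ∀ x, HasFDerivAt (fun x => psi (x + Pi.single i 1) - psi x) (0 : V2 →L[ℝ] ℂ) x := by
      intro x
      have h1 : HasFDerivAt (fun x => psi (x + Pi.single i 1)) (cl (a (x + Pi.single i 1))) x :=
        shift_fderiv (Pi.single i 1) (hpsi _)
      have h2 := h1.sub (hpsi x)
      have h3 : a (x + Pi.single i 1) = a x := by
        have := h.per x (Pi.single i 1)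
        rw [← this]
        congr 2
        funext j
        by_cases hj : j = i
        · subst hj; simp
        · simp [hj]
      rw [h3, sub_self] at h2
      exact h2
    refine ⟨psi (0 + Pi.single i 1) - psi 0, fun x => ?_⟩
    exact is_const_of_fderiv_eq_zero (𝕜 := ℝ) (fun x => (hd x).differentiableAt)
      (fun x => (hd x).fderiv) x 0
  choose c hc using hconst
  have hLdef : ∀ i, cl c (Pi.single i 1) = c i := cl_single c
  -- P := psi - L
  have hP : ∀ x, HasFDerivAt (fun x => psi x - cl c x) (cl (a x) - cl c) x := fun x =>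
    (hpsi x).sub (cl c).hasFDerivAt
  have hPer : Per fun x => psi x - cl c x := by
    apply per_of_gens
    · intro x
      rw [map_add, hLdef 0, ← hc 0 x]
      ring
    · intro x
      rw [map_add, hLdef 1, ← hc 1 x]
      ring
  have hPC : ContDiff ℝ 1 fun x => psi x - cl c x :=
    (contDiff_of_prim h.cont hpsi).sub (cl c).contDiff
  have hmn : mn a = c := by
    funext i
    have h1 := IBP_x _ hPC hPer 0 (Pi.single i 1)
    rw [cell_eq] at h1
    have h2 : ∀ x, fderiv ℝ (fun x => psi x - cl c x) x (Pi.single i 1) = a x i - c i := by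
      intro x
      rw [(hP x).fderiv]
      simp [cl_single]
    simp only [h2] at h1
    rw [integral_sub (cont_intCell ((continuous_pi_iff.1 h.cont) i))
      (cont_intCell (f := fun _ => c i) continuous_const)] at h1
    rw [integral_const] at h1
    have h4 : (volume.restrict cell).real univ = 1 := by
      rw [measureReal_restrict_apply_univ, cell_vol]
    rw [h4, one_smul] at h1
    exact sub_eq_zero.1 h1
  refine ⟨fun x => psi x - cl c x, hPer, hPC.continuous, fun x => ?_⟩
  rw [hmn, cl_sub]
  exact hP x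

end Pool.W4b1b5d.H34
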