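import Pool.Agent.W_4b1b5d_h34.Form

/-!
# Closed forms: smooth curl free forms, differences, conjugates, uniform limits
-/

set_option autoImplicit false

open MeasureTheory Set Filter Topology
open Pool.W4b1b5d.H3

namespace Pool.W4b1b5d.H34

/-- `cl` as a continuous linear map. -/
noncomputable def clL : (Fin 2 → ℂ) →L[ℝ] (V2 →L[ℝ] ℂ) :=
  { toFun := cl
    map_add' := fun c d => by ext v; simp [cl_apply]; ring
    map_smul' := fun r c => by ext v; simp [cl_apply]; ring
    cont := cl_cont }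

theorem clL_apply (c : Fin 2 → ℂ) : clL c = cl c := rfl

theorem cl_norm (c : Fin 2 → ℂ) (v : V2) : ‖cl c v‖ ≤ 2 * ‖c‖ * ‖v‖ := by
  rw [cl_apply]
  have h0 := norm_le_pi_norm c 0
  have h1 := norm_le_pi_norm c 1
  have k0 := norm_le_pi_norm v 0
  have k1 := norm_le_pi_norm v 1
  calc ‖(v 0 : ℂ) * c 0 + (v 1 : ℂ) * c 1‖ ≤ ‖(v 0 : ℂ) * c 0‖ + ‖(v 1 : ℂ) * c 1‖ := norm_add_le _ _
    _ = ‖v 0‖ * ‖c 0‖ + ‖v 1‖ * ‖c 1‖ := by
        rw [norm_mul, norm_mul, Complex.norm_real, Complex.norm_real]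
    _ ≤ ‖v‖ * ‖c‖ + ‖v‖ * ‖c‖ := by gcongr
    _ = 2 * ‖c‖ * ‖v‖ := by ring

theorem CForm.sub {a b : V2 → Fin 2 → ℂ} (ha : CForm a) (hb : CForm b) :
    CForm fun x => a x - b x := by
  obtain ⟨psi, hpsi⟩ := ha.prim
  obtain ⟨phi, hphi⟩ := hb.prim
  refine ⟨ha.cont.sub hb.cont, fun x k => by simp only [ha.per x k, hb.per x k],
    fun x => psi x - phi x, fun x => ?_⟩
  rw [cl_sub]
  exact (hpsi x).sub (hphi x)

theorem CForm.conj {a : V2 → Fin 2 → ℂ} (ha : CForm a) :
    CForm fun x i => (starRingEnd ℂ) (a x i) := by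
  obtain ⟨psi, hpsi⟩ := ha.prim
  refine ⟨continuous_pi fun i => Complex.continuous_conj.comp ((continuous_pi_iff.1 ha.cont) i),
    fun x k => by simp only [ha.per x k], fun x => (starRingEnd ℂ) (psi x), fun x => ?_⟩
  have h1 := (Complex.conjCLE.toContinuousLinearMap.hasFDerivAt (x := psi x)).comp x (hpsi x)
  have h2 : Complex.conjCLE.toContinuousLinearMap.comp (cl (a x)) =
      cl (fun i => (starRingEnd ℂ) (a x i)) := by
    ext v
    simp [cl_apply]
  rw [h2] at h1
  exact h1

theorem mn_sub {a b : V2 → Fin 2 → ℂ} (ha : CForm a) (hb : CForm b) :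
    mn (fun x => a x - b x) = mn a - mn b := by
  funext i
  exact integral_sub (cont_intCell ((continuous_pi_iff.1 ha.cont) i))
    (cont_intCell ((continuous_pi_iff.1 hb.cont) i))

theorem mn_conj (a : V2 → Fin 2 → ℂ) :
    mn (fun x i => (starRingEnd ℂ) (a x i)) = fun i => (starRingEnd ℂ) (mn a i) := by
  funext i
  exact integral_conj

/-- A smooth curl free periodic form is a `CForm`. -/
theorem CForm.of_curl {a : V2 → Fin 2 → ℂ} (ha : Differentiable ℝ a) (hper : Per a)
    (hcurl : ∀ x, fderiv ℝ (fun y => a y 1) x (Pi.single 0 1) =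
      fderiv ℝ (fun y => a y 0) x (Pi.single 1 1)) : CForm a := by
  refine ⟨ha.continuous, hper, ?_⟩
  have hd : ∀ x, HasFDerivAt (fun y => cl (a y)) (clL.comp (fderiv ℝ a x)) x := fun x =>
    (clL.hasFDerivAt (x := a x)).comp x (ha x).hasFDerivAt
  have hco : ∀ x (i : Fin 2) (v : V2), fderiv ℝ a x v i = fderiv ℝ (fun y => a y i) x v := by
    intro x i v
    have h1 := (hasFDerivAt_pi'.1 (ha x).hasFDerivAt i).fderiv
    rw [h1]
    rfl
  obtain ⟨f, hf⟩ := convex_univ.exists_forall_hasFDerivAt_of_fderiv_symmetric isOpen_univ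
    (ω := fun y => cl (a y)) (fun x _ => (hd x).differentiableAt.differentiableWithinAt) (by
      intro x _ u v
      rw [(hd x).fderiv]
      simp only [ContinuousLinearMap.comp_apply, clL_apply]
      have hu : u = u 0 • (Pi.single 0 1 : V2) + u 1 • Pi.single 1 1 := by
        funext i
        fin_cases i <;> simp
      have hv : v = v 0 • (Pi.single 0 1 : V2) + v 1 • Pi.single 1 1 := by
        funext i
        fin_cases i <;> simp
      have e : ∀ u : V2, fderiv ℝ a x u = u 0 • fderiv ℝ a x (Pi.single 0 1) +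
          u 1 • fderiv ℝ a x (Pi.single 1 1) := by
        intro u
        have hu : u = u 0 • (Pi.single 0 1 : V2) + u 1 • Pi.single 1 1 := by
          funext i
          fin_cases i <;> simp
        conv_lhs => rw [hu]
        rw [map_add, map_smul, map_smul]
      rw [e u, e v, cl_apply, cl_apply]
      simp only [Pi.add_apply, Pi.smul_apply, hco]
      rw [hcurl x]
      simp only [Complex.real_smul]
      ring)
  exact ⟨f, fun x => hf x (mem_univ x)⟩

/-- Line integral over the segment from `x` to `y`. -/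
noncomputable def seg (a : V2 → Fin 2 → ℂ) (x y : V2) : ℂ :=
  ∫ s in (0 : ℝ)..1, cl (a (x + s • (y - x))) (y - x)

theorem seg_prim {a : V2 → Fin 2 → ℂ} (ha : Continuous a) {psi : V2 → ℂ}
    (h : ∀ x, HasFDerivAt psi (cl (a x)) x) (x y : V2) : seg a x y = psi y - psi x := by
  have h1 : ∀ s : ℝ, HasDerivAt (fun s : ℝ => psi (x + s • (y - x)))
      (cl (a (x + s • (y - x))) (y - x)) s := by
    intro s
    have h2 : HasDerivAt (fun s : ℝ => x + s • (y - x)) (y - x) s := by
      simpa using ((hasDerivAt_id s).smul_const (y - x)).const_add x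
    exact (h (x + s • (y - x))).comp_hasDerivAt s h2
  have hc : Continuous fun s : ℝ => cl (a (x + s • (y - x))) (y - x) :=
    (cl_cont.comp (ha.comp (by fun_prop))).clm_apply continuous_const
  unfold seg
  rw [intervalIntegral.integral_eq_sub_of_hasDerivAt (fun s _ => h1 s) (hc.intervalIntegrable _ _)]
  simp

theorem seg_sub {a b : V2 → Fin 2 → ℂ} (ha : Continuous a) (hb : Continuous b) (x y : V2) {ε : ℝ}
    (h : ∀ z, ‖a z - b z‖ ≤ ε) : ‖seg a x y - seg b x y‖ ≤ 2 * ε * ‖y - x‖ := by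
  have hc : ∀ {a : V2 → Fin 2 → ℂ}, Continuous a →
      Continuous fun s : ℝ => cl (a (x + s • (y - x))) (y - x) := fun ha =>
    (cl_cont.comp (ha.comp (by fun_prop))).clm_apply continuous_const
  unfold seg
  rw [← intervalIntegral.integral_sub ((hc ha).intervalIntegrable _ _)
    ((hc hb).intervalIntegrable _ _)]
  have := intervalIntegral.norm_integral_le_of_norm_le_const (a := (0 : ℝ)) (b := 1)
    (f := fun s : ℝ => cl (a (x + s • (y - x))) (y - x) - cl (b (x + s • (y - x))) (y - x))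
    (C := 2 * ε * ‖y - x‖) (fun s _ => by
      rw [← sub_apply, ← cl_sub]
      refine (cl_norm _ _).trans ?_
      gcongr
      exact h _)
  simpa using this

/-- `CForm` is closed under uniform limits. -/
theorem CForm.of_approx {a : V2 → Fin 2 → ℂ} (ha : Continuous a) (hper : Per a)
    (h : ∀ ε > 0, ∃ b, CForm b ∧ ∀ x, ‖a x - b x‖ ≤ ε) : CForm a := by
  refine ⟨ha, hper, fun x => seg a 0 x, fun x => ?_⟩
  -- additivity
  have hadd : ∀ x y, seg a 0 y - seg a 0 x = seg a x y := by
    intro x y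
    have key : ∀ ε > 0, ‖seg a 0 y - seg a 0 x - seg a x y‖ ≤
        ε * (2 * ‖y‖ + 2 * ‖x‖ + 2 * ‖y - x‖) := by
      intro ε hε
      obtain ⟨b, hb, hab⟩ := h ε hε
      obtain ⟨psi, hpsi⟩ := hb.prim
      have e1 := seg_sub ha hb.cont 0 y hab
      have e2 := seg_sub ha hb.cont 0 x hab
      have e3 := seg_sub ha hb.cont x y hab
      have e4 : seg b 0 y - seg b 0 x - seg b x y = 0 := by
        rw [seg_prim hb.cont hpsi, seg_prim hb.cont hpsi, seg_prim hb.cont hpsi]
        ring
      have e5 : seg a 0 y - seg a 0 x - seg a x y =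
          (seg a 0 y - seg b 0 y) - (seg a 0 x - seg b 0 x) - (seg a x y - seg b x y) := by
        linear_combination e4
      rw [e5]
      rw [sub_zero] at e1 e2
      calc _ ≤ ‖(seg a 0 y - seg b 0 y) - (seg a 0 x - seg b 0 x)‖ + ‖seg a x y - seg b x y‖ :=
            norm_sub_le _ _
        _ ≤ ‖seg a 0 y - seg b 0 y‖ + ‖seg a 0 x - seg b 0 x‖ + ‖seg a x y - seg b x y‖ := by
            gcongr
            exact norm_sub_le _ _
        _ ≤ 2 * ε * ‖y‖ + 2 * ε * ‖x‖ + 2 * ε * ‖y - x‖ := by gcongr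
        _ = ε * (2 * ‖y‖ + 2 * ‖x‖ + 2 * ‖y - x‖) := by ring
    by_contra hne
    have hpos : 0 < ‖seg a 0 y - seg a 0 x - seg a x y‖ := norm_pos_iff.2 (sub_ne_zero.2 hne)
    set N := ‖seg a 0 y - seg a 0 x - seg a x y‖ with hN
    set K := 2 * ‖y‖ + 2 * ‖x‖ + 2 * ‖y - x‖ with hK
    have hK0 : 0 ≤ K := by positivity
    have := key (N / (2 * (K + 1))) (by positivity)
    have h2 : N / (2 * (K + 1)) * K ≤ N / 2 := by
      rw [div_mul_eq_mul_div, div_le_div_iff₀ (by positivity) (by positivity)]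
      nlinarith
    linarith
  rw [hasFDerivAt_iff_isLittleO_nhds_zero, Asymptotics.isLittleO_iff]
  intro c hc
  have hcont := Metric.continuous_iff.1 ha x (c / 2) (by positivity)
  obtain ⟨δ, hδ, hδ2⟩ := hcont
  filter_upwards [Metric.ball_mem_nhds (0 : V2) hδ] with v hv
  rw [hadd, seg]
  have e1 : ∀ s : ℝ, cl (a (x + s • (x + v - x))) (x + v - x) = cl (a (x + s • v)) v := by
    intro s
    simp
  simp only [e1]
  have e2 : (∫ s in (0 : ℝ)..1, cl (a (x + s • v)) v) - cl (a x) v =
      ∫ s in (0 : ℝ)..1, (cl (a (x + s • v)) v - cl (a x) v) := by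
    rw [intervalIntegral.integral_sub]
    · simp
    · exact ((cl_cont.comp (ha.comp (by fun_prop))).clm_apply continuous_const).intervalIntegrable _ _
    · exact continuous_const.intervalIntegrable _ _
  rw [e2]
  have := intervalIntegral.norm_integral_le_of_norm_le_const (a := (0 : ℝ)) (b := 1)
    (f := fun s : ℝ => cl (a (x + s • v)) v - cl (a x) v) (C := c * ‖v‖) (fun s hs => by
      rw [← sub_apply, ← cl_sub]
      refine (cl_norm _ _).trans ?_
      have h1 : ‖a (x + s • v) - a x‖ ≤ c / 2 := by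
        rw [← dist_eq_norm]
        refine (hδ2 _ ?_).le
        rw [dist_eq_norm, add_sub_cancel_left, norm_smul]
        rw [uIoc_of_le zero_le_one] at hs
        have h3 : ‖s‖ ≤ 1 := by
          rw [Real.norm_eq_abs, abs_of_pos hs.1]
          exact hs.2
        have h4 : ‖v‖ < δ := by simpa using hv
        calc ‖s‖ * ‖v‖ ≤ 1 * ‖v‖ := by gcongr
          _ < δ := by rwa [one_mul]
      calc 2 * ‖a (x + s • v) - a x‖ * ‖v‖ ≤ 2 * (c / 2) * ‖v‖ := by gcongr
        _ = c * ‖v‖ := by ring)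
  simpa using this

end Pool.W4b1b5d.H34
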