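import Pool.Agent.W_4b1b5d_h34.Pair
import Pool.Agent.W_4b1b5d_h34.Form2

/-!
# Integrals over the cell depending on a parameter; vanishing integrals
-/

set_option autoImplicit false

open MeasureTheory Set Filter Topology
open Pool.W4b1b5d.H3

namespace Pool.W4b1b5d.H34

/-- The integral over the cell depends continuously on the parameter. -/
theorem cont_int {E : Type*} [NormedAddCommGroup E] [NormedSpace ℝ E] {F : V2 → ℂ → E}
    (hF : Continuous fun z : V2 × ℂ => F z.1 z.2) : Continuous fun v => ∫ x in cell, F x v := by
  have h1 : Continuous (Function.uncurry fun (v : ℂ) (x : V2) => F x v) :=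
    hF.comp (continuous_snd.prodMk continuous_fst)
  exact continuous_parametric_integral_of_continuous h1 cell_compact

/-- The integral over the cell is holomorphic in the parameter. -/
theorem hol_int {F : V2 → ℂ → ℂ} (hF : Continuous fun z : V2 × ℂ => F z.1 z.2) {O : Set ℂ}
    (hO : IsOpen O) (hd : ∀ x, ∀ v ∈ O, DifferentiableAt ℂ (F x) v) {v0 : ℂ} (hv0 : v0 ∈ O) :
    DifferentiableAt ℂ (fun v => ∫ x in cell, F x v) v0 := by
  obtain ⟨ρ, hρ, hρO⟩ := Metric.isOpen_iff.1 hO v0 hv0
  obtain ⟨M, hM⟩ := (cell_compact.prod (isCompact_closedBall v0 (ρ / 2))).exists_bound_of_continuousOn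
    hF.continuousOn
  have hmeas : Measurable fun x => deriv (F x) v0 := by
    have h1 := measurable_deriv_with_param (𝕜 := ℂ) (f := F) hF
    exact h1.comp (measurable_id.prodMk measurable_const)
  have hFx : ∀ v, Continuous fun x => F x v := fun v => hF.comp (Continuous.prodMk_left v)
  have := hasDerivAt_integral_of_dominated_loc_of_deriv_le (μ := volume.restrict cell)
    (F := fun v x => F x v) (F' := fun v x => deriv (F x) v) (x₀ := v0)
    (s := Metric.ball v0 (ρ / 4)) (bound := fun _ => |M| / (ρ / 4))
    (Metric.ball_mem_nhds v0 (by positivity))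
    (Eventually.of_forall fun v => (hFx v).aestronglyMeasurable)
    (cont_intCell (hFx v0)) hmeas.aestronglyMeasurable
    (by
      rw [ae_restrict_iff' cell_meas]
      refine Eventually.of_forall fun x hx v hv => ?_
      refine Complex.norm_deriv_le_of_forall_mem_sphere_norm_le (by positivity) ?_ ?_
      · have hdd : DifferentiableOn ℂ (F x) (Metric.closedBall v (ρ / 4)) := by
          intro w hw
          refine (hd x w (hρO ?_)).differentiableWithinAt
          rw [Metric.mem_ball] at hv ⊢
          rw [Metric.mem_closedBall] at hw
          linarith [dist_triangle w v v0]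
        have hcb : closure (Metric.ball v (ρ / 4)) = Metric.closedBall v (ρ / 4) :=
          closure_ball v (by positivity)
        exact DifferentiableOn.diffContOnCl (by rw [hcb]; exact hdd)
      · intro w hw
        refine (hM (x, w) ⟨hx, ?_⟩).trans (le_abs_self _)
        rw [Metric.mem_ball] at hv
        rw [Metric.mem_sphere] at hw
        rw [Metric.mem_closedBall]
        linarith [dist_triangle w v v0])
    (cont_intCell continuous_const)
    (Eventually.of_forall fun x v hv => by
      refine (hd x v (hρO ?_)).hasDerivAt
      rw [Metric.mem_ball] at hv ⊢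
      linarith)
  exact this.2.differentiableAt

/-- A nonnegative continuous periodic function with zero integral over the cell is zero. -/
theorem zero_of_int {f : V2 → ℝ} (hf : Continuous f) (hper : Per f) (h0 : ∀ x, 0 ≤ f x)
    (hint : ∫ x in cell, f x = 0) (x : V2) : f x = 0 := by
  have h1 : f =ᵐ[volume.restrict cell] 0 :=
    (integral_eq_zero_iff_of_nonneg h0 (cont_intCell hf)).1 hint
  have hcell : cell ⊆ closure (interior cell) := by
    have hne : (interior cell).Nonempty := by
      refine ⟨fun _ => 1 / 2, ?_⟩
      unfold cell
      rw [← Set.pi_univ_Icc, interior_pi_set Set.finite_univ]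
      intro i _
      simp only [Pi.zero_apply, Pi.one_apply, interior_Icc, mem_Ioo]
      constructor <;> norm_num
    have hconv : Convex ℝ cell := convex_Icc 0 1
    rw [hconv.closure_interior_eq_closure_of_nonempty_interior hne]
    exact subset_closure
  have h2 : EqOn f 0 cell := Measure.eqOn_of_ae_eq h1 hf.continuousOn continuousOn_const hcell
  rw [← hper x (fun i => -⌊x i⌋)]
  refine h2 ⟨fun i => ?_, fun i => ?_⟩
  · simp only [Pi.zero_apply, Pi.add_apply, Int.cast_neg]
    linarith [Int.floor_le (x i)]
  · simp only [Pi.one_apply, Pi.add_apply, Int.cast_neg]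
    linarith [Int.lt_floor_add_one (x i)]

end Pool.W4b1b5d.H34
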