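import Pool.Agent.W_4b1b5d_h34.Wave
import Pool.Agent.W_4b1b5d_h3.ToID

/-!
# Quadratic integrals: the constant `k` and the second order equations
-/

set_option autoImplicit false

open scoped ContDiff

namespace Pool.W4b1b5d.H34

open Pool.W4b1b5d.H3

/-- Equality of the mixed derivatives for a system of Cauchy-Riemann type. -/
theorem hess (a b : V2) (m1 m2 : ℝ) {y r : V2 → ℝ} (hy : ContDiff ℝ (⊤ : ℕ∞) y)
    (hr : ContDiff ℝ (⊤ : ℕ∞) r)
    (h1 : ∀ x, Lines_D a y x = m1 * Lines_D a r x - m2 * Lines_D b r x)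
    (h2 : ∀ x, Lines_D b y x = -(m2 * Lines_D a r x + m1 * Lines_D b r x)) (x : V2) :
    m2 * (Lines_D a (Lines_D a r) x - Lines_D b (Lines_D b r) x) +
      2 * m1 * Lines_D a (Lines_D b r) x = 0 := by
  have ha := Lines_D_smooth a hr
  have hb := Lines_D_smooth b hr
  have e1 : Lines_D a y = fun x => m1 * Lines_D a r x + (-m2) * Lines_D b r x := by
    funext x
    rw [h1]
    ring
  have e2 : Lines_D b y = fun x => (-m2) * Lines_D a r x + (-m1) * Lines_D b r x := by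
    funext x
    rw [h2]
    ring
  have h3 := Lines_D_comm a b hy x
  rw [e1, e2, Lines_D_comb _ _ _ ha hb, Lines_D_comb _ _ _ ha hb, Lines_D_comm b a hr] at h3
  linear_combination -h3

/-- Change of the frame. -/
theorem frame (a b : V2) (l1 l2 m1 m2 : ℝ) {r : V2 → ℝ} (hr : ContDiff ℝ (⊤ : ℕ∞) r)
    (h : ∀ x, m2 * (Lines_D a (Lines_D a r) x - Lines_D b (Lines_D b r) x) +
      2 * m1 * Lines_D a (Lines_D b r) x = 0) (e f : V2)
    (he : ∀ i, e i = 2 * (l1 * a i - l2 * b i)) (hf : ∀ i, f i = 2 * (l1 * b i + l2 * a i))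
    (x : V2) :
    (m2 * (l1 ^ 2 - l2 ^ 2) - 2 * m1 * l1 * l2) *
      (Lines_D e (Lines_D e r) x - Lines_D f (Lines_D f r) x) +
      2 * (m1 * (l1 ^ 2 - l2 ^ 2) + 2 * m2 * l1 * l2) * Lines_D e (Lines_D f r) x = 0 := by
  have h1 := h x
  rw [Lines_second a a hr, Lines_second b b hr, Lines_second a b hr] at h1
  rw [Lines_second e e hr, Lines_second f f hr, Lines_second e f hr, he, he, hf, hf]
  linear_combination 4 * (l1 ^ 2 + l2 ^ 2) ^ 2 * h1

/-- real and imaginary parts of a complex vector -/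
def reV (al : Fin 2 → ℂ) : V2 := fun i => (al i).re
def imV (al : Fin 2 → ℂ) : V2 := fun i => (al i).im

theorem ddr_reim (al : Fin 2 → ℂ) {g : V2 → ℝ} (hg : ContDiff ℝ (⊤ : ℕ∞) g) (x : V2) :
    ddr al g x = (Lines_D (reV al) g x : ℂ) + Complex.I * (Lines_D (imV al) g x : ℂ) := by
  rw [ddr_eq al ((Lines_diff hg) x), Lines_D_lin, Lines_D_lin]
  unfold reV imV
  apply Complex.ext
  · simp
  · simp

/-- From `db y = m dd r` (`y`, `r` real). -/
theorem cr_real (al : Fin 2 → ℂ) (m : ℂ) {y r : V2 → ℝ} (hy : ContDiff ℝ (⊤ : ℕ∞) y)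
    (hr : ContDiff ℝ (⊤ : ℕ∞) r) (h : ∀ x, ddr (cj al) y x = m * ddr al r x) (x : V2) :
    m.im * (Lines_D (reV al) (Lines_D (reV al) r) x - Lines_D (imV al) (Lines_D (imV al) r) x) +
      2 * m.re * Lines_D (reV al) (Lines_D (imV al) r) x = 0 := by
  have h0 : ∀ x, (Lines_D (reV al) y x : ℂ) - Complex.I * (Lines_D (imV al) y x : ℂ) =
      m * ((Lines_D (reV al) r x : ℂ) + Complex.I * (Lines_D (imV al) r x : ℂ)) := by
    intro x
    rw [← ddr_reim al hr, ← h, ddr_conj al ((Lines_diff hy) x), ddr_reim al hy]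
    simp
    ring
  apply hess (reV al) (imV al) m.re m.im hy hr
  · intro x
    have := congrArg Complex.re (h0 x)
    simp at this
    linarith
  · intro x
    have := congrArg Complex.im (h0 x)
    simp at this
    linarith

/-- The coefficients of a quadratic integral. -/
theorem quad_ID (I : ID) (hn : I.n = 2) (ρ : V2 → ℝ) (hρd : ρ = fun y => (I.mu y)⁻¹) :
    ∃ k : ℂ, (∀ x, I.f 2 0 x = k) ∧
      (k = 0 → ∃ y0 y1 : ℝ, ∀ x, I.f 1 1 x = ((y1 * I.mu x : ℝ) : ℂ) ∧
        I.f 0 0 x = ((y1 * I.U x + y0 : ℝ) : ℂ)) ∧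
      (∀ x, (-2 * k).im * (Lines_D (reV I.al) (Lines_D (reV I.al) ρ) x -
        Lines_D (imV I.al) (Lines_D (imV I.al) ρ) x) +
        2 * (-2 * k).re * Lines_D (reV I.al) (Lines_D (imV I.al) ρ) x = 0) ∧
      (∀ x, (2 * k).im * (Lines_D (reV I.al) (Lines_D (reV I.al) (fun y => ρ y * I.U y)) x -
        Lines_D (imV I.al) (Lines_D (imV I.al) (fun y => ρ y * I.U y)) x) +
        2 * (2 * k).re * Lines_D (reV I.al) (Lines_D (imV I.al) (fun y => ρ y * I.U y)) x = 0) := by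
  have hρ : ContDiff ℝ (⊤ : ℕ∞) ρ := by
    rw [hρd]
    exact I.musm.inv fun x => (I.mupos x).ne'
  have hρ0 : ∀ x, 0 < ρ x := fun x => by
    rw [hρd]
    exact inv_pos.2 (I.mupos x)
  have hρmu : ∀ x, ρ x * I.mu x = 1 := fun x => by
    rw [hρd]
    exact inv_mul_cancel₀ (I.mupos x).ne'
  have hρper : Per ρ := by
    intro x k
    rw [hρd]
    show (I.mu _)⁻¹ = (I.mu x)⁻¹
    rw [I.muper x k]
  have zneg : ∀ a b : ℤ, b < 0 → I.f a b = fun _ => 0 := fun a b hb =>
    funext fun x => I.f_neg' a b x hb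
  have zbig : ∀ a b : ℤ, 2 < a + b → I.f a b = fun _ => 0 := fun a b hab =>
    funext fun x => I.f_big a b x (by rw [hn]; exact_mod_cast hab)
  have hmuc : ∀ x, (I.mu x : ℂ) ≠ 0 := fun x => by
    have := (I.mupos x).ne'
    exact_mod_cast this
  -- `k` is constant
  have hk0 : ∀ x, dd (cj I.al) (I.f 2 0) x = 0 := by
    intro x
    have h := I.eqn 3 0 x
    rw [show (0 : ℤ) - 1 = -1 by norm_num, show (3 : ℤ) - 1 = 2 by norm_num,
      show (3 : ℤ) + 1 = 4 by norm_num, show (0 : ℤ) + 1 = 1 by norm_num,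
      zneg 3 (-1) (by norm_num), zbig 4 0 (by norm_num), zbig 3 1 (by norm_num),
      BetaA_const] at h
    have h2 : (I.mu x : ℂ) * dd (cj I.al) (I.f 2 0) x = 0 := by
      push_cast at h
      linear_combination h
    exact (mul_eq_zero.1 h2).resolve_left (hmuc x)
  obtain ⟨k, hk⟩ := liou I.al I.hal (I.f 2 0) (I.fsm 2 0) (I.fper 2 0) hk0
  have hkf : I.f 2 0 = fun _ => k := funext hk
  -- the real functions
  obtain ⟨w, hw⟩ : ∃ w : V2 → ℝ, w = fun x => (I.f 1 1 x).re := ⟨_, rfl⟩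
  obtain ⟨c0, hc0⟩ : ∃ c0 : V2 → ℝ, c0 = fun x => (I.f 0 0 x).re := ⟨_, rfl⟩
  have hwf : I.f 1 1 = fun x => (w x : ℂ) := by
    funext x
    rw [hw]
    exact (Complex.conj_eq_iff_re.1 (I.conj 1 1 x).symm).symm
  have hcf : I.f 0 0 = fun x => (c0 x : ℂ) := by
    funext x
    rw [hc0]
    exact (Complex.conj_eq_iff_re.1 (I.conj 0 0 x).symm).symm
  have hwsm : ContDiff ℝ (⊤ : ℕ∞) w := by
    rw [hw]
    exact Complex.reCLM.contDiff.comp (I.fsm 1 1)
  have hcsm : ContDiff ℝ (⊤ : ℕ∞) c0 := by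
    rw [hc0]
    exact Complex.reCLM.contDiff.comp (I.fsm 0 0)
  have hwper : Per w := by
    intro x k
    rw [hw]
    show (I.f 1 1 _).re = _
    rw [I.fper 1 1 x k]
  have hcper : Per c0 := by
    intro x k
    rw [hc0]
    show (I.f 0 0 _).re = _
    rw [I.fper 0 0 x k]
  -- equation for `w`
  have e1 : ∀ x, (I.mu x : ℂ) * ddr (cj I.al) w x =
      2 * k * ddr I.al I.mu x + ddr (cj I.al) I.mu x * (w x : ℂ) := by
    intro x
    have h := I.eqn 2 1 x
    rw [show (1 : ℤ) - 1 = 0 by norm_num, show (2 : ℤ) - 1 = 1 by norm_num,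
      show (2 : ℤ) + 1 = 3 by norm_num, show (1 : ℤ) + 1 = 2 by norm_num,
      zbig 3 1 (by norm_num), zbig 2 2 (by norm_num), hkf, BetaA_const, hwf] at h
    push_cast at h
    unfold ddr at h ⊢
    linear_combination h
  have e2 : ∀ x, (I.mu x : ℂ) * ddr (cj I.al) c0 x =
      2 * k * ddr I.al I.U x + ddr (cj I.al) I.U x * (w x : ℂ) := by
    intro x
    have h := I.eqn 1 0 x
    rw [show (0 : ℤ) - 1 = -1 by norm_num, show (1 : ℤ) - 1 = 0 by norm_num,
      show (1 : ℤ) + 1 = 2 by norm_num, show (0 : ℤ) + 1 = 1 by norm_num,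
      zneg 1 (-1) (by norm_num), hkf, BetaA_const, hwf, hcf] at h
    push_cast at h
    unfold ddr at h ⊢
    linear_combination h
  -- product rule for real functions
  have dmul : ∀ (a : Fin 2 → ℂ) {f g : V2 → ℝ}, ContDiff ℝ (⊤ : ℕ∞) f →
      ContDiff ℝ (⊤ : ℕ∞) g → ∀ x, ddr a (fun y => f y * g y) x =
        ddr a f x * (g x : ℂ) + (f x : ℂ) * ddr a g x := by
    intro a f g hf hg x
    have h := dd_mul a (BetaA_diff hf x) (BetaA_diff hg x)
    unfold ddr
    rw [← h]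
    congr 1
    funext y
    push_cast
    rfl
  have dρ : ∀ (a : Fin 2 → ℂ) (x : V2), ddr a ρ x * (I.mu x : ℂ) = -((ρ x : ℂ) * ddr a I.mu x) := by
    intro a x
    have h := dmul a hρ I.musm x
    have h2 : (fun y => ρ y * I.mu y) = fun _ => (1 : ℝ) := funext hρmu
    have h3 : ddr a (fun _ : V2 => (1 : ℝ)) x = 0 := by
      unfold ddr
      rw [BetaA_const]
    rw [h2, h3] at h
    linear_combination -h
  have hρmuc : ∀ x, (ρ x : ℂ) * (I.mu x : ℂ) = 1 := fun x => by
    rw [← Complex.ofReal_mul, hρmu, Complex.ofReal_one]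
  obtain ⟨y, hy⟩ : ∃ y : V2 → ℝ, y = fun x => ρ x * w x := ⟨_, rfl⟩
  have hysm : ContDiff ℝ (⊤ : ℕ∞) y := by
    rw [hy]
    exact hρ.mul hwsm
  have hyeq : ∀ x, ddr (cj I.al) y x = (-2 * k) * ddr I.al ρ x := by
    intro x
    apply mul_right_cancel₀ (hmuc x)
    rw [hy, dmul _ hρ hwsm]
    linear_combination (ρ x : ℂ) * e1 x + (w x : ℂ) * dρ (cj I.al) x + 2 * k * dρ I.al x
  obtain ⟨y0, hy0⟩ : ∃ y0 : V2 → ℝ, y0 = fun x => c0 x + (-1) * (y x * I.U x) := ⟨_, rfl⟩
  have hy0sm : ContDiff ℝ (⊤ : ℕ∞) y0 := by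
    rw [hy0]
    exact hcsm.add (contDiff_const.mul (hysm.mul I.Usm))
  have hy0eq : ∀ x, ddr (cj I.al) y0 x = (2 * k) * ddr I.al (fun y => ρ y * I.U y) x := by
    intro x
    have h3 : ddr (cj I.al) y0 x = ddr (cj I.al) c0 x - ddr (cj I.al) (fun x => y x * I.U x) x := by
      have hd1 := (Lines_diff hcsm) x
      have hd2 := (Lines_diff (hysm.mul I.Usm)) x
      have hd3 := (Lines_diff hy0sm) x
      rw [ddr_eq _ hd1, ddr_eq _ hd2, ddr_eq _ hd3]
      have h4 : ∀ i, pd i y0 x = pd i c0 x - pd i (fun x => y x * I.U x) x := by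
        intro i
        rw [Lines_pd_eq, Lines_pd_eq, Lines_pd_eq]
        have h5 := Lines_D_comb (Pi.single i 1) 1 (-1) hcsm
          (g := fun x => y x * I.U x) (hysm.mul I.Usm) x
        have h6 : (fun z => 1 * c0 z + -1 * (y z * I.U z)) = y0 := by
          rw [hy0]
          funext z
          ring
        rw [h6] at h5
        rw [h5]
        ring
      rw [h4, h4]
      push_cast
      ring
    apply mul_right_cancel₀ (hmuc x)
    rw [h3, dmul _ hysm I.Usm, dmul _ hρ I.Usm, hyeq]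
    have h7 : (y x : ℂ) * (I.mu x : ℂ) = (w x : ℂ) := by
      rw [hy]
      push_cast
      linear_combination (w x : ℂ) * hρmuc x
    linear_combination e2 x - ddr (cj I.al) I.U x * h7 - 2 * k * ddr I.al I.U x * hρmuc x
  refine ⟨k, hk, ?_, ?_, ?_⟩
  · intro hk0
    have hyper : Per y := by
      intro x k
      rw [hy]
      show ρ _ * w _ = _
      rw [hρper x k, hwper x k]
    have hy0per : Per y0 := by
      intro x k
      rw [hy0]
      show c0 _ + (-1) * (y _ * I.U _) = _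
      rw [hcper x k, hyper x k, I.Uper x k]
    have cst : ∀ g : V2 → ℝ, ContDiff ℝ (⊤ : ℕ∞) g → Per g → (∀ x, ddr (cj I.al) g x = 0) →
        ∃ c : ℝ, ∀ x, g x = c := by
      intro g hg hgper hg0
      obtain ⟨c, hc⟩ := liou I.al I.hal (fun x => (g x : ℂ)) (Complex.ofRealCLM.contDiff.comp hg)
        (fun x k => by
          show ((g _ : ℝ) : ℂ) = _
          rw [hgper x k]) hg0
      refine ⟨c.re, fun x => ?_⟩
      have := congrArg Complex.re (hc x)
      simpa using this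
    obtain ⟨y1, hy1⟩ := cst y hysm hyper fun x => by
      rw [hyeq, hk0]
      ring
    obtain ⟨y2, hy2⟩ := cst y0 hy0sm hy0per fun x => by
      rw [hy0eq, hk0]
      ring
    refine ⟨y2, y1, fun x => ⟨?_, ?_⟩⟩
    · rw [hwf]
      show ((w x : ℝ) : ℂ) = _
      congr 1
      have h5 := hy1 x
      rw [hy] at h5
      simp only at h5
      rw [← h5]
      linear_combination (-w x) * hρmu x
    · rw [hcf]
      show ((c0 x : ℝ) : ℂ) = _
      congr 1
      have h5 := hy2 x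
      rw [hy0] at h5
      simp only at h5
      rw [hy1 x] at h5
      linarith
  · exact cr_real I.al (-2 * k) hysm hρ hyeq
  · exact cr_real I.al (2 * k) hy0sm (hρ.mul I.Usm) hy0eq

end Pool.W4b1b5d.H34
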