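import Pool.Agent.W_4b1b5d_h34.OddPart
import Pool.Agent.W_4b1b5d_h34.Quad
import Pool.Agent.W_4b1b5d_h3.Final

/-!
# Part (i) of the frozen statement follows from part (ii)
-/

set_option autoImplicit false

open MvPolynomial
open scoped ContDiff

namespace Pool.W4b1b5d.H34

open Pool.W4b1b5d.H3 Pool.Agent.U4b

/-- The data `ID` of an integral of degree at most `n`. -/
theorem mkID (G : Matrix (Fin 2) (Fin 2) ℝ) (hG : G.PosDef) (mu U : V2 → ℝ)
    (hmu0 : ∀ x, 0 < mu x)
    (hmu : ContDiff ℝ (⊤ : ℕ∞) mu) (hU : ContDiff ℝ (⊤ : ℕ∞) U) (hmuper : Per mu) (hUper : Per U)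
    (H : V2 → V2 → ℝ)
    (hH : ∀ x p, H x p = (1 / 2 : ℝ) * ∑ i, ∑ j, (mu x * G i j) * p i * p j + U x)
    (F : V2 → RP) (hF : ∀ m, ContDiff ℝ (⊤ : ℕ∞) (fun x => (F x).coeff m)) (hFper : Per F)
    (n : ℕ) (hdeg : ∀ x, (F x).totalDegree ≤ n)
    (hbr : ∀ x p : V2, ∑ i : Fin 2,
          (deriv (fun t => H x (Function.update p i t)) (p i) *
              deriv (fun t => MvPolynomial.eval p (F (Function.update x i t))) (x i) -
            deriv (fun t => H (Function.update x i t) p) (x i) *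
              deriv (fun t => MvPolynomial.eval (Function.update p i t) (F x)) (p i)) = 0)
    (al om : Fin 2 → ℂ) (hal0 : ((starRingEnd ℂ) (al 0) * al 1).im ≠ 0)
    (hal : ∀ i j, ((G i j : ℝ) : ℂ)
      = al i * (starRingEnd ℂ) (al j) + al j * (starRingEnd ℂ) (al i))
    (h1 : ∑ i, al i * om i = 1) (h2 : ∑ i, (starRingEnd ℂ) (al i) * om i = 0)
    (h3 : ∀ i j, om i * al j + (starRingEnd ℂ) (om i * al j) = if i = j then 1 else 0) :
    ∃ I : ID, I.al = al ∧ I.n = n ∧ I.U = U ∧ I.mu = mu ∧ I.f = fco om n F := by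
  refine ⟨{
    al := al
    hal := hal0
    n := n
    mu := mu
    U := U
    f := fco om n F
    mupos := hmu0
    musm := hmu
    Usm := hU
    muper := hmuper
    Uper := hUper
    fsm := fco_smooth om n F hF hdeg
    fper := ?_
    f_neg := ?_
    f_neg' := ?_
    f_big := ?_
    conj := ?_
    par := ?_
    eqn := fco_eqn G hG mu U hmu hU H hH F hF n hdeg hbr al om hal h1 h2 h3 }, rfl, rfl, rfl, rfl,
      rfl⟩
  · intro a b x k
    unfold fco
    rw [hFper x k]
  · intro a b x ha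
    rw [ToID_fco_zero om n F a b fun h => by omega]
  · intro a b x hb
    rw [ToID_fco_zero om n F a b fun h => by omega]
  · intro a b x hab
    unfold fco
    split_ifs with h
    · exact Ph_degree om (F x) n (hdeg x) _ _ (by omega)
    · rfl
  · intro a b x
    unfold fco
    by_cases h : 0 ≤ a ∧ 0 ≤ b ∧ Even (a + b + n)
    · rw [if_pos h, if_pos ⟨h.2.1, h.1, by rw [add_comm b a]; exact h.2.2⟩]
      exact Ph_conj om (F x) _ _
    · rw [if_neg h, if_neg fun h' => h ⟨h'.2.1, h'.1, by rw [add_comm a b]; exact h'.2.2⟩,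
        map_zero]
  · intro a b x hab
    rw [ToID_fco_zero om n F a b fun h => by
      have h4 := h.2.2
      rw [← Int.not_odd_iff_even] at h4
      exact h4 (by exact_mod_cast hab)]

/-- A polynomial of degree at most `2` without odd part whose coefficients of `P²`, `Q²` vanish. -/
theorem rebuild (G : Matrix (Fin 2) (Fin 2) ℝ) (al om : Fin 2 → ℂ)
    (hal : ∀ i j, ((G i j : ℝ) : ℂ)
      = al i * (starRingEnd ℂ) (al j) + al j * (starRingEnd ℂ) (al i))
    (h1 : ∑ i, al i * om i = 1) (h2 : ∑ i, (starRingEnd ℂ) (al i) * om i = 0)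
    (h3 : ∀ i j, om i * al j + (starRingEnd ℂ) (om i * al j) = if i = j then 1 else 0)
    (P : RP) (hdeg : P.totalDegree ≤ 2) (hodd : ∀ m : Fin 2 →₀ ℕ, Odd (m 0 + m 1) → P.coeff m = 0)
    (c d : ℝ) (h20 : (Ph om P).coeff (mk2 2 0) = 0) (h11 : (Ph om P).coeff (mk2 1 1) = (c : ℂ))
    (h00 : (Ph om P).coeff (mk2 0 0) = (d : ℂ)) :
    P = C c * (C (1 / 2) * ∑ i, ∑ j, C (G i j) * X i * X j) + C d := by
  apply Subst_injective al om h3
  rw [map_add, map_mul, Ph_quad G al om hal h1 h2, Subst_C, Subst_C]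
  have h02 : (Ph om P).coeff (mk2 0 2) = 0 := by
    rw [Ph_conj om P 2 0, h20, map_zero]
  have hR : (C (c : ℂ) * (X 0 * X 1) + C (d : ℂ) : CP) =
      monomial (mk2 1 1) (c : ℂ) + monomial (mk2 0 0) (d : ℂ) := by
    have e1 : (X 0 * X 1 : CP) = monomial (mk2 1 1) 1 := by
      unfold mk2
      rw [X, X, monomial_mul, one_mul]
    have e2 : mk2 0 0 = 0 := by
      unfold mk2
      simp
    rw [e1, C_mul_monomial, mul_one, e2]
    rfl
  rw [hR]
  ext m
  rw [RealId_eq_mk2 m]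
  obtain ⟨a, ha⟩ : ∃ a, a = m 0 := ⟨_, rfl⟩
  obtain ⟨b, hb⟩ : ∃ b, b = m 1 := ⟨_, rfl⟩
  rw [← ha, ← hb]
  have hne : ∀ a' b' : ℕ, (a', b') ≠ (a, b) → mk2 a' b' ≠ mk2 a b := by
    intro a' b' h h'
    obtain ⟨h4, h5⟩ := RealId_mk2_inj h'
    exact h (by rw [h4, h5])
  rw [coeff_add, coeff_monomial, coeff_monomial]
  rcases Nat.lt_or_ge 2 (a + b) with hab | hab
  · rw [Ph_degree om P 2 hdeg a b hab, if_neg, if_neg, add_zero]
    · apply hne
      intro h
      simp only [Prod.mk.injEq] at h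
      omega
    · apply hne
      intro h
      simp only [Prod.mk.injEq] at h
      omega
  · by_cases hpar : a + b = 1
    · have e3 : (Ph om P).coeff (mk2 a b) = 0 := by
        rw [Subst_coeff, Subst_mk2_degree, hpar]
        have e4 : homogeneousComponent 1 P = 0 := by
          ext m'
          rw [coeff_homogeneousComponent, coeff_zero]
          split_ifs with h
          · apply hodd
            rw [← Fin.sum_univ_two (f := fun i => m' i)]
            rw [Finsupp.degree_eq_sum] at h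
            rw [h]
            exact odd_one
          · rfl
        rw [e4, map_zero, coeff_zero]
      rw [e3, if_neg, if_neg, add_zero]
      · apply hne
        intro h
        simp only [Prod.mk.injEq] at h
        omega
      · apply hne
        intro h
        simp only [Prod.mk.injEq] at h
        omega
    · have h4 : (a = 0 ∧ b = 0) ∨ (a = 2 ∧ b = 0) ∨ (a = 0 ∧ b = 2) ∨ (a = 1 ∧ b = 1) := by omega
      rcases h4 with ⟨rfl, rfl⟩ | ⟨rfl, rfl⟩ | ⟨rfl, rfl⟩ | ⟨rfl, rfl⟩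
      · rw [h00, if_neg (hne 1 1 (by simp)), if_pos rfl, zero_add]
      · rw [h20, if_neg (hne 1 1 (by simp)), if_neg (hne 0 0 (by simp)), zero_add]
      · rw [h02, if_neg (hne 1 1 (by simp)), if_neg (hne 0 0 (by simp)), zero_add]
      · rw [h11, if_pos rfl, if_neg (hne 0 0 (by simp)), add_zero]

theorem opt_degree_le {P : RP} (h : P.totalDegree ≤ 2) : (opt P).totalDegree ≤ 1 := by
  rw [MvPolynomial.totalDegree]
  apply Finset.sup_le
  intro m hm
  rw [sum_eq_add]
  have h1 : (opt P).coeff m ≠ 0 := MvPolynomial.mem_support_iff.1 hm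
  have h2 := (MvPolynomial.le_totalDegree hm).trans ((totalDegree_opt_le P).trans h)
  rw [sum_eq_add] at h2
  rw [coeff_opt] at h1
  have h3 : Odd (m 0 + m 1) := by
    by_contra h4
    rw [if_neg h4] at h1
    exact h1 rfl
  obtain ⟨k, hk⟩ := h3
  omega

theorem opt_degree_ge {P : RP} (h : opt P ≠ 0) : 1 ≤ (opt P).totalDegree := by
  obtain ⟨m, hm⟩ := MvPolynomial.exists_coeff_ne_zero h
  have h2 := MvPolynomial.le_totalDegree (MvPolynomial.mem_support_iff.2 hm)
  rw [sum_eq_add] at h2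
  rw [coeff_opt] at hm
  have h3 : Odd (m 0 + m 1) := by
    by_contra h4
    rw [if_neg h4] at hm
    exact hm rfl
  exact le_trans h3.pos h2

theorem span_of (al : Fin 2 → ℂ) (hal : ((starRingEnd ℂ) (al 0) * al 1).im ≠ 0) (lam : ℂ)
    (hlam : lam ≠ 0) (v : V2) :
    ∃ s t : ℝ, v = s • (fun i => 2 * (lam.re * (al i).re - lam.im * (al i).im) : V2) +
      t • (fun i => 2 * (lam.re * (al i).im + lam.im * (al i).re) : V2) := by
  obtain ⟨nu, hnu, -⟩ := dir_decomp al hal v
  refine ⟨(nu / lam).re, -(nu / lam).im, ?_⟩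
  obtain ⟨z, hz⟩ : ∃ z : ℂ, z = nu / lam := ⟨_, rfl⟩
  have hz' : nu = z * lam := by
    rw [hz]
    field_simp
  rw [← hz]
  funext i
  have h1 := congrArg Complex.re (hnu i)
  rw [Complex.add_conj, Complex.ofReal_re, Complex.ofReal_re, hz'] at h1
  simp only [Pi.add_apply, Pi.smul_apply, smul_eq_mul]
  rw [h1]
  simp only [Complex.mul_re, Complex.mul_im]
  ring

/-- **Part (i) of the frozen statement follows from part (ii)** (for `μ(x) • G`). -/
theorem isoI_of_isoII (hII : IsoII) : IsoI := by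
  intro μ G U hμ hμ0 hμper hG hU hUper hUn
  rintro ⟨F, n, hF, hn, hle, hat⟩
  obtain ⟨H, hHd⟩ : ∃ H, H = Ham (fun x => μ x • G) U := ⟨_, rfl⟩
  rw [← hHd] at hF ⊢
  have hH : ∀ x p, H x p = (1 / 2 : ℝ) * ∑ i, ∑ j, (μ x * G i j) * p i * p j + U x := by
    intro x p
    rw [hHd]
    rfl
  have hHneg : ∀ x p, H x (-p) = H x p := by
    intro x p
    rw [hH, hH]
    simp only [Fin.sum_univ_two, Pi.neg_apply]
    ring
  have hH0 : ∀ x, H x 0 = U x := by
    intro x
    rw [hH]
    simp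
  have hinf : Set.Infinite (Set.range fun x => H x 0) := by
    simp only [hH0]
    obtain ⟨x, y, hxy⟩ := hUn
    wlog h : U x < U y generalizing x y
    · exact this y x hxy.symm (lt_of_le_of_ne (not_lt.1 h) hxy.symm)
    refine (Set.Icc_infinite h).mono ?_
    intro t ht
    exact mem_range_of_exists_le_of_exists_ge hU.continuous ⟨x, ht.1⟩ ⟨y, ht.2⟩
  obtain ⟨e, he0, heU, hemu, -⟩ := final G μ U H (Pool.Agent.U4b.IsInt H) hG hμ0 hμ hμper hU hUper hH
    (fun F => Iff.rfl) ⟨F, n, hF, hn, hle, hat⟩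
  have hII' := hII μ G U hμ hμ0 hμper hG hU hUper hUn
  rw [← hHd] at hII'
  obtain ⟨K, hK, hKle, hKn⟩ := hII' (even_of_odd hHneg hinf hF hn hle hat)
  by_cases hodd : ∀ x, opt (K x) = 0
  swap
  · push Not at hodd
    obtain ⟨x1, hx1⟩ := hodd
    exact ⟨fun x => opt (K x), hK.opt hHneg, fun x => opt_degree_le (hKle x), x1,
      le_antisymm (opt_degree_le (hKle x1)) (opt_degree_ge hx1)⟩
  have hodd' : ∀ x, ∀ m : Fin 2 →₀ ℕ, Odd (m 0 + m 1) → (K x).coeff m = 0 := by
    intro x m hm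
    have := coeff_opt (K x) m
    rw [if_pos hm, hodd x, MvPolynomial.coeff_zero] at this
    exact this.symm
  obtain ⟨al, hal0, hal⟩ := exists_alpha G hG
  obtain ⟨om, h1, h2, h3⟩ := exists_dual al hal0
  obtain ⟨I, hIal, hIn, hIU, hImu, hIf⟩ := mkID G hG μ U hμ0 hμ hU hμper hUper H hH K hK.1 hK.2.1 2
    hKle hK.2.2.2 al om hal0 hal h1 h2 h3
  obtain ⟨k, hk, hk0, hw1, hw2⟩ := quad_ID I hIn (fun y => (μ y)⁻¹) (by rw [hImu])
  rw [hIal, hIU] at *
  have hkne : k ≠ 0 := by
    intro hk'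
    obtain ⟨y0, y1, hy⟩ := hk0 hk'
    apply hKn
    refine ⟨Polynomial.C y1 * Polynomial.X + Polynomial.C y0, fun x p => ?_⟩
    have hx := hy x
    rw [hIf, hImu] at hx
    have h20 : (Ph om (K x)).coeff (mk2 2 0) = 0 := by
      have := hk x
      rw [hIf, hk'] at this
      unfold fco at this
      rw [if_pos (by decide)] at this
      exact this
    have h11 : (Ph om (K x)).coeff (mk2 1 1) = ((y1 * μ x : ℝ) : ℂ) := by
      have := hx.1
      unfold fco at this
      rw [if_pos (by decide)] at this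
      exact this
    have h00 : (Ph om (K x)).coeff (mk2 0 0) = ((y1 * U x + y0 : ℝ) : ℂ) := by
      have := hx.2
      unfold fco at this
      rw [if_pos (by decide)] at this
      exact this
    rw [rebuild G al om hal h1 h2 h3 (K x) (hKle x) (hodd' x) _ _ h20 h11 h00, hH]
    simp only [Fin.sum_univ_two, map_add, map_mul, eval_C, eval_X, Polynomial.eval_add,
      Polynomial.eval_mul, Polynomial.eval_C, Polynomial.eval_X]
    ring
  -- the direction `e`
  obtain ⟨lam, hlam, -⟩ := dir_decomp al hal0 e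
  have hlam0 : lam ≠ 0 := by
    rintro rfl
    apply he0
    funext i
    have := hlam i
    rw [zero_mul, map_zero, add_zero] at this
    exact_mod_cast this
  have hei : ∀ i, e i = 2 * (lam.re * reV al i - lam.im * imV al i) := by
    intro i
    have h4 := congrArg Complex.re (hlam i)
    rw [Complex.add_conj, Complex.ofReal_re, Complex.ofReal_re, Complex.mul_re] at h4
    exact h4
  obtain ⟨f, hf⟩ : ∃ f : V2, ∀ i, f i = 2 * (lam.re * imV al i + lam.im * reV al i) :=
    ⟨_, fun i => rfl⟩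
  have hspan : ∀ v : V2, ∃ s t : ℝ, v = s • e + t • f := by
    intro v
    obtain ⟨s, t, hst⟩ := span_of al hal0 lam hlam0 v
    refine ⟨s, t, ?_⟩
    rw [hst]
    congr 2
    · funext i
      rw [hei]
      rfl
    · funext i
      rw [hf]
      rfl
  have hρ : ContDiff ℝ (⊤ : ℕ∞) (fun y => (μ y)⁻¹) := hμ.inv fun x => (hμ0 x).ne'
  -- the direction is not a zero of the symbol
  have hx0 : ∃ x0, fderiv ℝ U x0 ≠ 0 := by
    by_contra hcon
    push Not at hcon
    obtain ⟨x, y, hxy⟩ := hUn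
    exact hxy (is_const_of_fderiv_eq_zero (𝕜 := ℝ) (hU.differentiable (by simp)) hcon x y)
  obtain ⟨x0, hx0⟩ := hx0
  obtain ⟨κ, hκ⟩ : ∃ κ : ℂ, κ = k * (starRingEnd ℂ) lam ^ 2 := ⟨_, rfl⟩
  have hκ0 : κ ≠ 0 := by
    rw [hκ]
    apply mul_ne_zero hkne
    apply pow_ne_zero
    simpa using hlam0
  have hκre : κ.re = k.re * (lam.re ^ 2 - lam.im ^ 2) + 2 * k.im * lam.re * lam.im := by
    rw [hκ]
    simp only [Complex.mul_re, Complex.mul_im, pow_two, Complex.conj_re, Complex.conj_im]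
    ring
  have hκim : κ.im = k.im * (lam.re ^ 2 - lam.im ^ 2) - 2 * k.re * lam.re * lam.im := by
    rw [hκ]
    simp only [Complex.mul_re, Complex.mul_im, pow_two, Complex.conj_re, Complex.conj_im]
    ring
  have hcd : κ.re ≠ 0 ∨ κ.im ≠ 0 := by
    by_contra hcon
    push Not at hcon
    exact hκ0 (Complex.ext hcon.1 hcon.2)
  have e1 := frame (reV al) (imV al) lam.re lam.im k.re k.im hρ (fun x => by
    have h4 := hw1 x
    simp only [Complex.mul_re, Complex.mul_im, Complex.neg_re, Complex.neg_im, Complex.re_ofNat,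
      Complex.im_ofNat] at h4
    linear_combination (-1 / 2) * h4) e f hei hf
  have e2 := frame (reV al) (imV al) lam.re lam.im k.re k.im (hρ.mul hU) (fun x => by
    have h4 := hw2 x
    simp only [Complex.mul_re, Complex.mul_im, Complex.re_ofNat, Complex.im_ofNat] at h4
    linear_combination (1 / 2) * h4) e f hei hf
  have h4 := wave_real e f hspan κ.re κ.im hcd μ U hμ0 hμ hμper hU hUper heU hemu x0 hx0
    (fun y => (μ y)⁻¹) rfl (fun x => by
      rw [hκre, hκim]
      exact e1 x) (fun x => by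
      rw [hκre, hκim]
      exact e2 x)
  have h5 : ∀ x, fderiv ℝ U x e = 0 := fun x => D_of_const e hU x (heU x)
  have hne : (∑ j, C (e j) * X j : RP) ≠ 0 := by
    intro h6
    apply he0
    funext i
    have h7 := congrArg (MvPolynomial.coeff (Finsupp.single i 1)) h6
    rw [MvPolynomial.coeff_sum, MvPolynomial.coeff_zero] at h7
    simp only [MvPolynomial.coeff_C_mul, MvPolynomial.coeff_X] at h7
    simpa [Finsupp.single_left_inj] using h7
  have hdeg1 : (∑ j, C (e j) * X j : RP).totalDegree ≤ 1 := by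
    apply MvPolynomial.totalDegree_finsetSum_le
    intro j _
    refine (MvPolynomial.totalDegree_mul _ _).trans ?_
    rw [MvPolynomial.totalDegree_C, MvPolynomial.totalDegree_X]
  refine ⟨fun _ => ∑ j, C (e j) * X j, ⟨fun m => contDiff_const, fun x k => rfl,
    ⟨1, fun x => hdeg1⟩, fun x p => lin_int G μ U hμ hU H hH e h4 h5 x p⟩, fun x => hdeg1, 0, ?_⟩
  apply le_antisymm hdeg1
  by_contra h6
  have h7 : (∑ j, C (e j) * X j : RP).totalDegree = 0 := by omega
  rw [MvPolynomial.totalDegree_eq_zero_iff_eq_C] at h7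
  apply hne
  rw [h7]
  simp [MvPolynomial.coeff_C_mul]

/-- **The frozen statement follows from part (ii) for the metrics `μ(x) • G`.** -/
theorem S04593_of_isoII (hII : IsoII) :
  ∀ (ginv : (Fin 2 → ℝ) → Matrix (Fin 2) (Fin 2) ℝ) (U : (Fin 2 → ℝ) → ℝ)
    (H : (Fin 2 → ℝ) → (Fin 2 → ℝ) → ℝ)
    (IsInt : ((Fin 2 → ℝ) → MvPolynomial (Fin 2) ℝ) → Prop),
    (∀ x, (ginv x).PosDef) →
    (∀ i j, ContDiff ℝ (⊤ : ℕ∞) (fun x => ginv x i j)) →
    (∀ (x : Fin 2 → ℝ) (k : Fin 2 → ℤ), ginv (x + fun i => (k i : ℝ)) = ginv x) →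
    ContDiff ℝ (⊤ : ℕ∞) U →
    (∀ (x : Fin 2 → ℝ) (k : Fin 2 → ℤ), U (x + fun i => (k i : ℝ)) = U x) →
    (∃ x y, U x ≠ U y) →
    (∀ x p, H x p = (1 / 2 : ℝ) * ∑ i, ∑ j, ginv x i j * p i * p j + U x) →
    (∀ F : (Fin 2 → ℝ) → MvPolynomial (Fin 2) ℝ, IsInt F ↔
      ((∀ m, ContDiff ℝ (⊤ : ℕ∞) (fun x => (F x).coeff m)) ∧
       (∀ (x : Fin 2 → ℝ) (k : Fin 2 → ℤ), F (x + fun i => (k i : ℝ)) = F x) ∧
       (∃ N : ℕ, ∀ x, (F x).totalDegree ≤ N) ∧
       (∀ x p : Fin 2 → ℝ, ∑ i : Fin 2,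
          (deriv (fun t => H x (Function.update p i t)) (p i) *
              deriv (fun t => MvPolynomial.eval p (F (Function.update x i t))) (x i) -
            deriv (fun t => H (Function.update x i t) p) (x i) *
              deriv (fun t => MvPolynomial.eval (Function.update p i t) (F x)) (p i)) = 0))) →
    (((∃ (F : (Fin 2 → ℝ) → MvPolynomial (Fin 2) ℝ) (n : ℕ), IsInt F ∧ Odd n ∧
          (∀ x, (F x).totalDegree ≤ n) ∧ (∃ x, (F x).totalDegree = n)) →
        ∃ F : (Fin 2 → ℝ) → MvPolynomial (Fin 2) ℝ, IsInt F ∧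
          (∀ x, (F x).totalDegree ≤ 1) ∧ ∃ x, (F x).totalDegree = 1) ∧
     ((∃ (F : (Fin 2 → ℝ) → MvPolynomial (Fin 2) ℝ) (n : ℕ), IsInt F ∧ Even n ∧
          (∀ x, (F x).totalDegree ≤ n) ∧ (∃ x, (F x).totalDegree = n) ∧
          ¬ ∃ q : Polynomial ℝ, ∀ x p, MvPolynomial.eval p (F x) = q.eval (H x p)) →
        ∃ F : (Fin 2 → ℝ) → MvPolynomial (Fin 2) ℝ, IsInt F ∧
          (∀ x, (F x).totalDegree ≤ 2) ∧
          ¬ ∃ q : Polynomial ℝ, ∀ x p, MvPolynomial.eval p (F x) = q.eval (H x p))) :=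
  S04593_of_isothermal (isoI_of_isoII hII) hII

end Pool.W4b1b5d.H34
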