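import Pool.Agent.W_4b1b5d_h34.NonReal
import Pool.Agent.W_4b1b5d_h66.SHGlueE
import Pool.Agent.W_4b1b5d_h66.SHBasic

/-!
# The momentum forms of the sheets are closed forms, up to the real values
-/

set_option autoImplicit false

open MeasureTheory Set Filter Topology
open Pool.W4b1b5d.H3 Pool.W4b1b5d.SH
open scoped ComplexConjugate

namespace Pool.W4b1b5d.H34

/-- Limits of closed forms in a continuous family. -/
theorem approx_form {F : V2 → ℂ → (Fin 2 → ℂ)} (hF : Continuous fun z : V2 × ℂ => F z.1 z.2)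
    (hper : ∀ v, Per fun x => F x v) {v0 : ℂ} (h : ∃ᶠ v in 𝓝 v0, CForm (fun x => F x v)) :
    CForm (fun x => F x v0) := by
  refine CForm.of_approx (hF.comp (Continuous.prodMk_left v0)) (hper v0) fun ε hε => ?_
  have h1 : ∀ᶠ v in 𝓝 v0, ∀ x ∈ cell, ‖F x v0 - F x v‖ < ε := by
    refine cell_compact.eventually_forall_of_forall_eventually fun x _ => ?_
    have hc : Continuous fun z : ℂ × V2 => ‖F z.2 v0 - F z.2 z.1‖ :=
      ((hF.comp (continuous_snd.prodMk continuous_const)).sub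
        (hF.comp (continuous_snd.prodMk continuous_fst))).norm
    have h2 := hc.tendsto (v0, x)
    simp only [sub_self, norm_zero] at h2
    exact h2.eventually (gt_mem_nhds hε)
  obtain ⟨v, hv1, hv2⟩ := (h.and_eventually h1).exists
  refine ⟨_, hv1, fun x => ?_⟩
  have e1 := hper v0 x (fun i => -⌊x i⌋)
  have e2 := hper v x (fun i => -⌊x i⌋)
  simp only at e1 e2
  rw [← e1, ← e2]
  refine (hv2 _ ⟨fun i => ?_, fun i => ?_⟩).le
  · simp only [Pi.zero_apply, Pi.add_apply, Int.cast_neg]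
    linarith [Int.floor_le (x i)]
  · simp only [Pi.one_apply, Pi.add_apply, Int.cast_neg]
    linarith [Int.lt_floor_add_one (x i)]

/-- Retraction to the closed box. -/
noncomputable def cB (s w0 δ : ℝ) (v : ℂ) : ℂ :=
  ⟨w0 + max (-δ) (min δ (v.re - w0)), s * max 0 (min δ (s * v.im))⟩

theorem cB_cont (s w0 δ : ℝ) : Continuous (cB s w0 δ) := by
  have h : cB s w0 δ = fun v : ℂ => ((w0 + max (-δ) (min δ (v.re - w0)) : ℝ) : ℂ) +
      ((s * max 0 (min δ (s * v.im)) : ℝ) : ℂ) * Complex.I := by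
    funext v
    apply Complex.ext <;> simp [cB]
  rw [h]
  have h1 : Continuous fun v : ℂ => w0 + max (-δ) (min δ (v.re - w0)) :=
    continuous_const.add (continuous_const.max (continuous_const.min
      (Complex.continuous_re.sub continuous_const)))
  have h2 : Continuous fun v : ℂ => s * max 0 (min δ (s * v.im)) :=
    continuous_const.mul (continuous_const.max (continuous_const.min
      (continuous_const.mul Complex.continuous_im)))
  exact (Complex.continuous_ofReal.comp h1).add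
    ((Complex.continuous_ofReal.comp h2).mul continuous_const)

/-- The closed box. -/
def Box (s w0 δ : ℝ) : Set ℂ := {v | |v.re - w0| ≤ δ ∧ 0 ≤ s * v.im ∧ s * v.im ≤ δ}

theorem cB_mem {s w0 δ : ℝ} (hs : s = 1 ∨ s = -1) (hδ : 0 ≤ δ) (v : ℂ) :
    cB s w0 δ v ∈ Box s w0 δ := by
  have hss : s * s = 1 := by rcases hs with rfl | rfl <;> norm_num
  have e : s * (cB s w0 δ v).im = max 0 (min δ (s * v.im)) := by
    change s * (s * max 0 (min δ (s * v.im))) = _
    rw [← mul_assoc, hss, one_mul]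
  refine ⟨?_, ?_, ?_⟩
  · change |w0 + max (-δ) (min δ (v.re - w0)) - w0| ≤ δ
    rw [add_sub_cancel_left, abs_le]
    exact ⟨le_max_left _ _, max_le (by linarith) (min_le_left _ _)⟩
  · rw [e]
    exact le_max_left _ _
  · rw [e]
    exact max_le hδ (min_le_left _ _)

theorem cB_fix {s w0 δ : ℝ} (hs : s = 1 ∨ s = -1) {v : ℂ} (hv : v ∈ Box s w0 δ) :
    cB s w0 δ v = v := by
  have hss : s * s = 1 := by rcases hs with rfl | rfl <;> norm_num
  obtain ⟨h1, h2, h3⟩ := hv
  rw [abs_le] at h1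
  apply Complex.ext
  · change w0 + max (-δ) (min δ (v.re - w0)) = v.re
    rw [min_eq_right h1.2, max_eq_right h1.1]
    ring
  · change s * max 0 (min δ (s * v.im)) = v.im
    rw [min_eq_right h3, max_eq_right h2, ← mul_assoc, hss, one_mul]

theorem Box_Us {s w0 δ τ : ℝ} (hδ : δ < τ) {v : ℂ} (hv : v ∈ Box s w0 δ) : v ∈ Us s τ :=
  ⟨hv.2.1, hv.2.2.trans_lt hδ⟩

variable {D : PD} {s τ : ℝ}

theorem P_ne (S : Sh D 2 s τ) (j : Fin S.n) (x : V2) {v : ℂ} (hv : v ∈ Us s τ) :
    S.P j x v ≠ 0 := by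
  intro h
  have := S.le j x v hv
  rw [h, norm_zero, zero_pow two_ne_zero] at this
  exact absurd this (not_le.2 (D.lpos x))

/-- The momentum form of a sheet. -/
noncomputable def mom (S : Sh D 2 s τ) (j : Fin S.n) (v : ℂ) : V2 → Fin 2 → ℂ :=
  sf D.al D.l fun x => S.P j x v

theorem mom_in (hH : Ks s τ ⊆ D.H) (S : Sh D 2 s τ) (j : Fin S.n) {v : ℂ}
    (hv : v ∈ Ks s τ) : CForm (mom S j v) := by
  have hU : v ∈ Us s τ := ⟨hv.1.le, hv.2⟩
  have hPd : Differentiable ℝ fun y => S.P j y v := fun x => (Sh.dd_in (by norm_num) hH S j x v hv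
    D.al).2.2
  have hld : Differentiable ℝ fun y => (D.l y : ℂ) := fun x =>
    Complex.ofRealCLM.differentiableAt.comp x (D.lsm.differentiable (by simp) x)
  have hQd : Differentiable ℝ fun y => (D.l y : ℂ) / S.P j y v := by
    intro x
    have hne : (fun y => S.P j y v) x ≠ 0 := P_ne S j x hU
    have h1 : DifferentiableAt ℝ (fun y => (S.P j y v)⁻¹) x := (hPd x).inv hne
    have h2 := (hld x).mul h1
    have h3 : ((fun y => (D.l y : ℂ)) * fun y => (S.P j y v)⁻¹) =
        fun y => (D.l y : ℂ) / S.P j y v := by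
      funext y
      rw [div_eq_mul_inv]
      rfl
    rw [h3] at h2
    exact h2
  refine CForm.of_curl ?_ ?_ ?_
  · rw [differentiable_pi]
    intro i
    fin_cases i
    · change Differentiable ℝ fun x => (conj (D.al 1) * S.P j x v - D.al 1 * ((D.l x : ℂ) / S.P j x v)) /
        (D.al 0 * conj (D.al 1) - D.al 1 * conj (D.al 0))
      simp only [div_eq_mul_inv (_ - _)]
      exact ((hPd.const_mul _).sub (hQd.const_mul _)).mul_const _
    · change Differentiable ℝ fun x => (D.al 0 * ((D.l x : ℂ) / S.P j x v) - conj (D.al 0) * S.P j x v) /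
        (D.al 0 * conj (D.al 1) - D.al 1 * conj (D.al 0))
      simp only [div_eq_mul_inv (_ - _)]
      exact ((hQd.const_mul _).sub (hPd.const_mul _)).mul_const _
  · intro x k
    have h1 := S.per j v hU x k
    simp only at h1
    simp only [mom, sf, h1, D.lper x k]
  · intro x
    exact cov_closed D.al D.hal (hPd x) (hQd x) (Sh.closed_in hH S j x v hv)

theorem sh_cont (hs : s = 1 ∨ s = -1) (S : Sh D 2 s τ) (j : Fin S.n) {w0 δ : ℝ} (hδ : 0 ≤ δ)
    (hδτ : δ < τ) : Continuous fun z : V2 × ℂ => S.P j z.1 (cB s w0 δ z.2) := by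
  have h := (S.cont j).comp_continuous (f := fun z : V2 × ℂ => (z.1, cB s w0 δ z.2))
    (continuous_fst.prodMk ((cB_cont s w0 δ).comp continuous_snd))
    (fun z => ⟨mem_univ _, Box_Us hδτ (cB_mem hs hδ _)⟩)
  exact h

theorem sh_form_cont (hs : s = 1 ∨ s = -1) (S : Sh D 2 s τ) (j : Fin S.n) {w0 δ : ℝ} (hδ : 0 ≤ δ)
    (hδτ : δ < τ) : Continuous fun z : V2 × ℂ => mom S j (cB s w0 δ z.2) z.1 := by
  have h1 : Continuous fun z : V2 × ℂ => (D.l z.1 : ℂ) / S.P j z.1 (cB s w0 δ z.2) :=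
    (Complex.continuous_ofReal.comp (D.lsm.continuous.comp continuous_fst)).div
      (sh_cont hs S j hδ hδτ) fun z => P_ne S j _ (Box_Us hδτ (cB_mem hs hδ _))
  exact (cov_cont D.al).comp ((sh_cont hs S j hδ hδτ).prodMk h1)


/-- The clamped momentum form. -/
noncomputable def Fm (S : Sh D 2 s τ) (j : Fin S.n) (w0 δ : ℝ) (x : V2) (v : ℂ) : Fin 2 → ℂ :=
  mom S j (cB s w0 δ v) x

theorem Fm_cont (hs : s = 1 ∨ s = -1) (S : Sh D 2 s τ) (j : Fin S.n) {w0 δ : ℝ} (hδ : 0 ≤ δ)
    (hδτ : δ < τ) : Continuous fun z : V2 × ℂ => Fm S j w0 δ z.1 z.2 :=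
  sh_form_cont hs S j hδ hδτ

theorem mom_per (S : Sh D 2 s τ) (j : Fin S.n) {v : ℂ} (hv : v ∈ Us s τ) : Per (mom S j v) := by
  intro x k
  have h1 := S.per j v hv x k
  simp only at h1
  simp only [mom, sf, h1, D.lper x k]

theorem Fm_per (hs : s = 1 ∨ s = -1) (S : Sh D 2 s τ) (j : Fin S.n) {w0 δ : ℝ} (hδ : 0 ≤ δ)
    (hδτ : δ < τ) (v : ℂ) : Per fun x => Fm S j w0 δ x v :=
  mom_per S j (Box_Us hδτ (cB_mem hs hδ _))

theorem tend_up (s : ℝ) (v : ℂ) :
    Tendsto (fun η : ℝ => v + ((s * η : ℝ) : ℂ) * Complex.I) (𝓝[>] 0) (𝓝 v) := by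
  have h1 : Continuous fun η : ℝ => v + ((s * η : ℝ) : ℂ) * Complex.I := by fun_prop
  have h2 := h1.tendsto 0
  simp only [mul_zero, Complex.ofReal_zero, zero_mul, add_zero] at h2
  exact h2.mono_left nhdsWithin_le_nhds

theorem up_im {s : ℝ} (hs : s = 1 ∨ s = -1) (v : ℂ) (η : ℝ) :
    s * (v + ((s * η : ℝ) : ℂ) * Complex.I).im = s * v.im + η := by
  have hss : s * s = 1 := by rcases hs with rfl | rfl <;> norm_num
  rw [Complex.add_im, Complex.mul_im]
  simp only [Complex.ofReal_re, Complex.I_im, mul_one, Complex.ofReal_im, Complex.I_re,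
    mul_zero, add_zero]
  rw [mul_add, ← mul_assoc, hss, one_mul]

theorem up_re (s : ℝ) (v : ℂ) (η : ℝ) : (v + ((s * η : ℝ) : ℂ) * Complex.I).re = v.re := by
  rw [Complex.add_re, Complex.mul_re]
  simp

/-- **The momentum forms are closed, up to the real values.** -/
theorem mom_cform (hs : s = 1 ∨ s = -1) (hH : Ks s τ ⊆ D.H) (S : Sh D 2 s τ) (j : Fin S.n) {v : ℂ}
    (hv : v ∈ Us s τ) : CForm (mom S j v) := by
  rcases hv.1.lt_or_eq with h | h
  · exact mom_in hH S j ⟨h, hv.2⟩
  · have hτ : 0 < τ := by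
      have h2 := hv.2
      rw [← h] at h2
      exact h2
    have hδ : (0 : ℝ) ≤ τ / 2 := by positivity
    have hδτ : τ / 2 < τ := by linarith
    have hvB : v ∈ Box s v.re (τ / 2) := ⟨by simp [hδ], h.le, h.symm.le.trans hδ⟩
    have hfreq : ∃ᶠ u in 𝓝 v, CForm fun x => Fm S j v.re (τ / 2) x u := by
      have hsm : ∀ᶠ η : ℝ in 𝓝[>] (0 : ℝ), η < τ / 2 :=
        nhdsWithin_le_nhds (isOpen_Iio.mem_nhds (show (0 : ℝ) < τ / 2 by positivity))
      have hev : ∀ᶠ η : ℝ in 𝓝[>] (0 : ℝ),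
          CForm fun x => Fm S j v.re (τ / 2) x (v + ((s * η : ℝ) : ℂ) * Complex.I) := by
        filter_upwards [self_mem_nhdsWithin, hsm] with η hη hη2
        have hη' : 0 < η := hη
        have e1 := up_im hs v η
        rw [← h, zero_add] at e1
        have hmem : v + ((s * η : ℝ) : ℂ) * Complex.I ∈ Box s v.re (τ / 2) := by
          refine ⟨?_, ?_, ?_⟩
          · rw [up_re, sub_self, abs_zero]
            exact hδ
          · rw [e1]
            exact hη'.le
          · rw [e1]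
            exact hη2.le
        have hK : v + ((s * η : ℝ) : ℂ) * Complex.I ∈ Ks s τ :=
          ⟨by rw [e1]; exact hη', by rw [e1]; linarith⟩
        have h3 := mom_in hH S j hK
        have h4 : (fun x => Fm S j v.re (τ / 2) x (v + ((s * η : ℝ) : ℂ) * Complex.I)) =
            mom S j (v + ((s * η : ℝ) : ℂ) * Complex.I) := by
          funext x
          unfold Fm
          rw [cB_fix hs hmem]
        rw [h4]
        exact h3
      exact (tend_up s v).frequently hev.frequently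
    have key := approx_form (Fm_cont hs S j hδ hδτ) (Fm_per hs S j hδ hδτ) hfreq
    have h4 : (fun x => Fm S j v.re (τ / 2) x v) = mom S j v := by
      funext x
      unfold Fm
      rw [cB_fix hs hvB]
    rw [h4] at key
    exact key

end Pool.W4b1b5d.H34
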