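import Pool.Agent.W_4b1b5d_h34.NonRealC

/-!
# Nonreal labels: the two sections agree
-/

set_option autoImplicit false

open MeasureTheory Set Filter Topology
open Pool.W4b1b5d.H3 Pool.W4b1b5d.SH
open scoped ComplexConjugate

namespace Pool.W4b1b5d.H34

theorem exists_c {g : V2} (hg : g ≠ 0) {R : Fin 2 → ℂ} (hR : (g 0 : ℂ) * R 0 + g 1 * R 1 = 0) :
    ∃ c : ℂ, R 0 = c * g 1 ∧ R 1 = -c * g 0 := by
  by_cases hg1 : g 1 = 0
  · have hg0 : g 0 ≠ 0 := by
      intro h
      apply hg
      funext i
      fin_cases i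
      · exact h
      · exact hg1
    have hg0' : (g 0 : ℂ) ≠ 0 := by exact_mod_cast hg0
    rw [hg1] at hR
    simp only [Complex.ofReal_zero, zero_mul, add_zero, mul_eq_zero, hg0', false_or] at hR
    refine ⟨-(R 1) / g 0, ?_, ?_⟩
    · rw [hR, hg1]
      simp
    · field_simp
  · have hg1' : (g 1 : ℂ) ≠ 0 := by exact_mod_cast hg1
    refine ⟨R 0 / g 1, ?_, ?_⟩
    · field_simp
    · field_simp
      linear_combination hR

theorem cl_eq_zero {R : Fin 2 → ℂ} (h : ∀ v, cl R v = 0) : R = 0 := by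
  funext i
  rw [← cl_single R i, h]
  rfl

variable {al : Fin 2 → ℂ} {l : V2 → ℝ}

/-- Steps 1 and 2 for two sections which agree on `S`: the means are equal. -/
theorem mean_eq_of_S (hal : ((starRingEnd ℂ) (al 0) * al 1).im ≠ 0) (hlc : Continuous l)
    (hlper : Per l) (hl : ∀ x, 0 < l x) {p p' : V2 → ℂ} (hp : Continuous p) (hp' : Continuous p')
    (hpper : Per p) (hpper' : Per p') (h : CForm (sf al l p)) (h' : CForm (sf al l p'))
    (hpos : ∀ x, l x ≤ ‖p x‖ ^ 2) (hpos' : ∀ x, l x ≤ ‖p' x‖ ^ 2) {S : Set V2} (hS : IsOpen S)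
    (hSc : IsPreconnected S) (heq : ∀ x ∈ S, p x = p' x)
    (hdich : (∀ d : V2 →L[ℝ] ℝ, (∃ C : ℝ, ∀ x ∈ S, |d x| ≤ C) → d = 0) ∨
      ∃ k : Fin 2 → ℤ, k ≠ 0 ∧
        (∀ d : V2 →L[ℝ] ℝ, (∃ C : ℝ, ∀ x ∈ S, |d x| ≤ C) → d (fun i => (k i : ℝ)) = 0) ∧
        ∃ (σ : ℝ) (x0 : V2), ∀ r ∈ Icc (0 : ℝ) 1,
          0 < σ * ((cl (sf al l p (x0 + r • (fun i => (k i : ℝ)))) (fun i => (k i : ℝ))) ^ 2).im) :
    mn (sf al l p) = mn (sf al l p') := by
  set R := mn (sf al l p) - mn (sf al l p') with hRdef
  have hr0 : ∀ x ∈ S, sf al l p x - sf al l p' x = 0 := by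
    intro x hx
    unfold sf
    rw [heq x hx, sub_self]
  obtain ⟨C, hC⟩ := mn_bdd_on (h.sub h') hS hSc hr0
  rw [mn_sub h h', ← hRdef] at hC
  have hre : ∃ C : ℝ, ∀ x ∈ S, |(Complex.reCLM.comp (cl R)) x| ≤ C :=
    ⟨C, fun x hx => (Complex.abs_re_le_norm _).trans (hC x hx)⟩
  have him : ∃ C : ℝ, ∀ x ∈ S, |(Complex.imCLM.comp (cl R)) x| ≤ C :=
    ⟨C, fun x hx => (Complex.abs_im_le_norm _).trans (hC x hx)⟩
  rcases hdich with hd | ⟨k, hk, hd, σ, x0, hσ⟩
  · have h1 := hd _ hre
    have h2 := hd _ him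
    have h3 : R = 0 := by
      apply cl_eq_zero
      intro v
      apply Complex.ext
      · exact congrFun (congrArg DFunLike.coe h1) v
      · exact congrFun (congrArg DFunLike.coe h2) v
    exact sub_eq_zero.1 h3
  · set g : V2 := fun i => (k i : ℝ) with hgdef
    have hg : g ≠ 0 := by
      intro h0
      apply hk
      funext i
      have := congrFun h0 i
      simp only [hgdef, Pi.zero_apply, Int.cast_eq_zero] at this
      exact this
    have hRg : cl R g = 0 := by
      apply Complex.ext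
      · exact hd _ hre
      · exact hd _ him
    have hRg' := hRg
    rw [cl_apply] at hRg'
    obtain ⟨c, hc0, hc1⟩ := exists_c hg hRg'
    have hw : R 0 * conj (R 1) - R 1 * conj (R 0) = 0 := by
      rw [hc0, hc1]
      simp only [map_mul, map_neg, Complex.conj_ofReal]
      ring
    have hpt := step1 hal hlc hlper hl hp hp' hpper hpper' h h' hpos hpos' hw
    have hq : ((cl (mn (sf al l p)) g) ^ 2).im ≠ 0 := by
      rw [mn_seg h k x0]
      have hs : ContinuousOn (fun s : ℝ => cl (sf al l p (x0 + s • (fun i => (k i : ℝ))))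
          (fun i => (k i : ℝ))) (Icc 0 1) :=
        ((cl_cont.comp (h.cont.comp (by fun_prop))).clm_apply continuous_const).continuousOn
      have := quadrant hs hσ
      intro h0
      rw [h0, mul_zero] at this
      exact lt_irrefl _ this
    exact sub_eq_zero.1 (step2 hal hl hpos hpos' h h' hpt hg hRg hq)

/-- **Nonreal labels.**  Two families of sections on the two sides of the real axis which agree on
`S` for real parameters near `w0` agree everywhere at `w0`. -/
theorem nonreal {w0 δ c : ℝ} {pU pL : V2 → ℂ → ℂ} (hal : ((starRingEnd ℂ) (al 0) * al 1).im ≠ 0)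
    (hlc : Continuous l) (hlper : Per l) (hl : ∀ x, 0 < l x) (hδ : 0 < δ) (hc : 0 < c)
    (hU : GFam al l 1 w0 δ c pU) (hL : GFam al l (-1) w0 δ c pL) {S : Set V2} (hS : IsOpen S)
    (hSc : IsPreconnected S)
    (heq : ∀ x ∈ S, ∀ w : ℝ, |w - w0| < δ → pU x w = pL x w)
    (hdich : (∀ d : V2 →L[ℝ] ℝ, (∃ C : ℝ, ∀ x ∈ S, |d x| ≤ C) → d = 0) ∨
      ∃ k : Fin 2 → ℤ, k ≠ 0 ∧
        (∀ d : V2 →L[ℝ] ℝ, (∃ C : ℝ, ∀ x ∈ S, |d x| ≤ C) → d (fun i => (k i : ℝ)) = 0) ∧
        ∀ w : ℝ, |w - w0| < δ → ∃ (σ : ℝ) (x0 : V2), ∀ r ∈ Icc (0 : ℝ) 1,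
          0 < σ * ((cl (sf al l (fun x => pU x w) (x0 + r • (fun i => (k i : ℝ))))
            (fun i => (k i : ℝ))) ^ 2).im) (x : V2) : pU x w0 = pL x w0 := by
  have cU : ∀ v, Continuous fun x => pU x v := fun v => hU.cont.comp (Continuous.prodMk_left v)
  have cL : ∀ v, Continuous fun x => pL x v := fun v => hL.cont.comp (Continuous.prodMk_left v)
  -- the means agree at real parameters
  have hmean : ∀ w : ℝ, |w - w0| < δ → MM al l pU w = MM al l pL w := by
    intro w hw
    refine mean_eq_of_S hal hlc hlper hl (cU w) (cL w) (hU.per w) (hL.per w) (hU.form w) (hL.form w)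
      (fun x => hU.pos x w) (fun x => hL.pos x w) hS hSc (fun x hx => heq x hx w hw) ?_
    rcases hdich with hd | ⟨k, hk, hd, hσ⟩
    · exact Or.inl hd
    · exact Or.inr ⟨k, hk, hd, hσ w hw⟩
  -- Painlevé
  set Pi : Fin 2 → ℂ → ℂ := fun i v => if 0 ≤ v.im then MM al l pU v i else MM al l pL v i with hPi
  have hPiD : ∀ i, DifferentiableAt ℂ (Pi i) (w0 : ℂ) := by
    intro i
    have hball : ∀ v ∈ Metric.ball (w0 : ℂ) δ, |v.re - w0| < δ ∧ |v.im| < δ := by
      intro v hv
      rw [Metric.mem_ball, dist_eq_norm] at hv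
      constructor
      · have := Complex.abs_re_le_norm (v - w0)
        simp only [Complex.sub_re, Complex.ofReal_re] at this
        linarith
      · have := Complex.abs_im_le_norm (v - w0)
        simp only [Complex.sub_im, Complex.ofReal_im, sub_zero] at this
        linarith
    have key : DifferentiableOn ℂ (Pi i) (Metric.ball (w0 : ℂ) δ) := by
      refine painleve Metric.isOpen_ball ?_ ?_
      · intro v hv
        refine ContinuousAt.continuousWithinAt ?_
        have hcu := (hU.cont_MM hlc hl i).continuousAt (x := v)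
        have hcl := (hL.cont_MM hlc hl i).continuousAt (x := v)
        rcases lt_trichotomy v.im 0 with him | him | him
        · refine hcl.congr ?_
          filter_upwards [(isOpen_lt Complex.continuous_im continuous_const).mem_nhds him] with u hu
          simp only [hPi]
          rw [if_neg (not_le.2 hu)]
        · have hv' : v = ((v.re : ℝ) : ℂ) := by
            apply Complex.ext
            · simp
            · simpa using him
          have hval : MM al l pL v i = MM al l pU v i := by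
            rw [hv', hmean v.re (hball v hv).1]
          have h0 : Pi i v = MM al l pU v i := by
            simp only [hPi]
            rw [if_pos him.ge]
          unfold ContinuousAt
          rw [h0]
          intro V hV
          have a1 := hcu.preimage_mem_nhds hV
          rw [← hval] at hV
          have a2 := hcl.preimage_mem_nhds hV
          rw [mem_map]
          filter_upwards [a1, a2] with u b1 b2
          simp only [hPi, mem_preimage]
          by_cases hu : 0 ≤ u.im
          · rw [if_pos hu]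
            exact b1
          · rw [if_neg hu]
            exact b2
        · refine hcu.congr ?_
          filter_upwards [(isOpen_lt continuous_const Complex.continuous_im).mem_nhds him] with u hu
          have hu' : 0 < u.im := hu
          simp only [hPi]
          rw [if_pos hu'.le]
      · intro v hv hne
        obtain ⟨hb1, hb2⟩ := hball v hv
        rw [abs_lt] at hb2
        rcases lt_or_gt_of_ne hne with him | him
        · have h1 := hL.hol_MM hlc hl i hb1 (by linarith) (by linarith)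
          refine h1.congr_of_eventuallyEq ?_
          filter_upwards [(isOpen_lt Complex.continuous_im continuous_const).mem_nhds him] with u hu
          simp only [hPi]
          rw [if_neg (not_le.2 hu)]
        · have h1 := hU.hol_MM hlc hl i hb1 (by linarith) (by linarith)
          refine h1.congr_of_eventuallyEq ?_
          filter_upwards [(isOpen_lt continuous_const Complex.continuous_im).mem_nhds him] with u hu
          have hu' : 0 < u.im := hu
          simp only [hPi]
          rw [if_pos hu'.le]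
    exact key.differentiableAt (Metric.isOpen_ball.mem_nhds (Metric.mem_ball_self hδ))
  -- Lipschitz at `w0`
  have hLip : ∀ i, ∃ K : ℝ, 0 < K ∧ ∀ᶠ ε : ℝ in 𝓝[>] (0 : ℝ),
      ‖MM al l pU (w0 + ε * Complex.I) i - MM al l pL (w0 - ε * Complex.I) i‖ ≤ 2 * K * ε := by
    intro i
    have h1 := (hPiD i).hasDerivAt.isBigO_sub
    obtain ⟨K, hK, hK2⟩ := h1.exists_pos
    rw [Asymptotics.isBigOWith_iff] at hK2
    refine ⟨K, hK, ?_⟩
    have t1 : Tendsto (fun ε : ℝ => (w0 : ℂ) + ε * Complex.I) (𝓝[>] 0) (𝓝 (w0 : ℂ)) := by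
      have : Continuous fun ε : ℝ => (w0 : ℂ) + ε * Complex.I := by fun_prop
      have h2 := this.tendsto 0
      simp only [Complex.ofReal_zero, zero_mul, add_zero] at h2
      exact h2.mono_left nhdsWithin_le_nhds
    have t2 : Tendsto (fun ε : ℝ => (w0 : ℂ) - ε * Complex.I) (𝓝[>] 0) (𝓝 (w0 : ℂ)) := by
      have : Continuous fun ε : ℝ => (w0 : ℂ) - ε * Complex.I := by fun_prop
      have h2 := this.tendsto 0
      simp only [Complex.ofReal_zero, zero_mul, sub_zero] at h2
      exact h2.mono_left nhdsWithin_le_nhds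
    filter_upwards [t1.eventually hK2, t2.eventually hK2, self_mem_nhdsWithin] with ε b1 b2 hε
    have hε' : 0 < ε := hε
    have e1 : Pi i ((w0 : ℂ) + ε * Complex.I) = MM al l pU (w0 + ε * Complex.I) i := by
      simp only [hPi]
      rw [if_pos]
      simp [hε'.le]
    have e2 : Pi i ((w0 : ℂ) - ε * Complex.I) = MM al l pL (w0 - ε * Complex.I) i := by
      simp only [hPi]
      rw [if_neg]
      simp [hε']
    rw [e1] at b1
    rw [e2] at b2
    have n1 : ‖(w0 : ℂ) + ε * Complex.I - w0‖ = ε := by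
      rw [add_sub_cancel_left, norm_mul, Complex.norm_I, mul_one, Complex.norm_real, Real.norm_eq_abs,
        abs_of_pos hε']
    have n2 : ‖(w0 : ℂ) - ε * Complex.I - w0‖ = ε := by
      rw [sub_sub_cancel_left, norm_neg, norm_mul, Complex.norm_I, mul_one, Complex.norm_real,
        Real.norm_eq_abs, abs_of_pos hε']
    rw [n1] at b1
    rw [n2] at b2
    calc _ = ‖(MM al l pU (w0 + ε * Complex.I) i - Pi i w0) -
          (MM al l pL (w0 - ε * Complex.I) i - Pi i w0)‖ := by congr 1; ring
      _ ≤ K * ε + K * ε := (norm_sub_le _ _).trans (add_le_add b1 b2)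
      _ = 2 * K * ε := by ring
  obtain ⟨K0, hK0, hE0⟩ := hLip 0
  obtain ⟨K1, hK1, hE1⟩ := hLip 1
  -- a bound for `l`
  obtain ⟨L0, hL0⟩ := Grow_per_bdd (f := fun x => (l x : ℂ)) (Complex.continuous_ofReal.comp hlc)
    (fun x k => by simp only [hlper x k])
  have hlL : ∀ x, l x ≤ L0 := fun x => by
    have := hL0 x
    rw [Complex.norm_real, Real.norm_eq_abs, abs_of_pos (hl x)] at this
    exact this
  have hL0pos : 0 < L0 := (hl 0).trans_le (hlL 0)
  -- the quantity which tends to zero
  set G : ℂ → ℝ := fun v => ∫ x in cell, ‖pU x v - pL x (conj v)‖ ^ 2 with hG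
  have hGc : Continuous G := by
    refine cont_int (F := fun x v => ‖pU x v - pL x (conj v)‖ ^ 2) ?_
    refine ((hU.cont.sub ?_).norm).pow 2
    exact hL.cont.comp (continuous_fst.prodMk (Complex.continuous_conj.comp continuous_snd))
  set A : ℝ := ‖Dl al‖ * (2 * ((2 * K0) * (2 * K1))) with hA
  have hbound : ∀ᶠ ε : ℝ in 𝓝[>] (0 : ℝ), G (w0 + ε * Complex.I) ≤ A / c * ε * (L0 + c * ε) := by
    have hsm : ∀ᶠ ε : ℝ in 𝓝[>] (0 : ℝ), ε < δ :=
      nhdsWithin_le_nhds (isOpen_Iio.mem_nhds hδ)
    filter_upwards [hE0, hE1, self_mem_nhdsWithin, hsm] with ε b0 b1 hε hεδ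
    have hε' : 0 < ε := hε
    set vU : ℂ := w0 + ε * Complex.I with hvU
    set vL : ℂ := w0 - ε * Complex.I with hvL
    have hconj : conj vU = vL := by
      rw [hvU, hvL]
      simp [sub_eq_add_neg]
    have hw := mn_wedge_conj hal (hU.form vU) (hL.form vL)
    set R : Fin 2 → ℂ := mn (sf al l fun x => pU x vU) - mn (sf al l fun x => pL x vL) with hR
    have hR0 : ‖R 0‖ ≤ 2 * K0 * ε := b0
    have hR1 : ‖R 1‖ ≤ 2 * K1 * ε := b1
    have hN : ∫ x in cell, Nf (l x) (pU x vU) (pL x vL) ≤ A * ε ^ 2 := by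
      have h1 : ‖((∫ x in cell, Nf (l x) (pU x vU) (pL x vL) : ℝ) : ℂ)‖ ≤ A * ε ^ 2 := by
        rw [hw, norm_mul]
        have h2 : ‖R 0 * conj (R 1) - R 1 * conj (R 0)‖ ≤ 2 * ((2 * K0) * (2 * K1)) * ε ^ 2 := by
          calc _ ≤ ‖R 0 * conj (R 1)‖ + ‖R 1 * conj (R 0)‖ := norm_sub_le _ _
            _ = 2 * (‖R 0‖ * ‖R 1‖) := by
                rw [norm_mul, norm_mul, RCLike.norm_conj, RCLike.norm_conj]
                ring
            _ ≤ 2 * ((2 * K0 * ε) * (2 * K1 * ε)) := by gcongr
            _ = _ := by ring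
        calc _ ≤ ‖Dl al‖ * (2 * ((2 * K0) * (2 * K1)) * ε ^ 2) := by gcongr
          _ = A * ε ^ 2 := by rw [hA]; ring
      rw [Complex.norm_real] at h1
      exact (le_abs_self _).trans h1
    have hboxU : |vU.re - w0| < δ ∧ 0 ≤ 1 * vU.im ∧ 1 * vU.im < δ := by
      rw [hvU]
      simp [hδ, hε'.le, hεδ]
    have hboxL : |vL.re - w0| < δ ∧ 0 ≤ -1 * vL.im ∧ -1 * vL.im < δ := by
      rw [hvL]
      simp [hδ, hε'.le, hεδ]
    have hlow : ∀ x, c * ε / (L0 + c * ε) * ‖pU x vU - pL x (conj vU)‖ ^ 2 ≤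
        Nf (l x) (pU x vU) (pL x vL) := by
      intro x
      rw [hconj]
      refine Nf_lower (hl x) (hlL x) (by positivity) ?_ ?_
      · have := hU.low x vU hboxU.1 hboxU.2.1 hboxU.2.2
        have e : (1 : ℝ) * vU.im = ε := by
          rw [hvU]
          simp
        rwa [e] at this
      · have := hL.low x vL hboxL.1 hboxL.2.1 hboxL.2.2
        have e : (-1 : ℝ) * vL.im = ε := by
          rw [hvL]
          simp
        rwa [e] at this
    have hcont1 : Continuous fun x => c * ε / (L0 + c * ε) * ‖pU x vU - pL x (conj vU)‖ ^ 2 :=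
      continuous_const.mul (((cU vU).sub (cL (conj vU))).norm.pow 2)
    have hcont2 : Continuous fun x => Nf (l x) (pU x vU) (pL x vL) :=
      Nf_cont hlc (cU vU) (cL vL) (fun x => hU.ne hl x vU) (fun x => hL.ne hl x vL)
    have hmono := setIntegral_mono_on (cont_intCell hcont1) (cont_intCell hcont2) cell_meas
      (fun x _ => hlow x)
    rw [integral_const_mul] at hmono
    have hfin : c * ε / (L0 + c * ε) * G vU ≤ A * ε ^ 2 := hmono.trans hN
    have hpos1 : 0 < L0 + c * ε := by positivity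
    have hpos2 : 0 < c * ε := by positivity
    rw [div_mul_eq_mul_div, div_le_iff₀ hpos1] at hfin
    have : G vU ≤ A * ε ^ 2 * (L0 + c * ε) / (c * ε) := by
      rw [le_div_iff₀ hpos2]
      linarith
    calc G vU ≤ A * ε ^ 2 * (L0 + c * ε) / (c * ε) := this
      _ = A / c * ε * (L0 + c * ε) := by field_simp
  have hlim : G (w0 : ℂ) ≤ 0 := by
    have t1 : Tendsto (fun ε : ℝ => G (w0 + ε * Complex.I)) (𝓝[>] 0) (𝓝 (G w0)) := by
      have : Continuous fun ε : ℝ => G ((w0 : ℂ) + ε * Complex.I) := hGc.comp (by fun_prop)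
      have h2 := this.tendsto 0
      simp only [Complex.ofReal_zero, zero_mul, add_zero] at h2
      exact h2.mono_left nhdsWithin_le_nhds
    have t2 : Tendsto (fun ε : ℝ => A / c * ε * (L0 + c * ε)) (𝓝[>] 0) (𝓝 0) := by
      have : Continuous fun ε : ℝ => A / c * ε * (L0 + c * ε) := by fun_prop
      have h2 := this.tendsto 0
      simp only [mul_zero, zero_mul] at h2
      exact h2.mono_left nhdsWithin_le_nhds
    exact le_of_tendsto_of_tendsto t1 t2 hbound
  have hGeq : G (w0 : ℂ) = ∫ x in cell, ‖pU x w0 - pL x w0‖ ^ 2 := by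
    simp only [hG, Complex.conj_ofReal]
  have hcontF : Continuous fun x => ‖pU x w0 - pL x w0‖ ^ 2 := ((cU w0).sub (cL w0)).norm.pow 2
  have hint : ∫ x in cell, ‖pU x w0 - pL x w0‖ ^ 2 = 0 := by
    refine le_antisymm (hGeq ▸ hlim) (integral_nonneg fun x => by positivity)
  have h0 := zero_of_int hcontF
    (fun x k => by
      have a1 := hU.per w0 x k
      have a2 := hL.per w0 x k
      simp only at a1 a2
      simp only [a1, a2])
    (fun x => by positivity) hint x
  have h1 : ‖pU x w0 - pL x w0‖ = 0 := by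
    have := pow_eq_zero_iff (two_ne_zero) |>.1 h0
    exact this
  exact sub_eq_zero.1 (norm_eq_zero.1 h1)

end Pool.W4b1b5d.H34
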