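import Pool.Agent.W_4b1b5d_h34.Hol
import Pool.Agent.W_4b1b5d_h66.SHLocC

/-!
# Algebra for the nonreal labels
-/

set_option autoImplicit false

open MeasureTheory Set Filter Topology
open Pool.W4b1b5d.H3 Pool.W4b1b5d.SH
open scoped ComplexConjugate

namespace Pool.W4b1b5d.H34

/-- `al 0 * conj (al 1) - al 1 * conj (al 0)`, purely imaginary. -/
noncomputable def Dl (al : Fin 2 → ℂ) : ℂ := al 0 * conj (al 1) - al 1 * conj (al 0)

theorem Dl_re (al : Fin 2 → ℂ) : (Dl al).re = 0 := by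
  simp [Dl]
  ring

theorem Dl_ne {al : Fin 2 → ℂ} (hal : ((starRingEnd ℂ) (al 0) * al 1).im ≠ 0) : Dl al ≠ 0 := by
  intro h
  apply hal
  have h1 := congrArg Complex.im h
  simp only [Dl, Complex.sub_im, Complex.mul_im, Complex.conj_re, Complex.conj_im,
    Complex.zero_im] at h1 ⊢
  linarith

theorem cov_sub (al : Fin 2 → ℂ) (P Q P' Q' : ℂ) :
    cov al P Q - cov al P' Q' = cov al (P - P') (Q - Q') := by
  funext i
  fin_cases i
  · simp only [cov, Pi.sub_apply]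
    simp
    ring
  · simp only [cov, Pi.sub_apply]
    simp
    ring

theorem cov_conj (al : Fin 2 → ℂ) (P Q : ℂ) :
    (fun i => conj (cov al P Q i)) = cov al (conj Q) (conj P) := by
  have hD : conj (al 0 * conj (al 1) - al 1 * conj (al 0)) =
      - (al 0 * conj (al 1) - al 1 * conj (al 0)) := by
    simp only [map_sub, map_mul, Complex.conj_conj]
    ring
  funext i
  fin_cases i
  · change conj ((conj (al 1) * P - al 1 * Q) / (al 0 * conj (al 1) - al 1 * conj (al 0))) =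
      (conj (al 1) * conj Q - al 1 * conj P) / (al 0 * conj (al 1) - al 1 * conj (al 0))
    rw [map_div₀, hD, div_neg, ← neg_div]
    congr 1
    simp only [map_sub, map_mul, Complex.conj_conj]
    ring
  · change conj ((al 0 * Q - conj (al 0) * P) / (al 0 * conj (al 1) - al 1 * conj (al 0))) =
      (al 0 * conj P - conj (al 0) * conj Q) / (al 0 * conj (al 1) - al 1 * conj (al 0))
    rw [map_div₀, hD, div_neg, ← neg_div]
    congr 1
    simp only [map_sub, map_mul, Complex.conj_conj]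
    ring

theorem cov_wedge {al : Fin 2 → ℂ} (hal : ((starRingEnd ℂ) (al 0) * al 1).im ≠ 0)
    (P Q P' Q' : ℂ) :
    cov al P Q 0 * cov al P' Q' 1 - cov al P Q 1 * cov al P' Q' 0 = (P * Q' - Q * P') / Dl al := by
  have hD := Dl_ne hal
  change (conj (al 1) * P - al 1 * Q) / Dl al * ((al 0 * Q' - conj (al 0) * P') / Dl al) -
    (al 0 * Q - conj (al 0) * P) / Dl al * ((conj (al 1) * P' - al 1 * Q') / Dl al) = _
  have h1 : (P * Q' - Q * P') * Dl al = (conj (al 1) * P - al 1 * Q) * (al 0 * Q' - conj (al 0) * P')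
      - (al 0 * Q - conj (al 0) * P) * (conj (al 1) * P' - al 1 * Q') := by
    unfold Dl
    ring
  generalize Dl al = D at hD h1 ⊢
  field_simp
  linear_combination -h1

theorem cov_cont (al : Fin 2 → ℂ) : Continuous fun z : ℂ × ℂ => cov al z.1 z.2 := by
  refine continuous_pi fun i => ?_
  fin_cases i
  · simp only [cov, Fin.zero_eta, Matrix.cons_val_zero, Fin.isValue]
    fun_prop
  · simp only [cov, Fin.mk_one, Matrix.cons_val_one, Fin.isValue]
    fun_prop

/-- The defect. -/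
noncomputable def Nf (l : ℝ) (P P' : ℂ) : ℝ := ‖P - P'‖ ^ 2 - ‖(l : ℂ) / P - (l : ℂ) / P'‖ ^ 2

theorem Nf_eq {l : ℝ} {P P' : ℂ} (hP : P ≠ 0) (hP' : P' ≠ 0) :
    Nf l P P' = ‖P - P'‖ ^ 2 * (1 - l ^ 2 / (‖P‖ ^ 2 * ‖P'‖ ^ 2)) := by
  have h1 : (l : ℂ) / P - (l : ℂ) / P' = l * (P' - P) / (P * P') := by
    field_simp
  unfold Nf
  rw [h1, norm_div, norm_mul, norm_mul, Complex.norm_real, Real.norm_eq_abs, norm_sub_rev P' P,
    div_pow, mul_pow, mul_pow, sq_abs]
  have a1 : ‖P‖ ^ 2 ≠ 0 := by simpa using hP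
  have a2 : ‖P'‖ ^ 2 ≠ 0 := by simpa using hP'
  field_simp

theorem Nf_lower {l e L : ℝ} {P P' : ℂ} (hl : 0 < l) (hlL : l ≤ L) (he : 0 ≤ e)
    (hP : l + e ≤ ‖P‖ ^ 2) (hP' : l + e ≤ ‖P'‖ ^ 2) :
    e / (L + e) * ‖P - P'‖ ^ 2 ≤ Nf l P P' := by
  have hP0 : P ≠ 0 := by
    rintro rfl
    simp at hP
    linarith
  have hP0' : P' ≠ 0 := by
    rintro rfl
    simp at hP'
    linarith
  rw [Nf_eq hP0 hP0', mul_comm]
  refine mul_le_mul_of_nonneg_left ?_ (sq_nonneg _)
  have h1 : (l + e) * (l + e) ≤ ‖P‖ ^ 2 * ‖P'‖ ^ 2 := mul_le_mul hP hP' (by linarith) (sq_nonneg _)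
  have h2 : l ^ 2 / (‖P‖ ^ 2 * ‖P'‖ ^ 2) ≤ l ^ 2 / ((l + e) * (l + e)) :=
    div_le_div_of_nonneg_left (sq_nonneg l) (by positivity) h1
  have h3 : l ^ 2 / ((l + e) * (l + e)) ≤ l / (l + e) := by
    rw [div_le_div_iff₀ (by positivity) (by positivity)]
    nlinarith [mul_pos hl hl, mul_nonneg hl.le he]
  have h4 : e / (L + e) ≤ e / (l + e) := div_le_div_of_nonneg_left he (by positivity) (by linarith)
  have h5 : e / (l + e) = 1 - l / (l + e) := by
    have : l + e ≠ 0 := by positivity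
    field_simp
    ring
  linarith

theorem Nf_nonneg {l : ℝ} {P P' : ℂ} (hl : 0 < l) (hP : l ≤ ‖P‖ ^ 2) (hP' : l ≤ ‖P'‖ ^ 2) :
    0 ≤ Nf l P P' := by
  have := Nf_lower (e := 0) (L := l) hl le_rfl le_rfl (by simpa using hP) (by simpa using hP')
  simpa using this

theorem Nf_zero {l : ℝ} {P P' : ℂ} (hl : 0 < l) (hP : l ≤ ‖P‖ ^ 2) (hP' : l ≤ ‖P'‖ ^ 2)
    (h : Nf l P P' = 0) : P = P' ∨ (‖P‖ ^ 2 = l ∧ ‖P'‖ ^ 2 = l) := by
  have hP0 : P ≠ 0 := by
    rintro rfl
    simp at hP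
    linarith
  have hP0' : P' ≠ 0 := by
    rintro rfl
    simp at hP'
    linarith
  rw [Nf_eq hP0 hP0'] at h
  rcases mul_eq_zero.1 h with h1 | h1
  · left
    rw [sq_eq_zero_iff, norm_eq_zero, sub_eq_zero] at h1
    exact h1
  · right
    have hpos : 0 < ‖P‖ ^ 2 * ‖P'‖ ^ 2 := by positivity
    have h2 : l ^ 2 = ‖P‖ ^ 2 * ‖P'‖ ^ 2 := by
      have : l ^ 2 / (‖P‖ ^ 2 * ‖P'‖ ^ 2) = 1 := by linarith
      rwa [div_eq_one_iff_eq hpos.ne'] at this
    constructor
    · nlinarith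
    · nlinarith

/-- Algebra of Step 2. -/
theorem step2_alg {g : V2} (hg : g ≠ 0) {Pi R : Fin 2 → ℂ} (hR : (g 0 : ℂ) * R 0 + g 1 * R 1 = 0)
    (h1 : (Pi 0 - R 0) * conj (Pi 1 - R 1) - (Pi 1 - R 1) * conj (Pi 0 - R 0) =
      Pi 0 * conj (Pi 1) - Pi 1 * conj (Pi 0))
    (h2 : (Pi 0 * (Pi 1 - R 1) - Pi 1 * (Pi 0 - R 0)).im = 0)
    (h3 : (((g 0 : ℂ) * Pi 0 + g 1 * Pi 1) ^ 2).im ≠ 0) : R = 0 := by
  obtain ⟨c, hc0, hc1⟩ : ∃ c : ℂ, R 0 = c * g 1 ∧ R 1 = -c * g 0 := by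
    by_cases hg1 : g 1 = 0
    · have hg0 : g 0 ≠ 0 := by
        intro h
        apply hg
        funext i
        fin_cases i
        · exact h
        · exact hg1
      have hg0' : (g 0 : ℂ) ≠ 0 := by exact_mod_cast hg0
      rw [hg1] at hR
      simp only [Complex.ofReal_zero, zero_mul, add_zero, mul_eq_zero, hg0', false_or] at hR
      refine ⟨-(R 1) / g 0, ?_, ?_⟩
      · rw [hR, hg1]
        simp
      · field_simp
    · have hg1' : (g 1 : ℂ) ≠ 0 := by exact_mod_cast hg1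
      refine ⟨R 0 / g 1, ?_, ?_⟩
      · field_simp
      · field_simp
        linear_combination hR
  set q := (g 0 : ℂ) * Pi 0 + g 1 * Pi 1 with hq
  have k2 : (c * q).im = 0 := by
    have : Pi 0 * (Pi 1 - R 1) - Pi 1 * (Pi 0 - R 0) = c * q := by
      rw [hc0, hc1, hq]
      ring
    rw [← this]
    exact h2
  have k1 : conj c * q - c * conj q = 0 := by
    have e1 : conj (Pi 1 - R 1) = conj (Pi 1) + conj c * g 0 := by
      rw [hc1]
      simp
    have e2 : conj (Pi 0 - R 0) = conj (Pi 0) - conj c * g 1 := by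
      rw [hc0]
      simp
    have e3 : conj q = g 0 * conj (Pi 0) + g 1 * conj (Pi 1) := by
      rw [hq]
      simp
    rw [e1, e2, hc0, hc1] at h1
    rw [e3, hq]
    linear_combination h1
  by_cases hc : c = 0
  · funext i
    fin_cases i
    · simp [hc0, hc]
    · simp [hc1, hc]
  · exfalso
    apply h3
    have k3 : (conj c * q).im = 0 := by
      have h4 : conj c * q = conj (conj c * q) := by
        rw [map_mul, Complex.conj_conj]
        exact sub_eq_zero.1 k1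
      have h5 := Complex.conj_eq_iff_im.1 h4.symm
      exact h5
    have k4 : ((c * q) * (conj c * q)).im = 0 := by
      rw [Complex.mul_im, k2, k3]
      ring
    have k5 : (c * q) * (conj c * q) = ((‖c‖ ^ 2 : ℝ) : ℂ) * q ^ 2 := by
      have : c * conj c = ((‖c‖ ^ 2 : ℝ) : ℂ) := by
        rw [Complex.mul_conj, Complex.normSq_eq_norm_sq]
      rw [← this]
      ring
    rw [k5, Complex.im_ofReal_mul] at k4
    rcases mul_eq_zero.1 k4 with h | h
    · exfalso
      apply hc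
      simpa using h
    · exact h

end Pool.W4b1b5d.H34
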