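import Pool.Agent.W_4b1b5d_h34.NonRealA

/-!
# Lemmas for the nonreal labels
-/

set_option autoImplicit false

open MeasureTheory Set Filter Topology
open Pool.W4b1b5d.H3 Pool.W4b1b5d.SH
open scoped ComplexConjugate

namespace Pool.W4b1b5d.H34

/-- A continuous real function without zero on `[0,1]` has constant sign. -/
theorem sign_const {f : ℝ → ℝ} (hf : ContinuousOn f (Icc 0 1)) (hne : ∀ r ∈ Icc (0 : ℝ) 1, f r ≠ 0) :
    (∀ r ∈ Icc (0 : ℝ) 1, 0 < f r) ∨ ∀ r ∈ Icc (0 : ℝ) 1, f r < 0 := by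
  by_contra hcon
  push Not at hcon
  obtain ⟨⟨a, ha, hfa⟩, b, hb, hfb⟩ := hcon
  have := (isPreconnected_Icc (a := (0 : ℝ)) (b := 1)).intermediate_value ha hb hf
  obtain ⟨c, hc, hfc⟩ := this ⟨hfa, hfb⟩
  exact hne c hc hfc

theorem int_pos {f : ℝ → ℝ} (hf : ContinuousOn f (Icc 0 1)) (hp : ∀ r ∈ Icc (0 : ℝ) 1, 0 < f r) :
    0 < ∫ r in (0 : ℝ)..1, f r := by
  refine intervalIntegral.intervalIntegral_pos_of_pos_on ?_ (fun r hr => hp r (Ioo_subset_Icc_self hr))
    zero_lt_one
  exact (hf.mono (by rw [uIcc_of_le zero_le_one])).intervalIntegrable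

/-- The quadrant lemma. -/
theorem quadrant {s : ℝ → ℂ} (hs : ContinuousOn s (Icc 0 1)) {σ : ℝ}
    (h : ∀ r ∈ Icc (0 : ℝ) 1, 0 < σ * ((s r) ^ 2).im) :
    0 < σ * ((∫ r in (0 : ℝ)..1, s r) ^ 2).im := by
  have hre : ContinuousOn (fun r => (s r).re) (Icc 0 1) := Complex.continuous_re.comp_continuousOn hs
  have him : ContinuousOn (fun r => σ * (s r).im) (Icc 0 1) :=
    continuousOn_const.mul (Complex.continuous_im.comp_continuousOn hs)
  have hint : IntervalIntegrable s volume 0 1 :=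
    (hs.mono (by rw [uIcc_of_le zero_le_one])).intervalIntegrable
  have e1 : (∫ r in (0 : ℝ)..1, s r).re = ∫ r in (0 : ℝ)..1, (s r).re := by
    have := Complex.reCLM.intervalIntegral_comp_comm hint
    exact this.symm
  have e2 : σ * (∫ r in (0 : ℝ)..1, s r).im = ∫ r in (0 : ℝ)..1, σ * (s r).im := by
    rw [intervalIntegral.integral_const_mul]
    have := Complex.imCLM.intervalIntegral_comp_comm hint
    congr 1
    exact this.symm
  have key : ∀ z : ℂ, σ * (z ^ 2).im = 2 * (z.re * (σ * z.im)) := by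
    intro z
    rw [sq, Complex.mul_im]
    ring
  have hprod : ∀ r ∈ Icc (0 : ℝ) 1, 0 < (s r).re * (σ * (s r).im) := by
    intro r hr
    have := h r hr
    rw [key] at this
    linarith
  rw [key, e1, e2]
  have hne : ∀ r ∈ Icc (0 : ℝ) 1, (s r).re ≠ 0 := fun r hr h0 => by
    have := hprod r hr
    rw [h0, zero_mul] at this
    exact lt_irrefl _ this
  rcases sign_const hre hne with h1 | h1
  · have h2 : ∀ r ∈ Icc (0 : ℝ) 1, 0 < σ * (s r).im := fun r hr =>
      (mul_pos_iff_of_pos_left (h1 r hr)).1 (hprod r hr)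
    have := mul_pos (int_pos hre h1) (int_pos him h2)
    linarith
  · have h1' : ∀ r ∈ Icc (0 : ℝ) 1, 0 < -(s r).re := fun r hr => neg_pos.2 (h1 r hr)
    have h2 : ∀ r ∈ Icc (0 : ℝ) 1, 0 < -(σ * (s r).im) := fun r hr => by
      have := hprod r hr
      have h3 := h1 r hr
      by_contra h4
      push Not at h4
      nlinarith
    have := mul_pos (int_pos hre.neg h1') (int_pos him.neg h2)
    simp only [Pi.neg_apply] at this
    rw [intervalIntegral.integral_neg, intervalIntegral.integral_neg] at this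
    linarith

/-- The mean of a closed form along a period is the integral over a segment. -/
theorem mn_seg {a : V2 → Fin 2 → ℂ} (ha : CForm a) (k : Fin 2 → ℤ) (x : V2) :
    cl (mn a) (fun i => (k i : ℝ)) = ∫ s in (0 : ℝ)..1,
      cl (a (x + s • (fun i => (k i : ℝ)))) (fun i => (k i : ℝ)) := by
  obtain ⟨psi, hpsi⟩ := ha.prim
  obtain ⟨P, hPper, hPc, hP⟩ := ha.exists_per
  set g : V2 := fun i => (k i : ℝ) with hg
  have h1 := seg_prim (a := fun x => a x - mn a) (ha.cont.sub continuous_const) hP x (x + g)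
  have h2 := seg_prim ha.cont hpsi x (x + g)
  rw [hPper x k, sub_self] at h1
  unfold seg at h1
  simp only [add_sub_cancel_left, cl_sub, sub_apply] at h1
  rw [intervalIntegral.integral_sub] at h1
  · simp only [intervalIntegral.integral_const, sub_zero, one_smul] at h1
    exact (sub_eq_zero.1 h1).symm
  · exact ((cl_cont.comp (ha.cont.comp (by fun_prop))).clm_apply continuous_const).intervalIntegrable
      _ _
  · exact continuous_const.intervalIntegrable _ _

/-- If a closed form vanishes on a connected open set `S` then its mean is bounded on `S`. -/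
theorem mn_bdd_on {r : V2 → Fin 2 → ℂ} (hr : CForm r) {S : Set V2} (hS : IsOpen S)
    (hSc : IsPreconnected S) (h0 : ∀ x ∈ S, r x = 0) : ∃ C : ℝ, ∀ x ∈ S, ‖cl (mn r) x‖ ≤ C := by
  obtain ⟨P, hPper, hPc, hP⟩ := hr.exists_per
  have hd : ∀ x, HasFDerivAt (fun x => P x + cl (mn r) x) (cl (r x - mn r) + cl (mn r)) x := fun x =>
    (hP x).add (cl (mn r)).hasFDerivAt
  obtain ⟨a, ha⟩ := hS.exists_is_const_of_fderiv_eq_zero hSc (𝕜 := ℝ)
    (f := fun x => P x + cl (mn r) x) (fun x _ => (hd x).differentiableAt.differentiableWithinAt)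
    (fun x hx => by
      rw [(hd x).fderiv, h0 x hx, cl_sub, sub_add_cancel]
      ext v
      simp [cl_apply])
  obtain ⟨M, hM⟩ := Grow_per_bdd hPc hPper
  refine ⟨‖a‖ + M, fun x hx => ?_⟩
  have h1 : cl (mn r) x = a - P x := by
    rw [← ha x hx]
    ring
  rw [h1]
  exact (norm_sub_le _ _).trans (by gcongr; exact hM x)

/-- The form of a section. -/
noncomputable def sf (al : Fin 2 → ℂ) (l : V2 → ℝ) (p : V2 → ℂ) (x : V2) : Fin 2 → ℂ :=
  cov al (p x) ((l x : ℂ) / p x)

theorem mn_wedge_conj {al : Fin 2 → ℂ} (hal : ((starRingEnd ℂ) (al 0) * al 1).im ≠ 0) {l : V2 → ℝ}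
    {p p' : V2 → ℂ} (h : CForm (sf al l p)) (h' : CForm (sf al l p')) :
    ((∫ x in cell, Nf (l x) (p x) (p' x) : ℝ) : ℂ) =
      Dl al * ((mn (sf al l p) - mn (sf al l p')) 0 * conj ((mn (sf al l p) - mn (sf al l p')) 1) -
        (mn (sf al l p) - mn (sf al l p')) 1 * conj ((mn (sf al l p) - mn (sf al l p')) 0)) := by
  have hD := Dl_ne hal
  have hr := h.sub h'
  have hp := pairing hr hr.conj
  rw [mn_conj, mn_sub h h'] at hp
  rw [← hp]
  have e : ∀ x, (sf al l p x - sf al l p' x) 0 * conj ((sf al l p x - sf al l p' x) 1) -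
      (sf al l p x - sf al l p' x) 1 * conj ((sf al l p x - sf al l p' x) 0) =
      ((Nf (l x) (p x) (p' x) : ℝ) : ℂ) / Dl al := by
    intro x
    have h1 : sf al l p x - sf al l p' x =
        cov al (p x - p' x) ((l x : ℂ) / p x - (l x : ℂ) / p' x) := cov_sub _ _ _ _ _
    have h2 := cov_conj al (p x - p' x) ((l x : ℂ) / p x - (l x : ℂ) / p' x)
    have h3 : ∀ i, conj (cov al (p x - p' x) ((l x : ℂ) / p x - (l x : ℂ) / p' x) i) =
        cov al (conj ((l x : ℂ) / p x - (l x : ℂ) / p' x)) (conj (p x - p' x)) i := fun i =>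
      congrFun h2 i
    rw [h1, h3, h3, cov_wedge hal, Complex.mul_conj, Complex.mul_conj, Complex.normSq_eq_norm_sq,
      Complex.normSq_eq_norm_sq]
    unfold Nf
    push_cast
    rfl
  simp only [e]
  rw [integral_div, integral_complex_ofReal]
  field_simp

end Pool.W4b1b5d.H34
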