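import Pool.Agent.W_4b1b5d_h34.NonRealB
import Pool.Agent.W_4b1b5d_h34.Painleve

/-!
# Steps 1 and 2 for the nonreal labels
-/

set_option autoImplicit false

open MeasureTheory Set Filter Topology
open Pool.W4b1b5d.H3 Pool.W4b1b5d.SH
open scoped ComplexConjugate

namespace Pool.W4b1b5d.H34

/-- A globally continuous family of sections, holomorphic in the half box on the side `s`. -/
structure GFam (al : Fin 2 → ℂ) (l : V2 → ℝ) (s w0 δ c : ℝ) (p : V2 → ℂ → ℂ) : Prop where
  cont : Continuous (fun z : V2 × ℂ => p z.1 z.2)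
  form : ∀ v, CForm (sf al l fun x => p x v)
  hol : ∀ x v, |v.re - w0| < δ → 0 < s * v.im → s * v.im < δ → DifferentiableAt ℂ (p x) v
  pos : ∀ x v, l x ≤ ‖p x v‖ ^ 2
  low : ∀ x v, |v.re - w0| < δ → 0 ≤ s * v.im → s * v.im < δ → l x + c * (s * v.im) ≤ ‖p x v‖ ^ 2
  per : ∀ v, Per fun x => p x v

section

variable {al : Fin 2 → ℂ} {l : V2 → ℝ} {s w0 δ c : ℝ} {p : V2 → ℂ → ℂ}

theorem GFam.ne (h : GFam al l s w0 δ c p) (hl : ∀ x, 0 < l x) (x : V2) (v : ℂ) : p x v ≠ 0 := by
  intro h0
  have := h.pos x v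
  rw [h0] at this
  simp at this
  linarith [hl x]

theorem GFam.cont_sf (h : GFam al l s w0 δ c p) (hlc : Continuous l) (hl : ∀ x, 0 < l x) :
    Continuous fun z : V2 × ℂ => sf al l (fun x => p x z.2) z.1 := by
  have h1 : Continuous fun z : V2 × ℂ => (l z.1 : ℂ) / p z.1 z.2 :=
    (Complex.continuous_ofReal.comp (hlc.comp continuous_fst)).div h.cont fun z => h.ne hl _ _
  exact (cov_cont al).comp (h.cont.prodMk h1)

/-- The mean as a function of the parameter. -/
noncomputable def MM (al : Fin 2 → ℂ) (l : V2 → ℝ) (p : V2 → ℂ → ℂ) (v : ℂ) : Fin 2 → ℂ :=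
  mn (sf al l fun x => p x v)

theorem GFam.cont_MM (h : GFam al l s w0 δ c p) (hlc : Continuous l) (hl : ∀ x, 0 < l x)
    (i : Fin 2) : Continuous fun v => MM al l p v i :=
  cont_int (F := fun x v => sf al l (fun x => p x v) x i)
    ((continuous_apply i).comp (h.cont_sf hlc hl))

theorem GFam.hol_MM (h : GFam al l s w0 δ c p) (hlc : Continuous l) (hl : ∀ x, 0 < l x)
    (i : Fin 2) {v : ℂ} (h1 : |v.re - w0| < δ) (h2 : 0 < s * v.im) (h3 : s * v.im < δ) :
    DifferentiableAt ℂ (fun v => MM al l p v i) v := by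
  have hO : IsOpen {v : ℂ | |v.re - w0| < δ ∧ 0 < s * v.im ∧ s * v.im < δ} := by
    have e : {v : ℂ | |v.re - w0| < δ ∧ 0 < s * v.im ∧ s * v.im < δ} =
        {v : ℂ | |v.re - w0| < δ} ∩ ({v : ℂ | 0 < s * v.im} ∩ {v : ℂ | s * v.im < δ}) := rfl
    rw [e]
    refine (isOpen_lt ?_ continuous_const).inter ((isOpen_lt continuous_const ?_).inter
      (isOpen_lt ?_ continuous_const))
    · exact (Complex.continuous_re.sub continuous_const).abs
    · exact continuous_const.mul Complex.continuous_im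
    · exact continuous_const.mul Complex.continuous_im
  refine hol_int (F := fun x v => sf al l (fun x => p x v) x i)
    ((continuous_apply i).comp (h.cont_sf hlc hl)) hO ?_ (v0 := v) ⟨h1, h2, h3⟩
  rintro x u ⟨hu1, hu2, hu3⟩
  have hp := h.hol x u hu1 hu2 hu3
  have hne := h.ne hl x u
  have hq : DifferentiableAt ℂ (fun v => (l x : ℂ) / p x v) u :=
    (differentiableAt_const _).div hp hne
  fin_cases i
  · change DifferentiableAt ℂ (fun v => (conj (al 1) * p x v - al 1 * ((l x : ℂ) / p x v)) /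
      (al 0 * conj (al 1) - al 1 * conj (al 0))) u
    exact ((hp.const_mul _).sub (hq.const_mul _)).div_const _
  · change DifferentiableAt ℂ (fun v => (al 0 * ((l x : ℂ) / p x v) - conj (al 0) * p x v) /
      (al 0 * conj (al 1) - al 1 * conj (al 0))) u
    exact ((hq.const_mul _).sub (hp.const_mul _)).div_const _

theorem Nf_cont {p p' : V2 → ℂ} (hlc : Continuous l) (hp : Continuous p) (hp' : Continuous p')
    (hne : ∀ x, p x ≠ 0) (hne' : ∀ x, p' x ≠ 0) : Continuous fun x => Nf (l x) (p x) (p' x) := by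
  have hlC : Continuous fun x => (l x : ℂ) := Complex.continuous_ofReal.comp hlc
  exact ((hp.sub hp').norm.pow 2).sub (((hlC.div hp hne).sub (hlC.div hp' hne')).norm.pow 2)

theorem Nf_per {p p' : V2 → ℂ} (hlper : Per l) (hp : Per p) (hp' : Per p') :
    Per fun x => Nf (l x) (p x) (p' x) := by
  intro x k
  simp only [hlper x k, hp x k, hp' x k]

/-- Step 1. -/
theorem step1 (hal : ((starRingEnd ℂ) (al 0) * al 1).im ≠ 0) (hlc : Continuous l) (hlper : Per l)
    (hl : ∀ x, 0 < l x) {p p' : V2 → ℂ} (hp : Continuous p) (hp' : Continuous p') (hpper : Per p)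
    (hpper' : Per p') (h : CForm (sf al l p)) (h' : CForm (sf al l p'))
    (hpos : ∀ x, l x ≤ ‖p x‖ ^ 2) (hpos' : ∀ x, l x ≤ ‖p' x‖ ^ 2)
    (hR : (mn (sf al l p) - mn (sf al l p')) 0 * conj ((mn (sf al l p) - mn (sf al l p')) 1) -
        (mn (sf al l p) - mn (sf al l p')) 1 * conj ((mn (sf al l p) - mn (sf al l p')) 0) = 0)
    (x : V2) : p x = p' x ∨ (‖p x‖ ^ 2 = l x ∧ ‖p' x‖ ^ 2 = l x) := by
  have hne : ∀ x, p x ≠ 0 := by
    intro x h0
    have := hpos x
    rw [h0] at this
    simp at this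
    linarith [hl x]
  have hne' : ∀ x, p' x ≠ 0 := by
    intro x h0
    have := hpos' x
    rw [h0] at this
    simp at this
    linarith [hl x]
  have h1 := mn_wedge_conj hal h h'
  rw [hR, mul_zero] at h1
  have h2 : ∫ x in cell, Nf (l x) (p x) (p' x) = 0 := by exact_mod_cast h1
  have h3 := zero_of_int (Nf_cont hlc hp hp' hne hne') (Nf_per hlper hpper hpper')
    (fun x => Nf_nonneg (hl x) (hpos x) (hpos' x)) h2 x
  exact Nf_zero (hl x) (hpos x) (hpos' x) h3

/-- Step 2. -/
theorem step2 (hal : ((starRingEnd ℂ) (al 0) * al 1).im ≠ 0) {p p' : V2 → ℂ}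
    (hl : ∀ x, 0 < l x) (hpos : ∀ x, l x ≤ ‖p x‖ ^ 2) (hpos' : ∀ x, l x ≤ ‖p' x‖ ^ 2)
    (h : CForm (sf al l p)) (h' : CForm (sf al l p'))
    (h1 : ∀ x, p x = p' x ∨ (‖p x‖ ^ 2 = l x ∧ ‖p' x‖ ^ 2 = l x)) {g : V2} (hg : g ≠ 0)
    (hR : cl (mn (sf al l p) - mn (sf al l p')) g = 0)
    (hq : ((cl (mn (sf al l p)) g) ^ 2).im ≠ 0) : mn (sf al l p) - mn (sf al l p') = 0 := by
  have hD := Dl_ne hal
  have hne : ∀ x, p x ≠ 0 := by
    intro x h0
    have := hpos x
    rw [h0] at this
    simp at this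
    linarith [hl x]
  have hne' : ∀ x, p' x ≠ 0 := by
    intro x h0
    have := hpos' x
    rw [h0] at this
    simp at this
    linarith [hl x]
  refine step2_alg hg (Pi := mn (sf al l p)) (by rw [← cl_apply]; exact hR) ?_ ?_
    (by rw [← cl_apply]; exact hq)
  · -- `p ∧ conj p` is the same for both
    have e0 : ∀ i, mn (sf al l p) i - (mn (sf al l p) - mn (sf al l p')) i = mn (sf al l p') i := by
      intro i
      simp
    simp only [e0]
    have k1 := pairing h h.conj
    have k2 := pairing h' h'.conj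
    rw [mn_conj] at k1 k2
    rw [← k1, ← k2]
    refine setIntegral_congr_fun cell_meas fun x _ => ?_
    have key : ∀ p : V2 → ℂ, sf al l p x 0 * conj (sf al l p x 1) -
        sf al l p x 1 * conj (sf al l p x 0) =
        (((‖p x‖ ^ 2 - ‖(l x : ℂ) / p x‖ ^ 2 : ℝ)) : ℂ) / Dl al := by
      intro p
      have h3 : ∀ i, conj (cov al (p x) ((l x : ℂ) / p x) i) =
          cov al (conj ((l x : ℂ) / p x)) (conj (p x)) i := fun i =>
        congrFun (cov_conj al (p x) ((l x : ℂ) / p x)) i
      unfold sf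
      rw [h3, h3, cov_wedge hal, Complex.mul_conj, Complex.mul_conj, Complex.normSq_eq_norm_sq,
        Complex.normSq_eq_norm_sq]
      push_cast
      rfl
    simp only [key]
    rcases h1 x with h4 | ⟨h4, h5⟩
    · rw [h4]
    · congr 2
      rw [norm_div, norm_div, div_pow, div_pow, h4, h5]
  · have e0 : ∀ i, mn (sf al l p) i - (mn (sf al l p) - mn (sf al l p')) i = mn (sf al l p') i := by
      intro i
      simp
    simp only [e0]
    have k1 := pairing h h'
    rw [← k1]
    have hcont : Continuous fun x => sf al l p x 0 * sf al l p' x 1 - sf al l p x 1 * sf al l p' x 0 :=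
      (((continuous_pi_iff.1 h.cont) 0).mul ((continuous_pi_iff.1 h'.cont) 1)).sub
        (((continuous_pi_iff.1 h.cont) 1).mul ((continuous_pi_iff.1 h'.cont) 0))
    have e1 : (∫ x in cell, (sf al l p x 0 * sf al l p' x 1 - sf al l p x 1 * sf al l p' x 0)).im =
        ∫ x in cell, (sf al l p x 0 * sf al l p' x 1 - sf al l p x 1 * sf al l p' x 0).im :=
      (Complex.imCLM.integral_comp_comm (cont_intCell hcont)).symm
    rw [e1]
    have e2 : ∀ x, (sf al l p x 0 * sf al l p' x 1 - sf al l p x 1 * sf al l p' x 0).im = 0 := by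
      intro x
      unfold sf
      rw [cov_wedge hal]
      rcases h1 x with h4 | ⟨h4, h5⟩
      · rw [h4, mul_comm (p' x), sub_self, zero_div, Complex.zero_im]
      · have a1 : (l x : ℂ) / p x = conj (p x) := by
          rw [div_eq_iff (hne x), mul_comm, Complex.mul_conj, Complex.normSq_eq_norm_sq, h4]
        have a2 : (l x : ℂ) / p' x = conj (p' x) := by
          rw [div_eq_iff (hne' x), mul_comm, Complex.mul_conj, Complex.normSq_eq_norm_sq, h5]
        rw [a1, a2]
        have hDr := Dl_re al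
        have b1 : conj ((p x * conj (p' x) - conj (p x) * p' x) / Dl al) =
            (p x * conj (p' x) - conj (p x) * p' x) / Dl al := by
          have b2 : conj (Dl al) = - Dl al := by
            apply Complex.ext
            · simp [hDr]
            · simp
          rw [map_div₀, b2]
          simp only [map_sub, map_mul, Complex.conj_conj]
          rw [div_neg, ← neg_div]
          congr 1
          ring
        exact Complex.conj_eq_iff_im.1 b1
    simp only [e2, integral_zero]

end

end Pool.W4b1b5d.H34
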