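import Pool.Agent.W_4b1b5d_h34.ShFam
import Pool.Agent.W_4b1b5d_h33.ExtA

/-!
# Nonreal labels for the sheets
-/

set_option autoImplicit false

open MeasureTheory Set Filter Topology
open Pool.W4b1b5d.H3 Pool.W4b1b5d.SH Pool.W4b1b5d.H33
open scoped ComplexConjugate

namespace Pool.W4b1b5d.H34

/-- The complex coordinate of a real vector: `cov al P Q · v = P om v + Q conj (om v)`. -/
noncomputable def om (al : Fin 2 → ℂ) (v : V2) : ℂ :=
  (conj (al 1) * v 0 - conj (al 0) * v 1) / (al 0 * conj (al 1) - al 1 * conj (al 0))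

theorem cl_cov (al : Fin 2 → ℂ) (P Q : ℂ) (v : V2) :
    cl (cov al P Q) v = P * om al v + Q * conj (om al v) := by
  have hD : conj (al 0 * conj (al 1) - al 1 * conj (al 0)) =
      - (al 0 * conj (al 1) - al 1 * conj (al 0)) := by
    simp only [map_sub, map_mul, Complex.conj_conj]
    ring
  rw [cl_apply]
  change (v 0 : ℂ) * ((conj (al 1) * P - al 1 * Q) / (al 0 * conj (al 1) - al 1 * conj (al 0))) +
    (v 1 : ℂ) * ((al 0 * Q - conj (al 0) * P) / (al 0 * conj (al 1) - al 1 * conj (al 0))) = _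
  unfold om
  rw [map_div₀, hD]
  simp only [map_sub, map_mul, Complex.conj_conj, Complex.conj_ofReal]
  rw [div_neg]
  ring

/-- The dichotomy for the set `S` of a plateau structure. -/
def DH {D : PD} (p : PS D) : Prop :=
  (∀ d : V2 →ₗ[ℝ] ℝ, (∃ C : ℝ, ∀ x ∈ p.S, |d x| ≤ C) → d = 0) ∨
    ∃ (m : Fin 2 → ℤ) (c : ℝ), m ≠ 0 ∧ c ≠ 0 ∧ (om D.al (fun i => (m i : ℝ))) ^ 2 = c * p.k ∧
      (∃ x ∈ p.S, ∀ r : ℝ, x + r • (fun i => (m i : ℝ) : V2) ∈ p.S) ∧
      ∀ d : V2 →ₗ[ℝ] ℝ, (∃ C : ℝ, ∀ x ∈ p.S, |d x| ≤ C) → d (fun i => (m i : ℝ)) = 0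

theorem Us_convex (s τ : ℝ) : Convex ℝ (Us s τ) := by
  have h : Us s τ = (fun v : ℂ => s * v.im) ⁻¹' (Ico 0 τ) := rfl
  rw [h]
  refine (convex_Ico 0 τ).is_linear_preimage (f := fun v : ℂ => s * v.im) ⟨fun a b => ?_, fun c a => ?_⟩
  · simp only [Complex.add_im]
    ring
  · simp only [Complex.smul_im, smul_eq_mul]
    ring

theorem GFam.mono {al : Fin 2 → ℂ} {l : V2 → ℝ} {s w0 δ c c' : ℝ} {p : V2 → ℂ → ℂ}
    (h : GFam al l s w0 δ c p) (hcc : c' ≤ c) : GFam al l s w0 δ c' p := by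
  refine ⟨h.cont, h.form, h.hol, h.pos, fun x v h1 h2 h3 => ?_, h.per⟩
  have := h.low x v h1 h2 h3
  have h4 : c' * (s * v.im) ≤ c * (s * v.im) := mul_le_mul_of_nonneg_right hcc h2
  linarith

theorem real_Us (s : ℝ) {τ : ℝ} (hτ : 0 < τ) (w : ℝ) : (w : ℂ) ∈ Us s τ := by
  refine ⟨?_, ?_⟩
  · simp
  · simpa using hτ

/-- On `S` the derivative `R_Y` is `g'(kap) kap'`. -/
theorem PS_R1 {D : PD} (p : PS D) {x : V2} (hx : x ∈ p.S) {Y : ℂ} (hY : Y ≠ 0) :
    D.R 1 x Y = p.g.derivative.eval (kap p.k (D.l x) (p.w x) Y) *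
      (p.k - conj p.k * (D.l x : ℂ) ^ 2 / Y ^ 2) := by
  have h1 := D.R_hasDerivAt 0 x hY
  have h2 : HasDerivAt (fun y => p.g.eval (kap p.k (D.l x) (p.w x) y))
      (p.g.derivative.eval (kap p.k (D.l x) (p.w x) Y) *
        (p.k - conj p.k * (D.l x : ℂ) ^ 2 / Y ^ 2)) Y :=
    (p.g.hasDerivAt _).comp Y (kap_hasDerivAt p.k (D.l x) (p.w x) hY)
  have h3 : (fun y => p.g.eval (kap p.k (D.l x) (p.w x) y)) =ᶠ[𝓝 Y] fun y => D.R 0 x y := by
    filter_upwards [isOpen_ne.mem_nhds hY] with y hy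
    exact (p.str x hx y hy).symm
  exact h1.unique (h2.congr_of_eventuallyEq h3.symm)

/-- A point of `S` with nonreal label is off the circle. -/
theorem off_circle {D : PD} (p : PS D) {s τ : ℝ} (S : Sh D 2 s τ) (j : Fin S.n) {v : ℂ}
    (hv : v ∈ Us s τ) {x : V2} (hx : x ∈ p.S) (him : (p.lab S j v).im ≠ 0) :
    D.l x < ‖S.P j x v ^ 2‖ := by
  have h1 := S.le j x v hv
  rw [← norm_pow] at h1
  rcases h1.lt_or_eq with h | h
  · exact h
  · exfalso
    apply him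
    rw [← p.lab_all S j hv hx]
    exact kap_real (D.lpos x) h.symm

/-- Equality on `S` for real values near `w`. -/
theorem eq_on_S {D : PD} (p : PS D) {τ : ℝ} (hτ : 0 < τ) (hH : Ks 1 τ ⊆ D.H) (hH' : Ks (-1) τ ⊆ D.H)
    (S : Sh D 2 1 τ) (T : Sh D 2 (-1) τ) (j : Fin S.n) (w : ℝ) (him : (p.lab S j w).im ≠ 0)
    (hder : p.g.derivative.eval (p.lab S j w) ≠ 0) :
    ∃ i : Fin T.n, ∀ᶠ u : ℝ in 𝓝 w, (p.lab S j u).im ≠ 0 ∧ ∀ x ∈ p.S, S.P j x u = T.P i x u := by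
  have hwU := real_Us 1 hτ w
  obtain ⟨x0, hx0⟩ := p.Sne
  have hoff := off_circle p S j hwU hx0 him
  have hY0 : S.P j x0 w ^ 2 ≠ 0 := pow_ne_zero 2 (P_ne S j x0 hwU)
  have hR1 : D.R 1 x0 (S.P j x0 w ^ 2) ≠ 0 := by
    rw [PS_R1 p hx0 hY0]
    refine mul_ne_zero ?_ (kap_deriv_ne p.hk (D.lpos x0) hoff)
    rw [p.lab_all S j hwU hx0]
    exact hder
  obtain ⟨i, hi, -⟩ := Sh.glue (by norm_num) hτ hH hH' S T j x0 w (by rw [← norm_pow]; exact hoff) hR1
  refine ⟨i, ?_⟩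
  have h1 : ∀ᶠ u : ℝ in 𝓝 w, S.P j x0 u = T.P i x0 u := by
    have hc : Continuous fun u : ℝ => (x0, u) := Continuous.prodMk_right x0
    exact (hc.tendsto w).eventually hi
  have h2 : ∀ᶠ u : ℝ in 𝓝 w, (p.lab S j u).im ≠ 0 := by
    have hc : Continuous fun u : ℝ => p.lab S j u :=
      (p.lab_cont S j).comp_continuous Complex.continuous_ofReal fun u => real_Us 1 hτ u
    have hc2 : Continuous fun u : ℝ => (p.lab S j u).im := Complex.continuous_im.comp hc
    exact hc2.continuousAt.eventually_ne him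
  filter_upwards [h1, h2] with u hu1 hu2
  refine ⟨hu2, ?_⟩
  have huU := real_Us 1 hτ u
  have huU' := real_Us (-1) hτ u
  have hlab : p.lab T i u = p.lab S j u := by
    rw [← p.lab_all S j huU hx0, ← p.lab_all T i huU' hx0, hu1]
  have himT : (p.lab T i u).im ≠ 0 := by rw [hlab]; exact hu2
  have cS : Continuous fun x => S.P j x u :=
    (S.cont j).comp_continuous (Continuous.prodMk_left (u : ℂ)) fun x => ⟨mem_univ _, huU⟩
  have cT : Continuous fun x => T.P i x u :=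
    (T.cont i).comp_continuous (Continuous.prodMk_left (u : ℂ)) fun x => ⟨mem_univ _, huU'⟩
  have hsq : EqOn ((fun x => S.P j x u) ^ 2) ((fun x => T.P i x u) ^ 2) p.S := by
    intro x hx
    change S.P j x u ^ 2 = T.P i x u ^ 2
    refine kap_inj p.hk (D.lpos x) (off_circle p S j huU hx hu2).le
      (off_circle p T i huU' hx himT) (c := p.w x) ?_
    rw [p.lab_all S j huU hx, p.lab_all T i huU' hx, hlab]
  exact p.Sp.eq_of_sq_eq cS.continuousOn cT.continuousOn hsq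
    (fun {x} _ => P_ne T i x huU') hx0 hu1

/-- The sign condition along the line. -/
theorem line_sign {D : PD} (p : PS D) {s τ : ℝ} (S : Sh D 2 s τ) (j : Fin S.n) {u : ℂ}
    (hu : u ∈ Us s τ) (him : (p.lab S j u).im ≠ 0) {g : V2} {c : ℝ} (hc : c ≠ 0)
    (hg : (om D.al g) ^ 2 = c * p.k) {x : V2} (hx : x ∈ p.S) :
    0 < (c * (p.lab S j u).im) * ((cl (mom S j u x) g) ^ 2).im := by
  have hP := P_ne S j x hu
  have h1 : (cl (mom S j u x) g) ^ 2 = c * (p.lab S j u - p.w x) +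
      ((2 * D.l x * ‖om D.al g‖ ^ 2 : ℝ) : ℂ) := by
    unfold mom sf
    rw [cl_cov, ← p.lab_all S j hu hx]
    have hg2 : (conj (om D.al g)) ^ 2 = c * conj p.k := by
      rw [← map_pow, hg, map_mul, Complex.conj_ofReal]
    have hn : om D.al g * conj (om D.al g) = ((‖om D.al g‖ ^ 2 : ℝ) : ℂ) := by
      rw [Complex.mul_conj, Complex.normSq_eq_norm_sq]
    have e1 : (S.P j x u * om D.al g + (D.l x : ℂ) / S.P j x u * conj (om D.al g)) ^ 2 =
        S.P j x u ^ 2 * (om D.al g) ^ 2 + 2 * (D.l x : ℂ) * (om D.al g * conj (om D.al g)) +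
          (D.l x : ℂ) ^ 2 / S.P j x u ^ 2 * (conj (om D.al g)) ^ 2 := by
      field_simp
      ring
    rw [e1, hg, hg2, hn]
    unfold kap
    push_cast
    ring
  have h2 : ((cl (mom S j u x) g) ^ 2).im = c * (p.lab S j u).im := by
    rw [h1]
    simp only [Complex.add_im, Complex.ofReal_im, add_zero, Complex.im_ofReal_mul, Complex.sub_im,
      sub_zero]
  rw [h2]
  have h3 : c * (p.lab S j u).im ≠ 0 := mul_ne_zero hc him
  exact mul_self_pos.2 h3

/-- **Nonreal labels for the sheets.** -/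
theorem nrl {D : PD} (p : PS D) {τ : ℝ} (hτ : 0 < τ) (hH : Ks 1 τ ⊆ D.H) (hH' : Ks (-1) τ ⊆ D.H)
    (S : Sh D 2 1 τ) (T : Sh D 2 (-1) τ) (hdich : DH p) : NRL p S T := by
  intro j w him hder
  obtain ⟨i, hi⟩ := eq_on_S p hτ hH hH' S T j w him hder
  refine ⟨i, ?_⟩
  obtain ⟨ε, hε, hball⟩ := Metric.eventually_nhds_iff_ball.1 hi
  filter_upwards [Metric.ball_mem_nhds w (half_pos hε)] with w' hw' x
  rw [Metric.mem_ball, Real.dist_eq] at hw'
  set δ : ℝ := min (ε / 2) (τ / 2) with hδdef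
  have hδ : 0 < δ := lt_min (by positivity) (by positivity)
  have hδτ : δ < τ := (min_le_right _ _).trans_lt (by linarith)
  have hδε : δ ≤ ε / 2 := min_le_left _ _
  have hnear : ∀ u : ℝ, |u - w'| < δ → u ∈ Metric.ball w ε := by
    intro u hu
    rw [Metric.mem_ball, Real.dist_eq]
    have h1 : |u - w| ≤ |u - w'| + |w' - w| := abs_sub_le _ _ _
    linarith
  obtain ⟨c1, hc1, hU⟩ := sh_fam (Or.inl rfl) hH S j (w0 := w') hδ hδτ
  obtain ⟨c2, hc2, hL⟩ := sh_fam (Or.inr rfl) hH' T i (w0 := w') hδ hδτ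
  have hfix1 : ∀ u : ℝ, |u - w'| < δ → cB 1 w' δ (u : ℂ) = u := fun u hu =>
    cB_fix (Or.inl rfl) ⟨by simpa using hu.le, by simp, by simpa using hδ.le⟩
  have hfix2 : ∀ u : ℝ, |u - w'| < δ → cB (-1) w' δ (u : ℂ) = u := fun u hu =>
    cB_fix (Or.inr rfl) ⟨by simpa using hu.le, by simp, by simpa using hδ.le⟩
  have hw'0 : |w' - w'| < δ := by simpa using hδ
  have key := nonreal (c := min c1 c2) D.hal D.lsm.continuous D.lper D.lpos hδ (lt_min hc1 hc2)
    (hU.mono (min_le_left _ _)) (hL.mono (min_le_right _ _)) p.So p.Sp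
    (fun x hx u hu => by
      rw [hfix1 u hu, hfix2 u hu]
      exact (hball u (hnear u hu)).2 x hx)
    (by
      rcases hdich with hd | ⟨m, c, hm, hc, hom, ⟨y0, hy0, hline⟩, hd⟩
      · left
        intro d hdb
        have h1 := hd (d : V2 →ₗ[ℝ] ℝ) hdb
        ext v
        exact congrFun (congrArg DFunLike.coe h1) v
      · right
        refine ⟨m, hm, fun d hdb => hd (d : V2 →ₗ[ℝ] ℝ) hdb, fun u hu => ?_⟩
        refine ⟨c * (p.lab S j u).im, y0, fun r _ => ?_⟩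
        have h1 := line_sign p S j (real_Us 1 hτ u) (hball u (hnear u hu)).1 hc hom (hline r)
        have h2 : (fun x => S.P j x (cB 1 w' δ (u : ℂ))) = fun x => S.P j x u := by
          rw [hfix1 u hu]
        rw [h2]
        exact h1) x
  rw [hfix1 w' hw'0, hfix2 w' hw'0] at key
  exact key

end Pool.W4b1b5d.H34
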