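import Pool.Agent.W_4b1b5d_h34.Mom

/-!
# The sheets as a family for `nonreal`
-/

set_option autoImplicit false

open MeasureTheory Set Filter Topology
open Pool.W4b1b5d.H3 Pool.W4b1b5d.SH
open scoped ComplexConjugate

namespace Pool.W4b1b5d.H34

variable {D : PD} {s τ : ℝ}

/-- `|Im R(x,Y)| ≤ C (|Y| - l x)`. -/
theorem im_R_le (D : PD) (ρ : ℝ) : ∃ C : ℝ, 0 < C ∧ ∀ (x : V2) (Y : ℂ), D.l x ≤ ‖Y‖ → ‖Y‖ ≤ ρ →
    |(D.R 0 x Y).im| ≤ C * (‖Y‖ - D.l x) := by
  obtain ⟨c, C0, hc, hl⟩ := D.l_bounds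
  obtain ⟨C, hC, hR⟩ := D.R_bdd 1 c ρ hc
  refine ⟨C, hC, fun x Y hY hY2 => ?_⟩
  have hlp := D.lpos x
  have hYp : 0 < ‖Y‖ := lt_of_lt_of_le hlp hY
  have hY0 : Y ≠ 0 := norm_pos_iff.1 hYp
  set Y0 : ℂ := ((D.l x / ‖Y‖ : ℝ) : ℂ) * Y with hY0def
  have hn0 : ‖Y0‖ = D.l x := by
    rw [hY0def, norm_mul, Complex.norm_real, Real.norm_eq_abs, abs_of_pos (div_pos hlp hYp)]
    field_simp
  have him : (D.R 0 x Y0).im = 0 := D.R_real x hn0
  have hseg : ∀ z ∈ segment ℝ Y0 Y, D.l x ≤ ‖z‖ ∧ ‖z‖ ≤ ‖Y‖ := by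
    intro z hz
    obtain ⟨a, b, ha, hb, hab, rfl⟩ := hz
    have e : a • Y0 + b • Y = ((a * (D.l x / ‖Y‖) + b : ℝ) : ℂ) * Y := by
      rw [hY0def]
      simp only [Complex.real_smul]
      push_cast
      ring
    have hpos : 0 ≤ a * (D.l x / ‖Y‖) + b := by positivity
    rw [e, norm_mul, Complex.norm_real, Real.norm_eq_abs, abs_of_nonneg hpos]
    have h1 : (a * (D.l x / ‖Y‖) + b) * ‖Y‖ = a * D.l x + b * ‖Y‖ := by
      field_simp
    rw [h1]
    constructor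
    · nlinarith
    · nlinarith
  have hmv := (convex_segment Y0 Y).norm_image_sub_le_of_norm_hasDerivWithin_le
    (f := fun y => D.R 0 x y) (f' := fun y => D.R 1 x y) (C := C)
    (fun z hz => by
      have hz0 : z ≠ 0 := by
        intro h
        have := (hseg z hz).1
        rw [h, norm_zero] at this
        linarith
      exact (D.R_hasDerivAt 0 x hz0).hasDerivWithinAt)
    (fun z hz => hR x z ((hl x).1.trans (hseg z hz).1) ((hseg z hz).2.trans hY2))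
    (left_mem_segment ℝ Y0 Y) (right_mem_segment ℝ Y0 Y)
  have hdist : ‖Y - Y0‖ = ‖Y‖ - D.l x := by
    have e : Y - Y0 = ((1 - D.l x / ‖Y‖ : ℝ) : ℂ) * Y := by
      rw [hY0def]
      push_cast
      ring
    have h2 : D.l x / ‖Y‖ ≤ 1 := (div_le_one hYp).2 hY
    rw [e, norm_mul, Complex.norm_real, Real.norm_eq_abs, abs_of_nonneg (by linarith)]
    field_simp
  rw [hdist] at hmv
  calc |(D.R 0 x Y).im| = |(D.R 0 x Y - D.R 0 x Y0).im| := by
        rw [Complex.sub_im, him, sub_zero]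
    _ ≤ ‖D.R 0 x Y - D.R 0 x Y0‖ := Complex.abs_im_le_norm _
    _ ≤ C * (‖Y‖ - D.l x) := hmv

theorem sh_low (hs : s = 1 ∨ s = -1) (S : Sh D 2 s τ) (j : Fin S.n) (w0 δ : ℝ) :
    ∃ c : ℝ, 0 < c ∧ ∀ x, ∀ v ∈ Box s w0 δ, v ∈ Us s τ →
      D.l x + c * (s * v.im) ≤ ‖S.P j x v‖ ^ 2 := by
  obtain ⟨C1, hC1, hb, -⟩ := D.R_bound
  obtain ⟨C, hC, h⟩ := im_R_le D (C1 * (1 + (|w0| + δ + δ)))
  refine ⟨1 / C, by positivity, fun x v hv hvU => ?_⟩
  have hroot := S.root j x v hvU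
  have hle := S.le j x v hvU
  have hn : ‖S.P j x v ^ 2‖ = ‖S.P j x v‖ ^ 2 := norm_pow _ _
  have habs : |v.im| = s * v.im := by
    rcases hs with rfl | rfl
    · rw [one_mul]
      exact abs_of_nonneg (by simpa using hv.2.1)
    · have := hv.2.1
      rw [neg_one_mul] at this ⊢
      exact abs_of_nonpos (by linarith)
  have hvn : ‖v‖ ≤ |w0| + δ + δ := by
    refine (Complex.norm_le_abs_re_add_abs_im v).trans ?_
    have h1 : |v.re| ≤ |w0| + δ := by
      have h2 := hv.1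
      have h3 : |v.re| ≤ |v.re - w0| + |w0| := by
        calc |v.re| = |(v.re - w0) + w0| := by ring_nf
          _ ≤ _ := abs_add_le _ _
      linarith
    rw [habs]
    have := hv.2.2
    linarith
  have hY2 : ‖S.P j x v ^ 2‖ ≤ C1 * (1 + (|w0| + δ + δ)) := by
    have h1 := hb x (S.P j x v ^ 2) (by rw [hn]; exact hle)
    rw [hroot] at h1
    refine h1.trans ?_
    gcongr
  have h2 := h x (S.P j x v ^ 2) (by rw [hn]; exact hle) hY2
  rw [hroot, hn, habs] at h2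
  have h3 : 1 / C * (s * v.im) ≤ ‖S.P j x v‖ ^ 2 - D.l x := by
    rw [div_mul_eq_mul_div, one_mul, div_le_iff₀ hC]
    linarith
  linarith

/-- The family of a sheet. -/
theorem sh_fam (hs : s = 1 ∨ s = -1) (hH : Ks s τ ⊆ D.H) (S : Sh D 2 s τ) (j : Fin S.n) {w0 δ : ℝ}
    (hδ : 0 < δ) (hδτ : δ < τ) : ∃ c : ℝ, 0 < c ∧
      GFam D.al D.l s w0 δ c (fun x v => S.P j x (cB s w0 δ v)) := by
  obtain ⟨c, hc, hlow⟩ := sh_low hs S j w0 δ
  have hU : ∀ v, cB s w0 δ v ∈ Us s τ := fun v => Box_Us hδτ (cB_mem hs hδ.le _)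
  refine ⟨c, hc, ⟨sh_cont hs S j hδ.le hδτ, fun v => mom_cform hs hH S j (hU v), ?_,
    fun x v => S.le j x _ (hU v), ?_, fun v => S.per j _ (hU v)⟩⟩
  · intro x v h1 h2 h3
    have hO : ∀ᶠ u in 𝓝 v, cB s w0 δ u = u := by
      have hopen : IsOpen {u : ℂ | |u.re - w0| < δ ∧ 0 < s * u.im ∧ s * u.im < δ} := by
        have e : {u : ℂ | |u.re - w0| < δ ∧ 0 < s * u.im ∧ s * u.im < δ} =
            {u : ℂ | |u.re - w0| < δ} ∩ ({u : ℂ | 0 < s * u.im} ∩ {u : ℂ | s * u.im < δ}) := rfl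
        rw [e]
        refine (isOpen_lt ?_ continuous_const).inter ((isOpen_lt continuous_const ?_).inter
          (isOpen_lt ?_ continuous_const))
        · exact (Complex.continuous_re.sub continuous_const).abs
        · exact continuous_const.mul Complex.continuous_im
        · exact continuous_const.mul Complex.continuous_im
      filter_upwards [hopen.mem_nhds ⟨h1, h2, h3⟩] with u hu
      exact cB_fix hs ⟨hu.1.le, hu.2.1.le, hu.2.2.le⟩
    have hd := (Sh.dv_in (by norm_num) hH S j x v ⟨h2, h3.trans hδτ⟩).differentiableAt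
    refine hd.congr_of_eventuallyEq ?_
    filter_upwards [hO] with u hu
    rw [hu]
  · intro x v h1 h2 h3
    have hB : v ∈ Box s w0 δ := ⟨h1.le, h2, h3.le⟩
    rw [cB_fix hs hB]
    exact hlow x v hB (Box_Us hδτ hB)

end Pool.W4b1b5d.H34
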